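import Mathlib

set_option autoImplicit false

namespace H446.EY

open Finset

universe u

/-- AC: the ring of the conjugation action on an abelian normal subgroup of exponent 3 -/
theorem exists_ring3 {T : Type u} [Group T] (V : Subgroup T) [V.Normal]
    (hV : ∀ v ∈ V, v ^ 3 = 1) (hc : ∀ v ∈ V, ∀ w ∈ V, v * w = w * v) (hne : V ≠ ⊥) :
    ∃ (R : Type u) (_ : Ring R) (_ : Nontrivial R) (φ : T →* R), (3 : R) = 0 ∧
      (∀ w : T, (∀ v ∈ V, w * v = v * w) → φ w = 1) ∧
      ∀ (w : T) (p : ℕ), (∀ v ∈ V, (v * w) ^ p = 1) → ∑ k ∈ range p, φ w ^ k = 0 := by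
  have hcomm : ∀ a b : V, a * b = b * a := by
    intro a b
    apply Subtype.ext
    exact hc _ a.2 _ b.2
  letI : CommGroup V := { (inferInstance : Group V) with mul_comm := hcomm }
  obtain ⟨s0, hs0, hs01⟩ : ∃ s ∈ V, s ≠ 1 := by
    by_contra hcon
    push Not at hcon
    exact hne ((Subgroup.eq_bot_iff_forall V).2 hcon)
  let φ : T →* AddMonoid.End (Additive V) :=
    { toFun := fun w => MonoidHom.toAdditive ((MulAut.conjNormal (H := V) w : V ≃* V) : V →* V)
      map_one' := by
        apply AddMonoidHom.ext
        intro x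
        show Additive.ofMul ((MulAut.conjNormal (H := V) (1 : T) : V ≃* V) x.toMul) = x
        rw [map_one]
        rfl
      map_mul' := by
        intro a b
        apply AddMonoidHom.ext
        intro x
        show Additive.ofMul ((MulAut.conjNormal (H := V) (a * b) : V ≃* V) x.toMul) =
          Additive.ofMul ((MulAut.conjNormal (H := V) a : V ≃* V)
            ((MulAut.conjNormal (H := V) b : V ≃* V) x.toMul))
        rw [map_mul]
        rfl }
  have hφ : ∀ (w : T) (s : V), φ w (Additive.ofMul s) =
      Additive.ofMul ((MulAut.conjNormal (H := V) w : V ≃* V) s) := fun w s => rfl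
  refine ⟨AddMonoid.End (Additive V), inferInstance, ⟨1, 0, ?_⟩, φ, ?_, ?_, ?_⟩
  · intro h
    have h1 : (1 : AddMonoid.End (Additive V)) (Additive.ofMul ⟨s0, hs0⟩) =
        (0 : AddMonoid.End (Additive V)) (Additive.ofMul ⟨s0, hs0⟩) := by rw [h]
    have h3 : (⟨s0, hs0⟩ : V) = 1 := h1
    exact hs01 (congrArg Subtype.val h3)
  · have e3 : (3 : AddMonoid.End (Additive V)) = 1 + 1 + 1 := by norm_num
    rw [e3]
    apply AddMonoidHom.ext
    intro x
    have h1 : (x.toMul * x.toMul * x.toMul : V) = 1 := by
      apply Subtype.ext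
      have := hV _ x.toMul.2
      rw [pow_succ, pow_two] at this
      exact this
    show x + x + x = 0
    exact h1
  · intro w hw
    apply AddMonoidHom.ext
    intro x
    show Additive.ofMul ((MulAut.conjNormal (H := V) w : V ≃* V) x.toMul) = x
    have h1 : (MulAut.conjNormal (H := V) w : V ≃* V) x.toMul = x.toMul := by
      apply Subtype.ext
      rw [MulAut.conjNormal_apply, hw _ x.toMul.2]
      group
    rw [h1]
    rfl
  · intro w p hw
    have hwp : w ^ p = 1 := by
      have := hw 1 V.one_mem
      rwa [one_mul] at this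
    -- the product formula
    have key : ∀ (s : V) (q : ℕ), ((∏ k ∈ range q, (MulAut.conjNormal (H := V) (w ^ k) : V ≃* V) s :
        V) : T) * w ^ q = ((s : T) * w) ^ q := by
      intro s q
      induction q with
      | zero => simp
      | succ q ih =>
        rw [Finset.prod_range_succ, Subgroup.coe_mul, MulAut.conjNormal_apply, pow_succ w,
          pow_succ _ q, ← ih]
        group
    have hsum : ∀ (f : ℕ → AddMonoid.End (Additive V)) (q : ℕ) (x : Additive V),
        (∑ k ∈ range q, f k) x = ∑ k ∈ range q, f k x := by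
      intro f q x
      induction q with
      | zero => rfl
      | succ q ih =>
        rw [Finset.sum_range_succ, Finset.sum_range_succ, ← ih]
        rfl
    apply AddMonoidHom.ext
    intro x
    show (∑ k ∈ range p, φ w ^ k : AddMonoid.End (Additive V)) x = 0
    rw [hsum]
    have h1 : ∀ k : ℕ, (φ w ^ k) x =
        Additive.ofMul ((MulAut.conjNormal (H := V) (w ^ k) : V ≃* V) x.toMul) := by
      intro k
      rw [← map_pow]
      rfl
    rw [Finset.sum_congr rfl fun k _ => h1 k, ← ofMul_prod]
    have h3 := key x.toMul p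
    rw [hwp, mul_one, hw _ x.toMul.2] at h3
    have h4 : (∏ k ∈ range p, (MulAut.conjNormal (H := V) (w ^ k) : V ≃* V) x.toMul : V) = 1 :=
      Subtype.ext h3
    rw [h4]
    rfl

end H446.EY
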