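import Mathlib

set_option autoImplicit false

/-!
Groups of exponent 3 have nontrivial centre.
-/

namespace H446.EY

theorem cen_ring {R : Type*} [Ring R] (h3 : (3 : R) = 0) (P : R → Prop)
    (h1 : ∀ Y, P Y → Y * Y = 0) (h2 : ∀ Y Z, P Y → P Z → P (Y + Z + Y * Z)) :
    ∀ Y Z W, P Y → P Z → P W → Y * Z * W = 0 := by
  have hk : ∀ Y Z, P Y → P Z → Y * Z * Y = 0 := by
    intro Y Z hY hZ
    have e := h1 _ (h2 Y Z hY hZ)
    have a1 := h1 Y hY
    have a2 := h1 Z hZ
    have a1' : ∀ t, Y * (Y * t) = 0 := fun t => by rw [← mul_assoc, a1, zero_mul]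
    have a2' : ∀ t, Z * (Z * t) = 0 := fun t => by rw [← mul_assoc, a2, zero_mul]
    have e1 := congrArg (fun t => Y * t * (1 - Z)) e
    simp only [mul_add, add_mul, mul_sub, mul_one, mul_assoc, a1, a1', a2,
      mul_zero, zero_mul, add_zero, zero_add, sub_zero] at e1
    rw [mul_assoc]
    have e2 : Y * (Z * Y) + Y * (Z * (Y * Z)) - (Y * (Z * (Y * Z))) = Y * (Z * Y) := by
      abel
    rw [← e2]
    exact e1
  have ha : ∀ Y Z, P Y → P Z → Y * Z = -(Z * Y) := by
    intro Y Z hY hZ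
    have e := h1 _ (h2 Y Z hY hZ)
    have a1 := h1 Y hY
    have a2 := h1 Z hZ
    have a1' : ∀ t, Y * (Y * t) = 0 := fun t => by rw [← mul_assoc, a1, zero_mul]
    have a2' : ∀ t, Z * (Z * t) = 0 := fun t => by rw [← mul_assoc, a2, zero_mul]
    have k1 := hk Y Z hY hZ
    have k2 := hk Z Y hZ hY
    rw [mul_assoc] at k1 k2
    simp only [mul_add, add_mul, mul_assoc, a1, a1', a2, k1, k2,
      mul_zero, add_zero, zero_add] at e
    rw [eq_neg_iff_add_eq_zero]
    rw [← e]
    abel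
  intro Y Z W hY hZ hW
  have e1 : W * (Y + Z + Y * Z) = -((Y + Z + Y * Z) * W) := ha _ _ hW (h2 Y Z hY hZ)
  have e2 := ha W Y hW hY
  have e3 := ha W Z hW hZ
  rw [mul_add, mul_add, add_mul, add_mul, e2, e3] at e1
  have e4 : W * (Y * Z) = -(Y * Z * W) := by
    have : -(Y * W) + -(Z * W) + W * (Y * Z) = -(Y * W) + -(Z * W) + -(Y * Z * W) := by
      rw [e1]; abel
    exact add_left_cancel this
  have e5 : W * (Y * Z) = Y * Z * W := by
    rw [← mul_assoc, e2, neg_mul, mul_assoc, e3]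
    rw [mul_neg, neg_neg, mul_assoc]
  rw [e5] at e4
  have e6 : Y * Z * W + Y * Z * W = 0 := by
    nth_rewrite 1 [e4]
    exact neg_add_cancel _
  have e7 : (3 : R) * (Y * Z * W) = 0 := by rw [h3, zero_mul]
  have e8 : (3 : R) * (Y * Z * W) = Y * Z * W + (Y * Z * W + Y * Z * W) := by
    rw [show (3 : R) = 1 + (1 + 1) by norm_num]
    simp only [add_mul, one_mul]
  rw [e8, e6, add_zero] at e7
  exact e7

theorem cen_sq {R : Type*} [Ring R] (h3 : (3 : R) = 0) (u : R) (h : 1 + u + u * u = 0) :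
    (u - 1) * (u - 1) = 0 := by
  have e : (u - 1) * (u - 1) = (1 + u + u * u) - 3 * u := by
    rw [show (3 : R) = 1 + (1 + 1) by norm_num]
    simp only [mul_sub, sub_mul, add_mul, one_mul, mul_one]
    abel
  rw [e, h, h3, zero_mul, sub_zero]

theorem cen_pr {R : Type*} [Ring R] (u v : R) :
    (u - 1) + (v - 1) + (u - 1) * (v - 1) = u * v - 1 := by
  simp only [mul_sub, sub_mul, one_mul, mul_one]
  abel

theorem cen_comm {F : Type*} [Group F] (h : ∀ x : F, x ^ 3 = 1) (a g : F) :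
    a * (g * a * g⁻¹) = (g * a * g⁻¹) * a := by
  have g2 : g * g = g⁻¹ := by
    rw [eq_inv_iff_mul_eq_one]
    have := h g
    rw [pow_succ, pow_two] at this
    exact this
  have g2' : g⁻¹ * g⁻¹ = g := by
    rw [← mul_inv_rev, g2, inv_inv]
  obtain ⟨b, hb⟩ : ∃ b, b = g * a * g⁻¹ := ⟨_, rfl⟩
  obtain ⟨c, hc⟩ : ∃ c, c = g⁻¹ * a * g := ⟨_, rfl⟩
  rw [← hb]
  have h1 : a * b * c = 1 := by
    have := h (a * g)
    rw [pow_succ, pow_two] at this
    calc a * b * c = a * g * a * (g⁻¹ * g⁻¹) * a * g := by rw [hb, hc]; group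
      _ = a * g * (a * g) * (a * g) := by rw [g2']; group
      _ = 1 := this
  have h2 : a * c * b = 1 := by
    have := h (a * g⁻¹)
    rw [pow_succ, pow_two] at this
    calc a * c * b = a * g⁻¹ * a * (g * g) * a * g⁻¹ := by rw [hb, hc]; group
      _ = a * g⁻¹ * (a * g⁻¹) * (a * g⁻¹) := by rw [g2]; group
      _ = 1 := this
  have h3 : b * c = c * b := by
    have : a * (b * c) = a * (c * b) := by rw [← mul_assoc, ← mul_assoc, h1, h2]
    exact mul_left_cancel this
  have h4 : c = (a * b)⁻¹ := by rw [eq_comm, inv_eq_iff_mul_eq_one]; exact h1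
  rw [h4] at h3
  have h5 : (a * b) * b = b * (a * b) := by
    have := congrArg (fun t => (a * b) * t * (a * b)) h3
    simp only [mul_assoc] at this ⊢
    simpa [mul_assoc] using this
  rw [← mul_assoc b a b] at h5
  exact mul_right_cancel h5

/-- CE: groups of exponent 3 have nontrivial centre -/
theorem center3 {F : Type*} [Group F] (h : ∀ x : F, x ^ 3 = 1) {x0 : F} (hx0 : x0 ≠ 1) :
    ∃ z : F, z ≠ 1 ∧ ∀ y : F, z * y = y * z := by
  classical
  have hcc : ∀ g k : F, (g * x0 * g⁻¹) * (k * x0 * k⁻¹) = (k * x0 * k⁻¹) * (g * x0 * g⁻¹) := by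
    intro g k
    have e := cen_comm h x0 (g⁻¹ * k)
    have := congrArg (fun t => g * t * g⁻¹) e
    simp only [mul_inv_rev, inv_inv] at this
    calc (g * x0 * g⁻¹) * (k * x0 * k⁻¹)
        = g * (x0 * (g⁻¹ * k * x0 * (k⁻¹ * g))) * g⁻¹ := by group
      _ = g * (g⁻¹ * k * x0 * (k⁻¹ * g) * x0) * g⁻¹ := this
      _ = _ := by group
  set N : Subgroup F := Subgroup.normalClosure {x0} with hN
  have hxN : x0 ∈ N := Subgroup.subset_normalClosure rfl
  have hNn : N.Normal := Subgroup.normalClosure_normal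
  have hcomm : ∀ v ∈ N, ∀ w ∈ N, v * w = w * v := by
    have hS : N = Subgroup.closure (Group.conjugatesOfSet {x0}) := rfl
    have h1 : N ≤ Subgroup.centralizer (Group.conjugatesOfSet {x0}) := by
      rw [hS, Subgroup.closure_le]
      intro v hv
      rw [SetLike.mem_coe, Subgroup.mem_centralizer_iff]
      intro w hw
      rw [Group.mem_conjugatesOfSet_iff] at hv hw
      obtain ⟨a, ha, hv⟩ := hv
      obtain ⟨b, hb, hw⟩ := hw
      rw [Set.mem_singleton_iff] at ha hb
      subst ha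
      subst hb
      rw [isConj_iff] at hv hw
      obtain ⟨g, hg⟩ := hv
      obtain ⟨k, hk⟩ := hw
      rw [← hg, ← hk]
      exact hcc k g
    have h2 : Group.conjugatesOfSet {x0} ⊆ (Subgroup.centralizer (N : Set F) : Set F) := by
      intro v hv
      rw [SetLike.mem_coe, Subgroup.mem_centralizer_iff]
      intro w hw
      have := h1 hw
      rw [Subgroup.mem_centralizer_iff] at this
      exact (this v hv).symm
    have h3 : N ≤ Subgroup.centralizer (N : Set F) := by
      have : Subgroup.closure (Group.conjugatesOfSet {x0}) ≤ Subgroup.centralizer (N : Set F) :=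
        (Subgroup.closure_le _).2 h2
      exact this
    intro v hv w hw
    have := h3 hw
    rw [Subgroup.mem_centralizer_iff] at this
    exact this v hv
  let _ : CommGroup N := { (inferInstance : Group N) with
    mul_comm := fun a b => Subtype.ext (hcomm a a.2 b b.2) }
  let ρ : F → AddMonoid.End (Additive N) := fun g =>
    (MulAut.conjNormal g : N ≃* N).toMonoidHom.toAdditive
  have hρ : ∀ (g : F) (n : N), ρ g (Additive.ofMul n) = Additive.ofMul (MulAut.conjNormal g n) :=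
    fun _ _ => rfl
  have hρmul : ∀ g k : F, ρ (g * k) = ρ g * ρ k := by
    intro g k
    apply AddMonoidHom.ext
    intro n
    obtain ⟨n, rfl⟩ := Additive.ofMul.surjective n
    change ρ (g * k) (Additive.ofMul n) = ρ g (ρ k (Additive.ofMul n))
    rw [hρ, hρ, hρ, map_mul]
    rfl
  have hN3 : ∀ n : N, n ^ 3 = 1 := fun n => Subtype.ext (h n)
  have h3 : (3 : AddMonoid.End (Additive N)) = 0 := by
    apply AddMonoidHom.ext
    intro n
    obtain ⟨n, rfl⟩ := Additive.ofMul.surjective n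
    have e : (3 : AddMonoid.End (Additive N)) (Additive.ofMul n) = Additive.ofMul (n ^ 3) := by
      have := AddMonoid.End.natCast_apply 3 (Additive.ofMul n)
      rw [ofMul_pow]
      exact this
    refine e.trans ?_
    rw [hN3]
    rfl
  -- `1 + ρ y + ρ y ^ 2 = 0`
  have hnorm : ∀ y : F, 1 + ρ y + ρ y * ρ y = 0 := by
    intro y
    apply AddMonoidHom.ext
    intro n
    obtain ⟨n, rfl⟩ := Additive.ofMul.surjective n
    have e1 : (1 + ρ y + ρ y * ρ y) (Additive.ofMul n) =
        Additive.ofMul (n * MulAut.conjNormal y n * MulAut.conjNormal y (MulAut.conjNormal y n)) :=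
      rfl
    refine e1.trans ?_
    have e2 : n * MulAut.conjNormal y n * MulAut.conjNormal y (MulAut.conjNormal y n) = 1 := by
      apply Subtype.ext
      push_cast
      rw [MulAut.conjNormal_apply, MulAut.conjNormal_apply, MulAut.conjNormal_apply]
      calc (n : F) * (y * n * y⁻¹) * (y * (y * n * y⁻¹) * y⁻¹)
          = ((n : F) * y) * (n * y) * (n * y) * (y ^ 3)⁻¹ := by group
        _ = ((n : F) * y) ^ 3 * (y ^ 3)⁻¹ := by rw [pow_succ ((n : F) * y), pow_two]
        _ = 1 := by rw [h, h, inv_one, mul_one]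
    rw [e2]
    rfl
  let P : AddMonoid.End (Additive N) → Prop := fun Y => ∃ y : F, Y = ρ y - 1
  have hring := cen_ring h3 P (by
    rintro Y ⟨y, rfl⟩
    exact cen_sq h3 (ρ y) (hnorm y)) (by
    rintro Y Z ⟨y, rfl⟩ ⟨z, rfl⟩
    refine ⟨y * z, ?_⟩
    rw [hρmul]
    exact cen_pr (ρ y) (ρ z))
  -- the value of `ρ y - 1`
  have hval : ∀ (y : F) (n : N), (ρ y - 1) (Additive.ofMul n) = 0 → (n : F) * y = y * n := by
    intro y n hn
    have e1 : (ρ y - 1) (Additive.ofMul n) = Additive.ofMul (MulAut.conjNormal y n / n) := rfl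
    rw [e1] at hn
    have e2 : MulAut.conjNormal y n / n = 1 := hn
    rw [div_eq_one] at e2
    have e3 := congrArg (Subtype.val) e2
    rw [MulAut.conjNormal_apply] at e3
    rw [mul_inv_eq_iff_eq_mul] at e3
    exact e3.symm
  have hne : ∀ n : N, Additive.ofMul n ≠ 0 → (n : F) ≠ 1 := by
    intro n hn h1
    apply hn
    have : n = 1 := Subtype.ext h1
    rw [this]
    rfl
  by_cases c0 : ∀ y : F, (ρ y - 1) (Additive.ofMul ⟨x0, hxN⟩) = 0
  · exact ⟨x0, hx0, fun y => hval y ⟨x0, hxN⟩ (c0 y)⟩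
  push Not at c0
  obtain ⟨y, hy⟩ := c0
  obtain ⟨n1, hn1⟩ := Additive.ofMul.surjective ((ρ y - 1) (Additive.ofMul ⟨x0, hxN⟩))
  by_cases c1 : ∀ z : F, (ρ z - 1) (Additive.ofMul n1) = 0
  · exact ⟨n1, hne n1 (by rw [hn1]; exact hy), fun z => hval z n1 (c1 z)⟩
  push Not at c1
  obtain ⟨z, hz⟩ := c1
  obtain ⟨n2, hn2⟩ := Additive.ofMul.surjective ((ρ z - 1) (Additive.ofMul n1))
  refine ⟨n2, hne n2 (by rw [hn2]; exact hz), fun w => hval w n2 ?_⟩
  rw [hn2, hn1]
  have := hring (ρ w - 1) (ρ z - 1) (ρ y - 1) ⟨w, rfl⟩ ⟨z, rfl⟩ ⟨y, rfl⟩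
  have e := congrArg (fun f : AddMonoid.End (Additive N) => f (Additive.ofMul ⟨x0, hxN⟩)) this
  exact e

end H446.EY
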