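import Mathlib
import Pool.Agent.H446R9.EY.CertData

/-!
The group-theoretic statements obtained from the coset enumerations of `CertData`.
-/

set_option autoImplicit false

namespace H446.EY

open H15.TC H446.TCS

/-- generators -/
def gen3 {T : Type*} (i j k : T) : ℕ → T
  | 0 => i
  | 1 => j
  | _ => k

section
variable {T : Type*} [Group T]

theorem lv0 (i j k : T) : lv (gen3 i j k) 0 = i := rfl
theorem lv1 (i j k : T) : lv (gen3 i j k) 1 = i⁻¹ := rfl
theorem lv2 (i j k : T) : lv (gen3 i j k) 2 = j := rfl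
theorem lv3 (i j k : T) : lv (gen3 i j k) 3 = j⁻¹ := rfl
theorem lv4 (i j k : T) : lv (gen3 i j k) 4 = k := rfl
theorem lv5 (i j k : T) : lv (gen3 i j k) 5 = k⁻¹ := rfl

theorem comm_of {a b c : T} {lf : List (List (List ℕ) × List ℕ)}
    (hlf : ∀ p ∈ lf, p = ([[0]], [2]) ∨ p = ([[0, 3]], [0]) ∨ p = ([[0, 2]], [0]) ∨
      p = ([[0, 0, 2]], [0]))
    (h : ∃ p ∈ lf, ∀ H : Subgroup T, (∀ r ∈ p.1, ev (gen3 a b c) r ∈ H) →
      ev (gen3 a b c) p.2 ∈ H) : a * b = b * a := by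
  obtain ⟨p, hp, h⟩ := h
  rcases hlf p hp with rfl | rfl | rfl | rfl
  · have := h (Subgroup.centralizer {a}) (by
      intro r hr
      rw [List.mem_singleton.mp hr]
      simp [ev_cons, lv0, Subgroup.mem_centralizer_iff])
    simp only [ev_cons, ev_nil, lv2, mul_one, Subgroup.mem_centralizer_iff,
      Set.mem_singleton_iff, forall_eq] at this
    exact this
  · have := h (Subgroup.centralizer {a * b⁻¹}) (by
      intro r hr
      rw [List.mem_singleton.mp hr]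
      simp [ev_cons, lv0, lv3, Subgroup.mem_centralizer_iff])
    simp only [ev_cons, ev_nil, lv0, mul_one, Subgroup.mem_centralizer_iff,
      Set.mem_singleton_iff, forall_eq] at this
    have h2 : b⁻¹ * a = a * b⁻¹ := by
      rw [mul_assoc] at this
      exact mul_left_cancel this
    calc a * b = b * (b⁻¹ * a) * b := by group
      _ = b * (a * b⁻¹) * b := by rw [h2]
      _ = b * a := by group
  · have := h (Subgroup.centralizer {a * b}) (by
      intro r hr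
      rw [List.mem_singleton.mp hr]
      simp [ev_cons, lv0, lv2, Subgroup.mem_centralizer_iff])
    simp only [ev_cons, ev_nil, lv0, mul_one, Subgroup.mem_centralizer_iff,
      Set.mem_singleton_iff, forall_eq] at this
    rw [mul_assoc] at this
    exact (mul_left_cancel this).symm
  · have := h (Subgroup.centralizer {a * (a * b)}) (by
      intro r hr
      rw [List.mem_singleton.mp hr]
      simp [ev_cons, lv0, lv2, Subgroup.mem_centralizer_iff])
    simp only [ev_cons, ev_nil, lv0, mul_one, Subgroup.mem_centralizer_iff,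
      Set.mem_singleton_iff, forall_eq] at this
    rw [mul_assoc] at this
    have := mul_left_cancel this
    rw [mul_assoc] at this
    exact (mul_left_cancel this).symm

/-- order dividing 3 and 5 -/
theorem one_of_35 {g : T} (h3 : g ^ 3 = 1) (h5 : g ^ 5 = 1) : g = 1 := by
  have : g = (g ^ 3) ^ 2 * (g ^ 5)⁻¹ := by group
  rw [this, h3, h5]; simp

theorem certI {G : Type*} [Group G]
    (hG : ∀ a b : G, a ^ 5 = 1 → b ^ 5 = 1 → (a * b) ^ 3 = 1 ∨ (a * b) ^ 5 = 1)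
    {y s : G} (hy : y ^ 5 = 1) (hs : s ^ 3 = 1) (hys : (y * s) ^ 5 = 1) :
    (y ^ 2 * s) ^ 5 = 1 := by
  have e : y ^ 2 * s = y * (y * s) := by rw [pow_two, mul_assoc]
  rcases hG y (y * s) hy hys with h | h
  swap
  · rw [e]; exact h
  rw [← e] at h
  have hyi : (y⁻¹) ^ 5 = 1 := by rw [inv_pow, hy, inv_one]
  have cj : ∀ c d : G, d ^ 5 = 1 → (c * d * c⁻¹) ^ 5 = 1 := by
    intro c d hd
    rw [conj_pow, hd]; simp
  have hy2 : (y⁻¹ ^ 2) ^ 5 = 1 := by rw [← pow_mul, mul_comm, pow_mul, hyi, one_pow]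
  have hc : y * s = s * y := by
    have ht := okw_sound (gen := gen3 y s s) (G := G) (lf := lfI) (ws := wsI) (by decide) ?_ okI_0 ?_
    · exact comm_of (by decide) ht
    · intro w hw
      simp only [wsI, List.mem_cons, List.not_mem_nil, or_false] at hw
      rcases hw with rfl | rfl | rfl | rfl
      · -- AAB = y⁻¹ * (y⁻¹ * s⁻¹)
        simp only [ev_cons, ev_nil, lv0, lv1, lv2, lv3, lv4, lv5, mul_one]
        have := hG y⁻¹ (y⁻¹ * s⁻¹) hyi (by
          have : y⁻¹ * s⁻¹ = s * (y * s)⁻¹ * s⁻¹ := by group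
          rw [this]
          exact cj _ _ (by rw [inv_pow, hys, inv_one]))
        simpa using this
      · -- AABAAb
        simp only [ev_cons, ev_nil, lv0, lv1, lv2, lv3, lv4, lv5, mul_one]
        have := hG (y⁻¹ ^ 2) (s⁻¹ * y⁻¹ ^ 2 * s⁻¹⁻¹) hy2 (cj _ _ hy2)
        have e2 : y⁻¹ ^ 2 * (s⁻¹ * y⁻¹ ^ 2 * s⁻¹⁻¹) = y⁻¹ * (y⁻¹ * (s⁻¹ * (y⁻¹ * (y⁻¹ * s)))) := by
          group
        rw [e2] at this
        exact this
      · -- Ab
        simp only [ev_cons, ev_nil, lv0, lv1, lv2, lv3, lv4, lv5, mul_one]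
        have := hG (y⁻¹ ^ 2) (y * s) hy2 hys
        have e2 : y⁻¹ ^ 2 * (y * s) = y⁻¹ * s := by group
        rw [e2] at this
        exact this
      · -- ABab
        simp only [ev_cons, ev_nil, lv0, lv1, lv2, lv3, lv4, lv5, mul_one]
        have := hG y⁻¹ (s⁻¹ * y * s⁻¹⁻¹) hyi (cj _ _ hy)
        have e2 : y⁻¹ * (s⁻¹ * y * s⁻¹⁻¹) = y⁻¹ * (s⁻¹ * (y * s)) := by group
        rw [e2] at this
        exact this
    · intro r hr
      simp only [rI_0, List.mem_cons, List.not_mem_nil, or_false] at hr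
      rcases hr with rfl | rfl | rfl | rfl
      · simp only [ev_cons, ev_nil, lv0, lv1, lv2, lv3, lv4, lv5, mul_one]; simpa [pow_succ, mul_assoc] using hy
      · simp only [ev_cons, ev_nil, lv0, lv1, lv2, lv3, lv4, lv5, mul_one]; simpa [pow_succ, mul_assoc] using hs
      · simp only [ev_cons, ev_nil, lv0, lv1, lv2, lv3, lv4, lv5, mul_one]; simpa [pow_succ, mul_assoc] using hys
      · simp only [ev_cons, ev_nil, lv0, lv1, lv2, lv3, lv4, lv5, mul_one]; simpa [pow_succ, mul_assoc] using h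
  · have hcc : Commute y s := hc
    have h5 : s ^ 5 = 1 := by rw [hcc.mul_pow, hy, one_mul] at hys; exact hys
    have hs1 := one_of_35 hs h5
    rw [hs1, mul_one, ← pow_mul, mul_comm, pow_mul, hy, one_pow]

theorem certII {G : Type*} [Group G] {a b : G} (ha : a ^ 5 = 1) (hb : b ^ 5 = 1)
    (h1 : (a * b) ^ 3 = 1) (h2 : (a * b ^ 2) ^ 3 = 1) (h3 : (a * b ^ 3) ^ 3 = 1)
    (h4 : (a * b ^ 4) ^ 3 = 1) : a = 1 ∧ b = 1 := by
  have hc : a * b = b * a := by
    have ht := okw_sound (gen := gen3 a b b) (G := G) (lf := lfII) (ws := wsII) (by decide)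
      (by intro w hw; simp [wsII] at hw) okII_0 ?_
    · exact comm_of (by decide) ht
    · intro r hr
      simp only [rII_0, List.mem_cons, List.not_mem_nil, or_false] at hr
      rcases hr with rfl | rfl | rfl | rfl | rfl | rfl
      · simp only [ev_cons, ev_nil, lv0, lv1, lv2, lv3, lv4, lv5, mul_one]; simpa [pow_succ, mul_assoc] using ha
      · simp only [ev_cons, ev_nil, lv0, lv1, lv2, lv3, lv4, lv5, mul_one]; simpa [pow_succ, mul_assoc] using hb
      · simp only [ev_cons, ev_nil, lv0, lv1, lv2, lv3, lv4, lv5, mul_one]; simpa [pow_succ, mul_assoc] using h1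
      · simp only [ev_cons, ev_nil, lv0, lv1, lv2, lv3, lv4, lv5, mul_one]; simpa [pow_succ, mul_assoc] using h2
      · simp only [ev_cons, ev_nil, lv0, lv1, lv2, lv3, lv4, lv5, mul_one]; simpa [pow_succ, mul_assoc] using h3
      · simp only [ev_cons, ev_nil, lv0, lv1, lv2, lv3, lv4, lv5, mul_one]; simpa [pow_succ, mul_assoc] using h4
  have hcc : Commute a b := hc
  have e1 : a * b = 1 := one_of_35 h1 (by rw [hcc.mul_pow, ha, hb, one_mul])
  have e2 : a * b ^ 2 = 1 := one_of_35 h2 (by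
    rw [(hcc.pow_right 2).mul_pow, ha, ← pow_mul, mul_comm 2 5, pow_mul, hb, one_pow, one_mul])
  have e3 : b = 1 := by
    have : a * b ^ 2 = a * b * b := by rw [pow_two, mul_assoc]
    rw [this, e1, one_mul] at e2
    exact e2
  rw [e3, mul_one] at e1
  exact ⟨e1, e3⟩

theorem certA {T : Type*} [Group T] (hT : ∀ g : T, g ^ 3 = 1 ∨ g ^ 5 = 1) {a b : T}
    (ha : a ^ 5 = 1) (hb : b ^ 3 = 1) (hab : (a * b) ^ 3 = 1) : (a ^ 2 * b) ^ 3 = 1 := by
  rcases hT (a ^ 2 * b) with h | h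
  · exact h
  have hc : a * b = b * a := by
    have ht := okw_sound (gen := gen3 a b b) (G := T) (lf := lfA) (ws := wsA) (by decide)
      (by intro w _; exact hT _) okA_0 ?_
    · exact comm_of (by decide) ht
    · intro r hr
      simp only [rA_0, List.mem_cons, List.not_mem_nil, or_false] at hr
      rcases hr with rfl | rfl | rfl | rfl
      · simp only [ev_cons, ev_nil, lv0, lv1, lv2, lv3, lv4, lv5, mul_one]; simpa [pow_succ, mul_assoc] using ha
      · simp only [ev_cons, ev_nil, lv0, lv1, lv2, lv3, lv4, lv5, mul_one]; simpa [pow_succ, mul_assoc] using hb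
      · simp only [ev_cons, ev_nil, lv0, lv1, lv2, lv3, lv4, lv5, mul_one]; simpa [pow_succ, mul_assoc] using hab
      · simp only [ev_cons, ev_nil, lv0, lv1, lv2, lv3, lv4, lv5, mul_one]; simpa [pow_succ, mul_assoc] using h
  have hcc : Commute a b := hc
  have h3 : a ^ 3 = 1 := by rw [hcc.mul_pow, hb, mul_one] at hab; exact hab
  have e3 := one_of_35 h3 ha
  rw [e3, one_pow, one_mul]; exact hb

theorem certD {T : Type*} [Group T] (hT : ∀ g : T, g ^ 3 = 1 ∨ g ^ 5 = 1) {a b : T}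
    (ha : a ^ 3 = 1) (hb : b ^ 3 = 1) (h1 : (a * b) ^ 5 = 1) (h2 : (a⁻¹ * b) ^ 5 = 1) :
    a = 1 ∧ b = 1 := by
  have h2' : (a * b⁻¹) ^ 5 = 1 := by
    have : a * b⁻¹ = a * (a⁻¹ * b)⁻¹ * a⁻¹ := by group
    rw [this, conj_pow, inv_pow, h2]; simp
  have hc : a * b = b * a := by
    have ht := okw_sound (gen := gen3 a b b) (G := T) (lf := lfD) (ws := wsD) (by decide)
      (by intro w _; exact hT _) okD_0 ?_
    · exact comm_of (by decide) ht
    · intro r hr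
      simp only [rD_0, List.mem_cons, List.not_mem_nil, or_false] at hr
      rcases hr with rfl | rfl | rfl | rfl
      · simp only [ev_cons, ev_nil, lv0, lv1, lv2, lv3, lv4, lv5, mul_one]; simpa [pow_succ, mul_assoc] using ha
      · simp only [ev_cons, ev_nil, lv0, lv1, lv2, lv3, lv4, lv5, mul_one]; simpa [pow_succ, mul_assoc] using hb
      · simp only [ev_cons, ev_nil, lv0, lv1, lv2, lv3, lv4, lv5, mul_one]; simpa [pow_succ, mul_assoc] using h1
      · simp only [ev_cons, ev_nil, lv0, lv1, lv2, lv3, lv4, lv5, mul_one]; simpa [pow_succ, mul_assoc] using h2'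
  have hcc : Commute a b := hc
  have e1 : a * b = 1 := one_of_35 (by rw [hcc.mul_pow, ha, hb, one_mul]) h1
  have e2 : a⁻¹ * b = 1 := one_of_35 (by
    rw [hcc.inv_left.mul_pow, inv_pow, ha, hb, inv_one, one_mul]) h2
  have e3 : b = a := by
    have := inv_mul_eq_one.mp e2
    exact this.symm
  have e4 : a ^ 2 = 1 := by rw [e3] at e1; rw [pow_two]; exact e1
  have e5 : a = 1 := by
    have : a = a ^ 3 * (a ^ 2)⁻¹ := by group
    rw [this, ha, e4]; simp
  exact ⟨e5, by rw [e3, e5]⟩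

/-- conclusion of the `H` certificates -/
theorem finH {T : Type*} [Group T] {a b : T} (hb : b ^ 3 = 1) (ha : a ^ 5 = 1)
    (h1 : (a * b) ^ 5 = 1) (hc : a * b = b * a) : b = 1 := by
  have hcc : Commute a b := hc
  have h5 : b ^ 5 = 1 := by rw [hcc.mul_pow, ha, one_mul] at h1; exact h1
  exact one_of_35 hb h5

theorem certHpp {T : Type*} [Group T] (hT : ∀ g : T, g ^ 3 = 1 ∨ g ^ 5 = 1) {a b : T}
    (ha : a ^ 5 = 1) (hb : b ^ 3 = 1) (h1 : (a * b) ^ 5 = 1) (h2 : (a ^ 2 * b) ^ 5 = 1)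
    (h3 : (a⁻¹ * b) ^ 5 = 1) (h4 : (a⁻¹ ^ 2 * b) ^ 5 = 1)
    (k1 : (b * (a⁻¹ * b * a)) ^ 3 = 1) (k2 : (b⁻¹ * (a⁻¹ * b * a)) ^ 5 = 1)
    (k3 : (b * (a⁻¹ ^ 2 * b * a ^ 2)) ^ 3 = 1) (k4 : (b⁻¹ * (a⁻¹ ^ 2 * b * a ^ 2)) ^ 5 = 1) :
    b = 1 := by
  refine finH hb ha h1 ?_
  have ht := okw_sound (gen := gen3 a b b) (G := T) (lf := lfHpp) (ws := wsHpp) (by decide)
    (by intro w _; exact hT _) okHpp_0 ?_
  · exact comm_of (by decide) ht
  · intro r hr
    simp only [rHpp_0, List.mem_cons, List.not_mem_nil, or_false] at hr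
    rcases hr with rfl | rfl | rfl | rfl | rfl | rfl | rfl | rfl | rfl | rfl
    · simp only [ev_cons, ev_nil, lv0, lv1, lv2, lv3, lv4, lv5, mul_one]; simpa [pow_succ, mul_assoc] using ha
    · simp only [ev_cons, ev_nil, lv0, lv1, lv2, lv3, lv4, lv5, mul_one]; simpa [pow_succ, mul_assoc] using hb
    · simp only [ev_cons, ev_nil, lv0, lv1, lv2, lv3, lv4, lv5, mul_one]; simpa [pow_succ, mul_assoc] using h1
    · simp only [ev_cons, ev_nil, lv0, lv1, lv2, lv3, lv4, lv5, mul_one]; simpa [pow_succ, mul_assoc] using h2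
    · simp only [ev_cons, ev_nil, lv0, lv1, lv2, lv3, lv4, lv5, mul_one]; simpa [pow_succ, mul_assoc] using h3
    · simp only [ev_cons, ev_nil, lv0, lv1, lv2, lv3, lv4, lv5, mul_one]; simpa [pow_succ, mul_assoc] using h4
    · simp only [ev_cons, ev_nil, lv0, lv1, lv2, lv3, lv4, lv5, mul_one]; simpa [pow_succ, mul_assoc] using k2
    · simp only [ev_cons, ev_nil, lv0, lv1, lv2, lv3, lv4, lv5, mul_one]; simpa [pow_succ, mul_assoc] using k1
    · simp only [ev_cons, ev_nil, lv0, lv1, lv2, lv3, lv4, lv5, mul_one]; simpa [pow_succ, mul_assoc] using k4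
    · simp only [ev_cons, ev_nil, lv0, lv1, lv2, lv3, lv4, lv5, mul_one]; simpa [pow_succ, mul_assoc] using k3

theorem certHmm {T : Type*} [Group T] (hT : ∀ g : T, g ^ 3 = 1 ∨ g ^ 5 = 1) {a b : T}
    (ha : a ^ 5 = 1) (hb : b ^ 3 = 1) (h1 : (a * b) ^ 5 = 1) (h2 : (a ^ 2 * b) ^ 5 = 1)
    (h3 : (a⁻¹ * b) ^ 5 = 1) (h4 : (a⁻¹ ^ 2 * b) ^ 5 = 1)
    (k1 : (b * (a⁻¹ * b * a)) ^ 5 = 1) (k2 : (b⁻¹ * (a⁻¹ * b * a)) ^ 3 = 1)
    (k3 : (b * (a⁻¹ ^ 2 * b * a ^ 2)) ^ 5 = 1) (k4 : (b⁻¹ * (a⁻¹ ^ 2 * b * a ^ 2)) ^ 3 = 1) :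
    b = 1 := by
  refine finH hb ha h1 ?_
  have ht := okw_sound (gen := gen3 a b b) (G := T) (lf := lfHmm) (ws := wsHmm) (by decide)
    (by intro w _; exact hT _) okHmm_0 ?_
  · exact comm_of (by decide) ht
  · intro r hr
    simp only [rHmm_0, List.mem_cons, List.not_mem_nil, or_false] at hr
    rcases hr with rfl | rfl | rfl | rfl | rfl | rfl | rfl | rfl | rfl | rfl
    · simp only [ev_cons, ev_nil, lv0, lv1, lv2, lv3, lv4, lv5, mul_one]; simpa [pow_succ, mul_assoc] using ha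
    · simp only [ev_cons, ev_nil, lv0, lv1, lv2, lv3, lv4, lv5, mul_one]; simpa [pow_succ, mul_assoc] using hb
    · simp only [ev_cons, ev_nil, lv0, lv1, lv2, lv3, lv4, lv5, mul_one]; simpa [pow_succ, mul_assoc] using h1
    · simp only [ev_cons, ev_nil, lv0, lv1, lv2, lv3, lv4, lv5, mul_one]; simpa [pow_succ, mul_assoc] using h2
    · simp only [ev_cons, ev_nil, lv0, lv1, lv2, lv3, lv4, lv5, mul_one]; simpa [pow_succ, mul_assoc] using h3
    · simp only [ev_cons, ev_nil, lv0, lv1, lv2, lv3, lv4, lv5, mul_one]; simpa [pow_succ, mul_assoc] using h4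
    · simp only [ev_cons, ev_nil, lv0, lv1, lv2, lv3, lv4, lv5, mul_one]; simpa [pow_succ, mul_assoc] using k1
    · simp only [ev_cons, ev_nil, lv0, lv1, lv2, lv3, lv4, lv5, mul_one]; simpa [pow_succ, mul_assoc] using k2
    · simp only [ev_cons, ev_nil, lv0, lv1, lv2, lv3, lv4, lv5, mul_one]; simpa [pow_succ, mul_assoc] using k3
    · simp only [ev_cons, ev_nil, lv0, lv1, lv2, lv3, lv4, lv5, mul_one]; simpa [pow_succ, mul_assoc] using k4

theorem certHpm {T : Type*} [Group T] (hT : ∀ g : T, g ^ 3 = 1 ∨ g ^ 5 = 1) {a b : T}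
    (ha : a ^ 5 = 1) (hb : b ^ 3 = 1) (h1 : (a * b) ^ 5 = 1) (h2 : (a ^ 2 * b) ^ 5 = 1)
    (h3 : (a⁻¹ * b) ^ 5 = 1) (h4 : (a⁻¹ ^ 2 * b) ^ 5 = 1)
    (k1 : (b * (a⁻¹ * b * a)) ^ 3 = 1) (k2 : (b⁻¹ * (a⁻¹ * b * a)) ^ 5 = 1)
    (k3 : (b * (a⁻¹ ^ 2 * b * a ^ 2)) ^ 5 = 1) (k4 : (b⁻¹ * (a⁻¹ ^ 2 * b * a ^ 2)) ^ 3 = 1) :
    b = 1 := by
  refine finH hb ha h1 ?_
  have ht := okw_sound (gen := gen3 a b b) (G := T) (lf := lfHpm) (ws := wsHpm) (by decide)
    (by intro w _; exact hT _) okHpm_0 ?_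
  · exact comm_of (by decide) ht
  · intro r hr
    simp only [rHpm_0, List.mem_cons, List.not_mem_nil, or_false] at hr
    rcases hr with rfl | rfl | rfl | rfl | rfl | rfl | rfl | rfl | rfl | rfl
    · simp only [ev_cons, ev_nil, lv0, lv1, lv2, lv3, lv4, lv5, mul_one]; simpa [pow_succ, mul_assoc] using ha
    · simp only [ev_cons, ev_nil, lv0, lv1, lv2, lv3, lv4, lv5, mul_one]; simpa [pow_succ, mul_assoc] using hb
    · simp only [ev_cons, ev_nil, lv0, lv1, lv2, lv3, lv4, lv5, mul_one]; simpa [pow_succ, mul_assoc] using h1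
    · simp only [ev_cons, ev_nil, lv0, lv1, lv2, lv3, lv4, lv5, mul_one]; simpa [pow_succ, mul_assoc] using h2
    · simp only [ev_cons, ev_nil, lv0, lv1, lv2, lv3, lv4, lv5, mul_one]; simpa [pow_succ, mul_assoc] using h3
    · simp only [ev_cons, ev_nil, lv0, lv1, lv2, lv3, lv4, lv5, mul_one]; simpa [pow_succ, mul_assoc] using h4
    · simp only [ev_cons, ev_nil, lv0, lv1, lv2, lv3, lv4, lv5, mul_one]; simpa [pow_succ, mul_assoc] using k2
    · simp only [ev_cons, ev_nil, lv0, lv1, lv2, lv3, lv4, lv5, mul_one]; simpa [pow_succ, mul_assoc] using k1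
    · simp only [ev_cons, ev_nil, lv0, lv1, lv2, lv3, lv4, lv5, mul_one]; simpa [pow_succ, mul_assoc] using k3
    · simp only [ev_cons, ev_nil, lv0, lv1, lv2, lv3, lv4, lv5, mul_one]; simpa [pow_succ, mul_assoc] using k4

theorem certH {T : Type*} [Group T] (hT : ∀ g : T, g ^ 3 = 1 ∨ g ^ 5 = 1) {a b : T}
    (ha : a ^ 5 = 1) (hb : b ^ 3 = 1) (h1 : (a * b) ^ 5 = 1) (h2 : (a ^ 2 * b) ^ 5 = 1)
    (h3 : (a⁻¹ * b) ^ 5 = 1) (h4 : (a⁻¹ ^ 2 * b) ^ 5 = 1)
    (hk1 : ((b * (a⁻¹ * b * a)) ^ 3 = 1 ∧ (b⁻¹ * (a⁻¹ * b * a)) ^ 5 = 1) ∨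
      ((b * (a⁻¹ * b * a)) ^ 5 = 1 ∧ (b⁻¹ * (a⁻¹ * b * a)) ^ 3 = 1))
    (hk2 : ((b * (a⁻¹ ^ 2 * b * a ^ 2)) ^ 3 = 1 ∧ (b⁻¹ * (a⁻¹ ^ 2 * b * a ^ 2)) ^ 5 = 1) ∨
      ((b * (a⁻¹ ^ 2 * b * a ^ 2)) ^ 5 = 1 ∧ (b⁻¹ * (a⁻¹ ^ 2 * b * a ^ 2)) ^ 3 = 1)) :
    b = 1 := by
  rcases hk1 with ⟨k1, k2⟩ | ⟨k1, k2⟩
  · rcases hk2 with ⟨k3, k4⟩ | ⟨k3, k4⟩
    · exact certHpp hT ha hb h1 h2 h3 h4 k1 k2 k3 k4
    · exact certHpm hT ha hb h1 h2 h3 h4 k1 k2 k3 k4
  · rcases hk2 with ⟨k3, k4⟩ | ⟨k3, k4⟩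
    swap
    · exact certHmm hT ha hb h1 h2 h3 h4 k1 k2 k3 k4
    -- replace `a` by `a ^ 2`
    have a4 : a ^ 4 = a⁻¹ := by
      rw [eq_inv_iff_mul_eq_one, ← pow_succ]; exact ha
    have e4 : (a ^ 2) ^ 2 = a⁻¹ := by rw [← pow_mul]; exact a4
    have e4' : (a ^ 2)⁻¹ ^ 2 = a := by rw [inv_pow, e4, inv_inv]
    have ei : (a ^ 2)⁻¹ = a⁻¹ ^ 2 := (inv_pow a 2).symm
    have cj : ∀ (c d : T) (n : ℕ), d ^ n = 1 → (c * d * c⁻¹) ^ n = 1 := by
      intro c d n hd
      rw [conj_pow, hd]; simp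
    refine certHpm hT (a := a ^ 2) (b := b) (by rw [← pow_mul, mul_comm, pow_mul, ha, one_pow]) hb
      h2 ?_ ?_ ?_ ?_ ?_ ?_ ?_
    · rw [e4]; exact h3
    · rw [ei]; exact h4
    · rw [e4']; exact h1
    · rw [ei]; exact k3
    · rw [ei]; exact k4
    · rw [e4', e4]
      have : b * (a * b * a⁻¹) = (b * a) * (b * (a⁻¹ * b * a)) * (b * a)⁻¹ := by group
      rw [this]
      exact cj _ _ _ k1
    · rw [e4', e4]
      have : b⁻¹ * (a * b * a⁻¹) = (b⁻¹ * a * b) * (b⁻¹ * (a⁻¹ * b * a))⁻¹ * (b⁻¹ * a * b)⁻¹ := by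
        group
      rw [this]
      exact cj _ _ _ (by rw [inv_pow, k2, inv_one])

theorem certG1 {T : Type*} [Group T] (hT : ∀ g : T, g ^ 3 = 1 ∨ g ^ 5 = 1) {a b c : T}
    (ha : a ^ 5 = 1) (hb : b ^ 3 = 1) (hc : c ^ 3 = 1) (hbc : b * c = c * b)
    (h1 : (a * b) ^ 3 = 1) (h2 : (a ^ 2 * b) ^ 3 = 1) (h3 : (a * c) ^ 3 = 1)
    (h4 : (a ^ 2 * c) ^ 3 = 1) : a = 1 ∨ c = 1 ∨ c = b ∨ c = b⁻¹ := by
  have ht := okw_sound (gen := gen3 a b c) (G := T) (lf := lfG1) (ws := wsG1) (by decide)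
    (by intro w _; exact hT _) okG1_0 ?_
  · obtain ⟨p, hp, h⟩ := ht
    simp only [lfG1, List.mem_cons, List.not_mem_nil, or_false] at hp
    rcases hp with rfl | rfl | rfl
    · have := h ⊥ (by intro r hr; simp at hr)
      simp only [ev_cons, ev_nil, lv0, mul_one, Subgroup.mem_bot] at this
      exact Or.inl this
    · have := h ⊥ (by intro r hr; simp at hr)
      simp only [ev_cons, ev_nil, lv4, lv3, mul_one, Subgroup.mem_bot] at this
      exact Or.inr (Or.inr (Or.inl (mul_inv_eq_one.mp this)))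
    · have := h ⊥ (by intro r hr; simp at hr)
      simp only [ev_cons, ev_nil, lv4, lv2, mul_one, Subgroup.mem_bot] at this
      exact Or.inr (Or.inr (Or.inr (eq_inv_of_mul_eq_one_left this)))
  · intro r hr
    simp only [rG1_0, List.mem_cons, List.not_mem_nil, or_false] at hr
    rcases hr with rfl | rfl | rfl | rfl | rfl | rfl | rfl | rfl
    · simp only [ev_cons, ev_nil, lv0, lv1, lv2, lv3, lv4, lv5, mul_one]; simpa [pow_succ, mul_assoc] using ha
    · simp only [ev_cons, ev_nil, lv0, lv1, lv2, lv3, lv4, lv5, mul_one]; simpa [pow_succ, mul_assoc] using hb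
    · simp only [ev_cons, ev_nil, lv0, lv1, lv2, lv3, lv4, lv5, mul_one]; simpa [pow_succ, mul_assoc] using hc
    · simp only [ev_cons, ev_nil, lv0, lv1, lv2, lv3, lv4, lv5, mul_one]; rw [hbc]; group
    · simp only [ev_cons, ev_nil, lv0, lv1, lv2, lv3, lv4, lv5, mul_one]; simpa [pow_succ, mul_assoc] using h1
    · simp only [ev_cons, ev_nil, lv0, lv1, lv2, lv3, lv4, lv5, mul_one]; simpa [pow_succ, mul_assoc] using h2
    · simp only [ev_cons, ev_nil, lv0, lv1, lv2, lv3, lv4, lv5, mul_one]; simpa [pow_succ, mul_assoc] using h3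
    · simp only [ev_cons, ev_nil, lv0, lv1, lv2, lv3, lv4, lv5, mul_one]; simpa [pow_succ, mul_assoc] using h4

theorem certG3 {T : Type*} [Group T] {a b c : T}
    (ha : a ^ 5 = 1) (hb : b ^ 3 = 1) (hc : c ^ 3 = 1) (hbc : b * c = c * b)
    (h1 : (a * b) ^ 3 = 1) (h2 : (a ^ 2 * b) ^ 3 = 1)
    (h3 : (a * c) ^ 5 = 1) (h4 : (a ^ 2 * c) ^ 5 = 1) (h5 : (a⁻¹ * c) ^ 5 = 1)
    (h6 : (a⁻¹ ^ 2 * c) ^ 5 = 1)
    (h7 : (c⁻¹ * (a⁻¹ * c * a)) ^ 3 = 1) (h8 : (c * (a⁻¹ * c * a)) ^ 3 = 1)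
    (k1 : (a * (b * c)) ^ 5 = 1) (k2 : (a ^ 2 * (b * c)) ^ 5 = 1)
    (k3 : (a⁻¹ * (b * c)) ^ 5 = 1) (k4 : (a⁻¹ ^ 2 * (b * c)) ^ 5 = 1)
    (l1 : (a * (b * c⁻¹)) ^ 5 = 1) (l2 : (a ^ 2 * (b * c⁻¹)) ^ 5 = 1)
    (l3 : (a⁻¹ * (b * c⁻¹)) ^ 5 = 1) (l4 : (a⁻¹ ^ 2 * (b * c⁻¹)) ^ 5 = 1) : a = 1 := by
  have ht := okw_sound (gen := gen3 a b c) (G := T) (lf := lfG3) (ws := wsG3) (by decide)
    (by intro w hw; simp [wsG3] at hw) okG3_0 ?_
  · obtain ⟨p, hp, h⟩ := ht
    simp only [lfG3, List.mem_cons, List.not_mem_nil, or_false] at hp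
    subst hp
    have := h (Subgroup.centralizer {b}) (by
      intro r hr
      simp only [List.mem_cons, List.not_mem_nil, or_false] at hr
      rcases hr with rfl | rfl
      · simp [ev_cons, lv2, Subgroup.mem_centralizer_iff]
      · simpa [ev_cons, lv4, Subgroup.mem_centralizer_iff] using hbc)
    simp only [ev_cons, ev_nil, lv0, mul_one, Subgroup.mem_centralizer_iff,
      Set.mem_singleton_iff, forall_eq] at this
    have hcc : Commute a b := this.symm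
    have h33 : a ^ 3 = 1 := by rw [hcc.mul_pow, hb, mul_one] at h1; exact h1
    exact one_of_35 h33 ha
  · intro r hr
    simp only [rG3_0, List.mem_cons, List.not_mem_nil, or_false] at hr
    rcases hr with rfl | rfl | rfl | rfl | rfl | rfl | rfl | rfl | rfl | rfl | rfl | rfl | rfl |
      rfl | rfl | rfl | rfl | rfl | rfl | rfl
    · simp only [ev_cons, ev_nil, lv0, lv1, lv2, lv3, lv4, lv5, mul_one]; simpa [pow_succ, mul_assoc] using ha
    · simp only [ev_cons, ev_nil, lv0, lv1, lv2, lv3, lv4, lv5, mul_one]; simpa [pow_succ, mul_assoc] using hb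
    · simp only [ev_cons, ev_nil, lv0, lv1, lv2, lv3, lv4, lv5, mul_one]; simpa [pow_succ, mul_assoc] using hc
    · simp only [ev_cons, ev_nil, lv0, lv1, lv2, lv3, lv4, lv5, mul_one]; rw [hbc]; group
    · simp only [ev_cons, ev_nil, lv0, lv1, lv2, lv3, lv4, lv5, mul_one]; simpa [pow_succ, mul_assoc] using h1
    · simp only [ev_cons, ev_nil, lv0, lv1, lv2, lv3, lv4, lv5, mul_one]; simpa [pow_succ, mul_assoc] using h2
    · simp only [ev_cons, ev_nil, lv0, lv1, lv2, lv3, lv4, lv5, mul_one]; simpa [pow_succ, mul_assoc] using h3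
    · simp only [ev_cons, ev_nil, lv0, lv1, lv2, lv3, lv4, lv5, mul_one]; simpa [pow_succ, mul_assoc] using h4
    · simp only [ev_cons, ev_nil, lv0, lv1, lv2, lv3, lv4, lv5, mul_one]; simpa [pow_succ, mul_assoc] using h5
    · simp only [ev_cons, ev_nil, lv0, lv1, lv2, lv3, lv4, lv5, mul_one]; simpa [pow_succ, mul_assoc] using h6
    · simp only [ev_cons, ev_nil, lv0, lv1, lv2, lv3, lv4, lv5, mul_one]; simpa [pow_succ, mul_assoc] using h7
    · simp only [ev_cons, ev_nil, lv0, lv1, lv2, lv3, lv4, lv5, mul_one]; simpa [pow_succ, mul_assoc] using h8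
    · simp only [ev_cons, ev_nil, lv0, lv1, lv2, lv3, lv4, lv5, mul_one]; simpa [pow_succ, mul_assoc] using k1
    · simp only [ev_cons, ev_nil, lv0, lv1, lv2, lv3, lv4, lv5, mul_one]; simpa [pow_succ, mul_assoc] using k2
    · simp only [ev_cons, ev_nil, lv0, lv1, lv2, lv3, lv4, lv5, mul_one]; simpa [pow_succ, mul_assoc] using k3
    · simp only [ev_cons, ev_nil, lv0, lv1, lv2, lv3, lv4, lv5, mul_one]; simpa [pow_succ, mul_assoc] using k4
    · simp only [ev_cons, ev_nil, lv0, lv1, lv2, lv3, lv4, lv5, mul_one]; simpa [pow_succ, mul_assoc] using l1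
    · simp only [ev_cons, ev_nil, lv0, lv1, lv2, lv3, lv4, lv5, mul_one]; simpa [pow_succ, mul_assoc] using l2
    · simp only [ev_cons, ev_nil, lv0, lv1, lv2, lv3, lv4, lv5, mul_one]; simpa [pow_succ, mul_assoc] using l3
    · simp only [ev_cons, ev_nil, lv0, lv1, lv2, lv3, lv4, lv5, mul_one]; simpa [pow_succ, mul_assoc] using l4

/-- the commutator is central in a 2-generator group of exponent 3 -/
theorem certK {T : Type*} [Group T] {a b : T} (ha : a ^ 3 = 1) (hb : b ^ 3 = 1)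
    (h1 : (a * b) ^ 3 = 1) (h2 : (a⁻¹ * b) ^ 3 = 1) :
    a * (a⁻¹ * b⁻¹ * a * b) = (a⁻¹ * b⁻¹ * a * b) * a ∧ (a⁻¹ * b⁻¹ * a * b) ^ 3 = 1 := by
  have hr : ∀ r ∈ rK, ev (gen3 a b b) r = 1 := by
    intro r hr
    simp only [rK, List.mem_cons, List.not_mem_nil, or_false] at hr
    rcases hr with rfl | rfl | rfl | rfl
    · simp only [ev_cons, ev_nil, lv0, lv1, lv2, lv3, lv4, lv5, mul_one]; simpa [pow_succ, mul_assoc] using ha
    · simp only [ev_cons, ev_nil, lv0, lv1, lv2, lv3, lv4, lv5, mul_one]; simpa [pow_succ, mul_assoc] using hb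
    · simp only [ev_cons, ev_nil, lv0, lv1, lv2, lv3, lv4, lv5, mul_one]; simpa [pow_succ, mul_assoc] using h1
    · simp only [ev_cons, ev_nil, lv0, lv1, lv2, lv3, lv4, lv5, mul_one]; simpa [pow_succ, mul_assoc] using h2
  have e1 := checkS_sound (gen := gen3 a b b) chkK1 (by decide) hr ⊥ (by intro r hr; simp at hr)
  have e2 := checkS_sound (gen := gen3 a b b) chkK2 (by decide) hr ⊥ (by intro r hr; simp at hr)
  simp only [ev_cons, ev_nil, lv0, lv1, lv2, lv3, mul_one, Subgroup.mem_bot] at e1 e2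
  constructor
  · have : a * (a⁻¹ * b⁻¹ * a * b) * (a⁻¹ * (b⁻¹ * (a⁻¹ * (b * a)))) = 1 := by
      simpa [mul_assoc] using e1
    rw [mul_eq_one_iff_eq_inv] at this
    rw [this]; group
  · simpa [pow_succ, mul_assoc] using e2

end

end H446.EY
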