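import Mathlib
import Pool.Agent.H446R9.EY.CertLem

set_option autoImplicit false

/-!
Type A and type B pairs (tasks PW, HD); uses `certA`, `certD`, `certH`.
-/

namespace H446.EY

open Finset

universe u

/-- PW: type A pairs -/
theorem typeA_pow {T : Type*} [Group T] (hT : ∀ g : T, g ^ 3 = 1 ∨ g ^ 5 = 1) {a b : T}
    (ha : a ^ 5 = 1) (hb : b ^ 3 = 1) (hab : (a * b) ^ 3 = 1) (k : ℤ) : (a ^ k * b) ^ 3 = 1 := by
  have h2 : (a ^ 2 * b) ^ 3 = 1 := certA hT ha hb hab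
  have ha2 : (a ^ 2) ^ 5 = 1 := by rw [← pow_mul, mul_comm, pow_mul, ha, one_pow]
  have h4 : (a ^ 4 * b) ^ 3 = 1 := by
    have h := certA hT ha2 hb h2
    rwa [← pow_mul] at h
  have ha4 : (a ^ 4) ^ 5 = 1 := by rw [← pow_mul, mul_comm, pow_mul, ha, one_pow]
  have h3 : (a ^ 3 * b) ^ 3 = 1 := by
    have h := certA hT ha4 hb h4
    have e : (a ^ 4) ^ 2 = a ^ 3 := by
      rw [← pow_mul]
      calc a ^ (4 * 2) = a ^ 5 * a ^ 3 := by rw [← pow_add]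
        _ = a ^ 3 := by rw [ha, one_mul]
    rwa [e] at h
  have hk : a ^ k = a ^ (k % 5).toNat := by
    have h5 : 0 ≤ k % 5 := Int.emod_nonneg _ (by norm_num)
    have h6 : k = 5 * (k / 5) + ((k % 5).toNat : ℤ) := by
      rw [Int.toNat_of_nonneg h5]
      exact (Int.mul_ediv_add_emod k 5).symm
    conv_lhs => rw [h6]
    rw [zpow_add, zpow_mul, zpow_natCast]
    have h7 : a ^ (5 : ℤ) = 1 := by exact_mod_cast ha
    rw [h7, one_zpow, one_mul]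
  rw [hk]
  have h8 : (k % 5).toNat < 5 := by omega
  interval_cases h : (k % 5).toNat
  · rw [pow_zero, one_mul, hb]
  · rw [pow_one, hab]
  · exact h2
  · exact h3
  · exact h4

/-- PW: type B pairs -/
theorem typeB_pow {T : Type*} [Group T] (hT : ∀ g : T, g ^ 3 = 1 ∨ g ^ 5 = 1) {a b : T}
    (ha : a ^ 5 = 1) (hb : b ^ 3 = 1) (hab : (a * b) ^ 5 = 1) (k : ℤ) (hk : ¬ (5 : ℤ) ∣ k) :
    (a ^ k * b) ^ 5 = 1 := by
  rcases hT (a ^ k * b) with h3 | h5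
  · have hak : (a ^ k) ^ 5 = 1 := by
      rw [← zpow_natCast, ← zpow_mul, mul_comm, zpow_mul, zpow_natCast, ha, one_zpow]
    -- an inverse of `k` modulo 5
    have hinv : ∃ k' q : ℤ, k * k' = 5 * q + 1 := by
      have h1 : k % 5 = 1 ∨ k % 5 = 2 ∨ k % 5 = 3 ∨ k % 5 = 4 := by omega
      rcases h1 with h1 | h1 | h1 | h1
      · exact ⟨1, k / 5, by omega⟩
      · exact ⟨3, (3 * k) / 5, by omega⟩
      · exact ⟨2, (2 * k) / 5, by omega⟩
      · exact ⟨4, (4 * k) / 5, by omega⟩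
    obtain ⟨k', q, hkk⟩ := hinv
    have h4 := typeA_pow hT hak hb h3 k'
    have h5 : (a ^ k) ^ k' = a := by
      rw [← zpow_mul, hkk, zpow_add, zpow_mul, zpow_one]
      have h7 : a ^ (5 : ℤ) = 1 := by exact_mod_cast ha
      rw [h7, one_zpow, one_mul]
    rw [h5] at h4
    have h6 : a * b = 1 := by
      calc a * b = ((a * b) ^ 3) ^ 2 * ((a * b) ^ 5)⁻¹ := by
            rw [← pow_mul, ← zpow_natCast, ← zpow_natCast, ← zpow_neg, ← zpow_add]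
            norm_num
        _ = 1 := by rw [h4, hab]; simp
    have h7 : a = b⁻¹ := eq_inv_of_mul_eq_one_left h6
    have h8 : a ^ 3 = 1 := by rw [h7, inv_pow, hb, inv_one]
    have h9 : a = 1 := by
      calc a = (a ^ 3) ^ 2 * (a ^ 5)⁻¹ := by
            rw [← pow_mul, ← zpow_natCast, ← zpow_natCast, ← zpow_neg, ← zpow_add]
            norm_num
        _ = 1 := by rw [h8, ha]; simp
    have h10 : b = 1 := by
      rw [h9, one_mul] at h6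
      exact h6
    rw [h9, h10]
    simp
  · exact h5

/-- HD -/
theorem typeB_conj {T : Type*} [Group T] (hT : ∀ g : T, g ^ 3 = 1 ∨ g ^ 5 = 1) {u s : T}
    (hu : u ^ 5 = 1) (hs : s ^ 3 = 1) (hs1 : s ≠ 1) (hus : (u * s) ^ 5 = 1) :
    ∃ k : ℕ, (k = 1 ∨ k = 2) ∧ (s * (u⁻¹ ^ k * s * u ^ k)) ^ 3 = 1 ∧
      (s⁻¹ * (u⁻¹ ^ k * s * u ^ k)) ^ 3 = 1 := by
  by_contra hcon
  push Not at hcon
  have ht3 : ∀ k : ℕ, (u⁻¹ ^ k * s * u ^ k) ^ 3 = 1 := by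
    intro k
    have h1 : u⁻¹ ^ k * s * u ^ k = (u ^ k)⁻¹ * s * ((u ^ k)⁻¹)⁻¹ := by
      rw [inv_pow, inv_inv]
    rw [h1, conj_pow, hs, mul_one, mul_inv_cancel]
  have hsinv : (s⁻¹) ^ 3 = 1 := by rw [inv_pow, hs, inv_one]
  have key : ∀ k : ℕ, (k = 1 ∨ k = 2) →
      ((s * (u⁻¹ ^ k * s * u ^ k)) ^ 3 = 1 ∧ (s⁻¹ * (u⁻¹ ^ k * s * u ^ k)) ^ 5 = 1) ∨
      ((s * (u⁻¹ ^ k * s * u ^ k)) ^ 5 = 1 ∧ (s⁻¹ * (u⁻¹ ^ k * s * u ^ k)) ^ 3 = 1) := by
    intro k hk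
    rcases hT (s * (u⁻¹ ^ k * s * u ^ k)) with h1 | h1
    · rcases hT (s⁻¹ * (u⁻¹ ^ k * s * u ^ k)) with h2 | h2
      · exact absurd h2 (hcon k hk h1)
      · exact Or.inl ⟨h1, h2⟩
    · rcases hT (s⁻¹ * (u⁻¹ ^ k * s * u ^ k)) with h2 | h2
      · exact Or.inr ⟨h1, h2⟩
      · exact absurd (certD hT hs (ht3 k) h1 h2).1 hs1
  have hk1 := key 1 (Or.inl rfl)
  have hk2 := key 2 (Or.inr rfl)
  rw [pow_one, pow_one] at hk1
  have e1 : (u ^ 2 * s) ^ 5 = 1 := by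
    have h := typeB_pow hT hu hs hus 2 (by norm_num)
    rwa [zpow_ofNat] at h
  have e2 : (u⁻¹ * s) ^ 5 = 1 := by
    have h := typeB_pow hT hu hs hus (-1) (by norm_num)
    rwa [zpow_neg_one] at h
  have e3 : (u⁻¹ ^ 2 * s) ^ 5 = 1 := by
    have h := typeB_pow hT hu hs hus (-2) (by norm_num)
    rwa [zpow_neg, zpow_ofNat, ← inv_pow] at h
  exact hs1 (certH hT hu hs hus e1 e2 e3 hk1 hk2)

end H446.EY
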