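import Mathlib
import Pool.Agent.H446R9.EY.CertLem
import Pool.Agent.H446R9.EY.Pairs

set_option autoImplicit false

/-!
Project EY, task YGP: elements commuting with an element of type A.
-/

namespace H446.EY

/-- powers of a pair of type B -/
private theorem ygp_B {T : Type*} [Group T] (hT : ∀ g : T, g ^ 3 = 1 ∨ g ^ 5 = 1) {x c : T}
    (hx : x ^ 5 = 1) (hc : c ^ 3 = 1) (hxc : (x * c) ^ 5 = 1) {k : ℕ} (hk : k = 1 ∨ k = 2) :
    (x ^ k * c) ^ 5 = 1 ∧ ((x ^ k) ^ 2 * c) ^ 5 = 1 ∧ ((x ^ k)⁻¹ * c) ^ 5 = 1 ∧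
      ((x ^ k)⁻¹ ^ 2 * c) ^ 5 = 1 := by
  have h := fun (j : ℤ) (hj : ¬ (5 : ℤ) ∣ j) => typeB_pow hT hx hc hxc j hj
  have e1 : x ^ k = x ^ (k : ℤ) := (zpow_natCast x k).symm
  have e2 : (x ^ k) ^ 2 = x ^ (2 * (k : ℤ)) := by
    rw [e1, ← zpow_natCast, ← zpow_mul]
    congr 1
    push_cast
    ring
  have e3 : (x ^ k)⁻¹ = x ^ (-(k : ℤ)) := by rw [e1, zpow_neg]
  have e4 : (x ^ k)⁻¹ ^ 2 = x ^ (-(2 * (k : ℤ))) := by
    rw [inv_pow, e2, zpow_neg]
  refine ⟨?_, ?_, ?_, ?_⟩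
  · rw [e1]
    exact h _ (by rcases hk with rfl | rfl <;> norm_num)
  · rw [e2]
    exact h _ (by rcases hk with rfl | rfl <;> norm_num)
  · rw [e3]
    exact h _ (by rcases hk with rfl | rfl <;> norm_num)
  · rw [e4]
    exact h _ (by rcases hk with rfl | rfl <;> norm_num)

/-- powers of a pair of type A -/
private theorem ygp_A {T : Type*} [Group T] (hT : ∀ g : T, g ^ 3 = 1 ∨ g ^ 5 = 1) {x c : T}
    (hx : x ^ 5 = 1) (hc : c ^ 3 = 1) (hxc : (x * c) ^ 3 = 1) (k : ℕ) :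
    (x ^ k * c) ^ 3 = 1 ∧ ((x ^ k) ^ 2 * c) ^ 3 = 1 := by
  have h := fun (j : ℤ) => typeA_pow hT hx hc hxc j
  have e1 : x ^ k = x ^ (k : ℤ) := (zpow_natCast x k).symm
  have e2 : (x ^ k) ^ 2 = x ^ (2 * (k : ℤ)) := by
    rw [e1, ← zpow_natCast, ← zpow_mul]
    congr 1
    push_cast
    ring
  refine ⟨?_, ?_⟩
  · rw [e1]
    exact h _
  · rw [e2]
    exact h _

private theorem ygp_cube {T : Type*} [Group T] {s : T} (hs : s ^ 3 = 1) : s⁻¹ * s⁻¹ = s := by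
  have h : s * s * s = 1 := by rw [← hs, pow_three']
  calc s⁻¹ * s⁻¹ = s⁻¹ * s⁻¹ * (s * s * s) := by rw [h, mul_one]
    _ = s := by group

/-- GP -/
theorem typeA_comm {T : Type*} [Group T] (hT : ∀ g : T, g ^ 3 = 1 ∨ g ^ 5 = 1) {x s t : T}
    (hx : x ^ 5 = 1) (hx1 : x ≠ 1) (hs : s ^ 3 = 1) (hxs : (x * s) ^ 3 = 1) (ht : t ^ 3 = 1)
    (hst : t * s = s * t) : t = 1 ∨ t = s ∨ t = s⁻¹ := by
  have hcomm : Commute s t := hst.symm
  have hss := ygp_cube hs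
  have hss' : s * s = s⁻¹ := by
    have h := ygp_cube (s := s⁻¹) (by rw [inv_pow, hs, inv_one])
    rwa [inv_inv] at h
  -- type A for one of the three elements
  have hA : ∀ c : T, c ^ 3 = 1 → s * c = c * s → (x * c) ^ 3 = 1 → c = 1 ∨ c = s ∨ c = s⁻¹ := by
    intro c hc hsc hxc
    have h1 := (ygp_A hT hx hs hxs 1).2
    have h2 := (ygp_A hT hx hc hxc 1).2
    rw [pow_one] at h1 h2
    exact (certG1 hT hx hs hc hsc hxs h1 hxc h2).resolve_left hx1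
  have hst3 : (s * t) ^ 3 = 1 := by rw [hcomm.mul_pow, hs, ht, one_mul]
  have hst3' : (s * t⁻¹) ^ 3 = 1 := by
    rw [hcomm.inv_right.mul_pow, hs, inv_pow, ht, inv_one, one_mul]
  rcases hT (x * t) with h1 | h1
  · exact hA t ht hst.symm h1
  rcases hT (x * (s * t)) with h2 | h2
  · rcases hA (s * t) hst3 (by rw [mul_assoc, hst]) h2 with h3 | h3 | h3
    · right; right
      exact (eq_inv_of_mul_eq_one_right h3)
    · left
      exact mul_eq_left.1 h3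
    · right; left
      calc t = s⁻¹ * (s * t) := by group
        _ = s⁻¹ * s⁻¹ := by rw [h3]
        _ = s := hss
  rcases hT (x * (s * t⁻¹)) with h3 | h3
  · have hc' : s * (s * t⁻¹) = s * t⁻¹ * s := by
      rw [mul_assoc, hcomm.inv_right.eq]
    rcases hA (s * t⁻¹) hst3' hc' h3 with h4 | h4 | h4
    · right; left
      exact (mul_inv_eq_one.1 h4).symm
    · left
      exact inv_eq_one.1 (mul_eq_left.1 h4)
    · right; right
      have h5 : t⁻¹ = s := by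
        calc t⁻¹ = s⁻¹ * (s * t⁻¹) := by group
          _ = s⁻¹ * s⁻¹ := by rw [h4]
          _ = s := hss
      rw [← h5, inv_inv]
  -- all of type B
  by_cases ht1 : t = 1
  · exact Or.inl ht1
  exfalso
  obtain ⟨k, hk, h7, h8⟩ := typeB_conj hT hx ht ht1 h1
  have hsA := ygp_A hT hx hs hxs k
  have hB1 := ygp_B hT hx ht h1 hk
  have hB2 := ygp_B hT hx hst3 h2 hk
  have hB3 := ygp_B hT hx hst3' h3 hk
  rw [inv_pow] at h7 h8
  have hak : (x ^ k) ^ 5 = 1 := by rw [← pow_mul, mul_comm, pow_mul, hx, one_pow]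
  have ha := certG3 hak hs ht hst.symm hsA.1 hsA.2 hB1.1 hB1.2.1 hB1.2.2.1 hB1.2.2.2 h8 h7
    hB2.1 hB2.2.1 hB2.2.2.1 hB2.2.2.2 hB3.1 hB3.2.1 hB3.2.2.1 hB3.2.2.2
  apply hx1
  rcases hk with rfl | rfl
  · rwa [pow_one] at ha
  · calc x = x ^ 5 * (x ^ 2)⁻¹ * (x ^ 2)⁻¹ := by group
      _ = 1 := by rw [hx, ha]; group

/-- GG -/
theorem typeA_three {T : Type*} [Group T] (hT : ∀ g : T, g ^ 3 = 1 ∨ g ^ 5 = 1) {x s t : T}
    (hx : x ^ 5 = 1) (hx1 : x ≠ 1) (hs : s ^ 3 = 1) (hxs : (x * s) ^ 3 = 1) (ht : t ^ 3 = 1)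
    (h1 : (s * t) ^ 3 = 1) (h2 : (s⁻¹ * t) ^ 3 = 1) : t = 1 ∨ t = s ∨ t = s⁻¹ := by
  have hs1 : s ≠ 1 := by
    intro h
    rw [h, mul_one] at hxs
    apply hx1
    calc x = (x ^ 3) ^ 2 * (x ^ 5)⁻¹ := by group
      _ = 1 := by rw [hx, hxs]; group
  obtain ⟨hz, hz3⟩ := certK hs ht h1 h2
  rcases typeA_comm hT hx hx1 hs hxs hz3 hz.symm with h | h | h
  · refine typeA_comm hT hx hx1 hs hxs ht ?_
    calc t * s = t * s * (s⁻¹ * t⁻¹ * s * t) := by rw [h, mul_one]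
      _ = s * t := by group
  · exfalso
    -- `t⁻¹ s t = s⁻¹`
    have e1 : t⁻¹ * s * t = s⁻¹ := by
      calc t⁻¹ * s * t = s * (s⁻¹ * t⁻¹ * s * t) := by group
        _ = s * s := by rw [h]
        _ = s⁻¹ := by
          have h' := ygp_cube (s := s⁻¹) (by rw [inv_pow, hs, inv_one])
          rwa [inv_inv] at h'
    have e2 : t⁻¹ * s⁻¹ * t = s := by
      calc t⁻¹ * s⁻¹ * t = (t⁻¹ * s * t)⁻¹ := by group
        _ = s := by rw [e1, inv_inv]
    have e3 : s = s⁻¹ := by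
      calc s = (t ^ 3)⁻¹ * s * t ^ 3 := by rw [ht]; group
        _ = (t * t * t)⁻¹ * s * (t * t * t) := by rw [pow_three']
        _ = t⁻¹ * (t⁻¹ * (t⁻¹ * s * t) * t) * t := by
          rw [mul_inv_rev, mul_inv_rev]
          simp only [mul_assoc]
        _ = s⁻¹ := by rw [e1, e2, e1]
    apply hs1
    have e4 : s * s = 1 := by
      nth_rewrite 2 [e3]
      exact mul_inv_cancel s
    calc s = s ^ 3 * (s * s)⁻¹ := by group
      _ = 1 := by rw [hs, e4]; group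
  · exfalso
    have e1 : t⁻¹ * s * t = 1 := by
      calc t⁻¹ * s * t = s * (s⁻¹ * t⁻¹ * s * t) := by group
        _ = 1 := by rw [h, mul_inv_cancel]
    apply hs1
    calc s = t * (t⁻¹ * s * t) * t⁻¹ := by group
      _ = 1 := by rw [e1]; group

end H446.EY
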