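import Mathlib
import Pool.Agent.H446R9.EY.CertLem

set_option autoImplicit false

/-!
CL: closure, from `certI`, `certII`.
-/

namespace H446.EY

lemma clo_one {G : Type*} [Group G]
    (hG : ∀ a b : G, a ^ 5 = 1 → b ^ 5 = 1 → (a * b) ^ 3 = 1 ∨ (a * b) ^ 5 = 1)
    {x y : G} (hx : x ^ 5 = 1) (hy : y ^ 5 = 1) :
    ∃ j : ℕ, (j = 1 ∨ j = 2 ∨ j = 3 ∨ j = 4) ∧ (x * y ^ j) ^ 5 = 1 := by
  have hyj : ∀ j : ℕ, (y ^ j) ^ 5 = 1 := fun j => by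
    rw [← pow_mul, mul_comm, pow_mul, hy, one_pow]
  by_contra hcon
  have h3 : ∀ j : ℕ, (j = 1 ∨ j = 2 ∨ j = 3 ∨ j = 4) → (x * y ^ j) ^ 3 = 1 := by
    intro j hj
    rcases hG x (y ^ j) hx (hyj j) with h | h
    · exact h
    · exact absurd ⟨j, hj, h⟩ hcon
  have h1 := h3 1 (by omega)
  rw [pow_one] at h1
  obtain ⟨hx1, hy1⟩ := certII hx hy h1 (h3 2 (by omega)) (h3 3 (by omega)) (h3 4 (by omega))
  exact hcon ⟨1, by omega, by rw [hx1, hy1]; simp⟩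

lemma clo_two {G : Type*} [Group G]
    (hG : ∀ a b : G, a ^ 5 = 1 → b ^ 5 = 1 → (a * b) ^ 3 = 1 ∨ (a * b) ^ 5 = 1)
    {y s : G} (hy : y ^ 5 = 1) (hs : s ^ 3 = 1) (hys : (y * s) ^ 5 = 1) (j : ℕ)
    (hj : j = 1 ∨ j = 2 ∨ j = 3 ∨ j = 4) : (y ^ j * s) ^ 5 = 1 := by
  have hyj : ∀ j : ℕ, (y ^ j) ^ 5 = 1 := fun j => by
    rw [← pow_mul, mul_comm, pow_mul, hy, one_pow]
  have h2 : (y ^ 2 * s) ^ 5 = 1 := certI hG hy hs hys
  have h4 : (y ^ 4 * s) ^ 5 = 1 := by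
    have := certI hG (hyj 2) hs h2
    rwa [← pow_mul] at this
  have h3 : (y ^ 3 * s) ^ 5 = 1 := by
    have := certI hG (hyj 4) hs h4
    rw [← pow_mul] at this
    have e : y ^ (4 * 2) = y ^ 3 := by
      rw [show 4 * 2 = 5 + 3 by norm_num, pow_add, hy, one_mul]
    rwa [e] at this
  rcases hj with rfl | rfl | rfl | rfl
  · rwa [pow_one]
  · exact h2
  · exact h3
  · exact h4

lemma clo_mul {G : Type*} [Group G]
    (hG : ∀ a b : G, a ^ 5 = 1 → b ^ 5 = 1 → (a * b) ^ 3 = 1 ∨ (a * b) ^ 5 = 1)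
    {x m : G} (hx : x ^ 5 = 1) (hm : ∃ a b : G, a ^ 5 = 1 ∧ b ^ 5 = 1 ∧ m = a * b) :
    ∃ a b : G, a ^ 5 = 1 ∧ b ^ 5 = 1 ∧ x * m = a * b := by
  obtain ⟨a, b, ha, hb, rfl⟩ := hm
  rcases hG a b ha hb with h | h
  · obtain ⟨j, hj, hxj⟩ := clo_one hG hx ha
    have hai : (a⁻¹) ^ 5 = 1 := by rw [inv_pow, ha, inv_one]
    have h2 := clo_two hG (y := a⁻¹) (s := a * b) hai h (by rw [inv_mul_cancel_left]; exact hb) j hj
    refine ⟨x * a ^ j, a⁻¹ ^ j * (a * b), hxj, h2, ?_⟩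
    rw [inv_pow, mul_assoc, mul_inv_cancel_left]
  · exact ⟨x, a * b, hx, h, rfl⟩

/-- CL: closure, from `certI`, `certII` -/
theorem closure53 {G : Type*} [Group G]
    (hG : ∀ a b : G, a ^ 5 = 1 → b ^ 5 = 1 → (a * b) ^ 3 = 1 ∨ (a * b) ^ 5 = 1) :
    ∀ g ∈ Subgroup.closure {x : G | x ^ 5 = 1}, ∃ a b : G, a ^ 5 = 1 ∧ b ^ 5 = 1 ∧ g = a * b := by
  intro g hg
  induction hg using Subgroup.closure_induction_left with
  | one => exact ⟨1, 1, by simp, by simp, by simp⟩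
  | mul_left x hx y _ ih => exact clo_mul hG hx ih
  | inv_mul_cancel x hx y _ ih =>
    have hx' : x ^ 5 = 1 := hx
    exact clo_mul hG (by rw [inv_pow, hx', inv_one]) ih

end H446.EY
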