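import Mathlib

set_option autoImplicit false

namespace H446.EY

open Finset

/-- the component of weight `l` of `u` (`comp x u l * x = x ^ l * comp x u l`) -/
def comp {R : Type*} [Ring R] (x u : R) (l : ℕ) : R :=
  -∑ a ∈ range 5, x ^ ((5 - l) * a) * u * x ^ a

private theorem pow_five {R : Type*} [Ring R] {x : R} (hx : ∑ k ∈ range 5, x ^ k = 0) :
    x ^ 5 = 1 := by
  have h := geom_sum_mul x 5
  rw [hx, zero_mul] at h
  exact (sub_eq_zero.mp h.symm)

private theorem pow_red {R : Type*} [Ring R] {x : R} (h5 : x ^ 5 = 1) (n : ℕ) :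
    x ^ (n + 5) = x ^ n := by
  rw [pow_add, h5, mul_one]

/-- RA1 -/
theorem comp_mul {R : Type*} [Ring R] {x : R} (hx : ∑ k ∈ range 5, x ^ k = 0) (u : R) {l : ℕ}
    (hl : l ≤ 5) : comp x u l * x = x ^ l * comp x u l := by
  have h5 := pow_five hx
  obtain ⟨m, hm⟩ : ∃ m, l + m = 5 := ⟨5 - l, by omega⟩
  have hm' : 5 - l = m := by omega
  have e0 : x ^ l * x ^ m = 1 := by rw [← pow_add, hm, h5]
  have e1 : ∀ k : ℕ, x ^ l * x ^ (m * (k + 1)) = x ^ (m * k) := by
    intro k
    rw [mul_add, mul_one, add_comm, pow_add, ← mul_assoc, e0, one_mul]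
  have e4 : x ^ (m * 4) = x ^ l := by
    calc x ^ (m * 4) = x ^ (m * 4) * x ^ (m + l) := by
          rw [show m + l = 5 by omega, h5, mul_one]
      _ = x ^ (5 * m) * x ^ l := by
          rw [← pow_add, ← pow_add]; congr 1; ring
      _ = x ^ l := by rw [pow_mul, h5, one_pow, one_mul]
  have f1 := e1 0
  have f2 := e1 1
  have f3 := e1 2
  have f4 := e1 3
  simp only [zero_add, Nat.reduceAdd, mul_zero, pow_zero] at f1 f2 f3 f4
  have g1 : ∀ (n : ℕ) (w : R), x ^ l * (x ^ (m * (n + 1)) * w) = x ^ (m * n) * w := by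
    intro n w
    rw [← mul_assoc, e1 n]
  unfold comp
  rw [hm']
  simp only [sum_range_succ, range_zero, sum_empty, zero_add, mul_zero, pow_zero, one_mul,
    mul_one, pow_one, neg_mul, mul_neg, add_mul, mul_add]
  congr 1
  have t1 : x ^ m * u * x * x = x ^ l * (x ^ (m * 2) * u * x ^ 2) := by
    rw [← mul_assoc, ← mul_assoc, f2, mul_one, pow_two]
    simp only [mul_assoc]
  have t0 : u * x = x ^ l * (x ^ m * u * x) := by
    rw [← mul_assoc, ← mul_assoc, e0, one_mul]
  have t2 : x ^ (m * 2) * u * x ^ 2 * x = x ^ l * (x ^ (m * 3) * u * x ^ 3) := by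
    rw [← mul_assoc, ← mul_assoc, f3, pow_succ x 2]
    simp only [mul_assoc]
  have t3 : x ^ (m * 3) * u * x ^ 3 * x = x ^ l * (x ^ (m * 4) * u * x ^ 4) := by
    rw [← mul_assoc, ← mul_assoc, f4, pow_succ x 3]
    simp only [mul_assoc]
  have t4 : x ^ (m * 4) * u * x ^ 4 * x = x ^ l * u := by
    rw [mul_assoc, ← pow_succ, h5, mul_one, e4]
  rw [t1, t2, t3, t4, t0]
  abel

private theorem sum_pow {R : Type*} [Ring R] {x : R} (hx : ∑ k ∈ range 5, x ^ k = 0) (c : ℕ) :
    ∑ a ∈ range 5, x ^ (c * a) = if c % 5 = 0 then 5 else 0 := by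
  have h5 := pow_five hx
  have hc : ∀ a, x ^ (c * a) = x ^ ((c % 5) * a) := by
    intro a
    conv_lhs => rw [← Nat.div_add_mod c 5]
    rw [add_mul, pow_add, mul_assoc, pow_mul, h5, one_pow, one_mul]
  simp_rw [hc]
  have hlt : c % 5 < 5 := Nat.mod_lt _ (by norm_num)
  generalize c % 5 = d at hlt
  have hx' := hx
  simp only [sum_range_succ, range_zero, sum_empty, zero_add, pow_zero, pow_one] at hx'
  have r6 := pow_red h5 1
  have r8 := pow_red h5 3
  have r9 := pow_red h5 4
  have r12 : x ^ 12 = x ^ 2 := by rw [show 12 = 7 + 5 from rfl, pow_red h5, show 7 = 2 + 5 from rfl, pow_red h5]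
  have r16 : x ^ 16 = x := by
    rw [show 16 = 11 + 5 from rfl, pow_red h5, show 11 = 6 + 5 from rfl, pow_red h5,
      show 6 = 1 + 5 from rfl, pow_red h5, pow_one]
  simp only [Nat.reduceAdd, pow_one] at r6 r8 r9
  interval_cases d
  · simp
  · simp only [sum_range_succ, range_zero, sum_empty, zero_add, mul_zero, pow_zero, Nat.reduceMul,
      pow_one, one_mul, one_ne_zero, if_false]
    rw [← hx']
  · simp only [sum_range_succ, range_zero, sum_empty, zero_add, mul_zero, pow_zero, Nat.reduceMul,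
      pow_one, mul_one, OfNat.ofNat_ne_zero, if_false, r6, r8]
    rw [← hx']; abel
  · simp only [sum_range_succ, range_zero, sum_empty, zero_add, mul_zero, pow_zero, Nat.reduceMul,
      pow_one, mul_one, OfNat.ofNat_ne_zero, if_false, r6, r9, r12]
    rw [← hx']; abel
  · simp only [sum_range_succ, range_zero, sum_empty, zero_add, mul_zero, pow_zero, Nat.reduceMul,
      pow_one, mul_one, OfNat.ofNat_ne_zero, if_false, r8, r12, r16]
    rw [← hx']; abel

/-- RA2 -/
theorem comp_sum {R : Type*} [Ring R] (h3 : (3 : R) = 0) {x : R}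
    (hx : ∑ k ∈ range 5, x ^ k = 0) (u : R) :
    comp x u 1 + comp x u 2 + comp x u 4 + comp x u 3 = u := by
  have h5 := pow_five hx
  have hx' := hx
  simp only [sum_range_succ, range_zero, sum_empty, zero_add, pow_zero, pow_one] at hx'
  have r6 := pow_red h5 1
  have r8 := pow_red h5 3
  have r9 := pow_red h5 4
  have r12 : x ^ 12 = x ^ 2 := by rw [show 12 = 7 + 5 from rfl, pow_red h5, show 7 = 2 + 5 from rfl, pow_red h5]
  have r16 : x ^ 16 = x := by
    rw [show 16 = 11 + 5 from rfl, pow_red h5, show 11 = 6 + 5 from rfl, pow_red h5,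
      show 6 = 1 + 5 from rfl, pow_red h5, pow_one]
  simp only [Nat.reduceAdd, pow_one] at r6 r8 r9
  have hS : x + x ^ 2 + x ^ 3 + x ^ 4 = -1 := by
    rw [eq_neg_iff_add_eq_zero, ← hx']; abel
  have key : comp x u 1 + comp x u 2 + comp x u 4 + comp x u 3 =
      -((u + u + u + u) + (x + x ^ 2 + x ^ 3 + x ^ 4) * u * x
        + (x + x ^ 2 + x ^ 3 + x ^ 4) * u * x ^ 2
        + (x + x ^ 2 + x ^ 3 + x ^ 4) * u * x ^ 3
        + (x + x ^ 2 + x ^ 3 + x ^ 4) * u * x ^ 4) := by
    unfold comp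
    simp only [sum_range_succ, range_zero, sum_empty, zero_add, mul_zero, pow_zero, Nat.reduceMul,
      Nat.reduceSub, pow_one, mul_one, one_mul, r6, r8, r9, r12, r16, add_mul]
    abel
  rw [key, hS]
  have k2 : -((u + u + u + u) + (-1) * u * x + (-1) * u * x ^ 2 + (-1) * u * x ^ 3
      + (-1) * u * x ^ 4) = -(u + u + u + u) + u * (x + x ^ 2 + x ^ 3 + x ^ 4) := by
    simp only [mul_add, neg_mul, one_mul]
    abel
  rw [k2, hS]
  have k3 : -(u + u + u + u) + u * (-1) = u - (3 : R) * (u + u) := by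
    have : (3 : R) = 1 + 1 + 1 := by norm_num
    rw [this]
    simp only [add_mul, one_mul, mul_neg, mul_one]
    abel
  rw [k3, h3, zero_mul, sub_zero]

/-- RA3 -/
theorem comp_of {R : Type*} [Ring R] (h3 : (3 : R) = 0) {x : R}
    (hx : ∑ k ∈ range 5, x ^ k = 0) {v : R} {l m : ℕ} (hl : l < 5) (hm : m < 5)
    (hv : v * x = x ^ m * v) : comp x v l = if l = m then v else 0 := by
  have h5 := pow_five hx
  have hva : ∀ a : ℕ, v * x ^ a = x ^ (m * a) * v := by
    intro a
    induction a with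
    | zero => simp
    | succ a ih =>
      rw [pow_succ, ← mul_assoc, ih, mul_assoc, hv, ← mul_assoc, ← pow_add, mul_add, mul_one]
  have e : comp x v l = -((∑ a ∈ range 5, x ^ ((5 - l + m) * a)) * v) := by
    unfold comp
    rw [sum_mul]
    congr 1
    refine sum_congr rfl fun a _ => ?_
    rw [mul_assoc, hva, ← mul_assoc, ← pow_add, add_mul]
  rw [e, sum_pow hx]
  by_cases h : l = m
  · subst h
    have : (5 - l + l) % 5 = 0 := by omega
    rw [if_pos this, if_pos rfl]
    have k3 : -((5 : R) * v) = v - (3 : R) * (v + v) := by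
      have h3' : (3 : R) = 1 + 1 + 1 := by norm_num
      have h5' : (5 : R) = 1 + 1 + 1 + 1 + 1 := by norm_num
      rw [h3', h5']
      simp only [add_mul, one_mul]
      abel
    rw [k3, h3, zero_mul, sub_zero]
  · have : ¬ (5 - l + m) % 5 = 0 := by omega
    rw [if_neg this, if_neg h, zero_mul, neg_zero]

end H446.EY
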