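import Mathlib

set_option autoImplicit false

/-!
The final contradiction from the relations (task YRC).
-/

namespace H446.EY

open Finset

universe u

/-- RC: the final contradiction (the weight 1, 2, 4, 3 components of `y` are `y0 y1 q y3`) -/
theorem final_contra {R : Type*} [Ring R] [Nontrivial R] (h3 : (3 : R) = 0)
    {x y0 y1 q y3 z0 z1 z3 : R} (hx : ∑ k ∈ range 5, x ^ k = 0)
    (hy0 : y0 * x = x * y0) (hy1 : y1 * x = x ^ 2 * y1) (hq : q * x = x ^ 4 * q)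
    (hy3 : y3 * x = x ^ 3 * y3)
    (hz0 : z0 * x = x * z0) (hz1 : z1 * x = x ^ 2 * z1) (hz3 : z3 * x = x ^ 3 * z3)
    (hqq : q * q = 1) (r0 : y0 = -(z3 * z1)) (r1 : z1 = -(y1 * y0)) (r3 : z3 = -(y0 * y3))
    (r4 : z0 = -(y3 * y1)) (s1 : q * y1 = z1 * q) (s3 : q * y3 = z3 * q) (s0 : q * y0 = z0 * q)
    (d2 : y1 * z1 + y3 * z3 = 0) (d0 : y0 * z0 + y1 * z3 - q * q + y3 * z1 = 1)
    (hb : ∀ b : ℕ, b = 1 ∨ b = 2 →
      (-((x ^ b - x ^ (4 * b)) * (y0 * q)) + (x ^ (2 * b) - x ^ (3 * b)) * (y1 * z1)) *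
      (-((x ^ b - x ^ (4 * b)) * (y0 * q)) + (x ^ (2 * b) - x ^ (3 * b)) * (y1 * z1)) = 1) :
    False := by
  have hsum : 1 + x + x ^ 2 + x ^ 3 + x ^ 4 = 0 := by
    simpa [Finset.sum_range_succ] using hx
  have hx5 : x ^ 5 = 1 := by
    have h1 : (x - 1) * (1 + x + x ^ 2 + x ^ 3 + x ^ 4) = x ^ 5 - 1 := by noncomm_ring
    rw [hsum, mul_zero] at h1
    exact (sub_eq_zero.1 h1.symm)
  have hx6 : x ^ 6 = x := by rw [show 6 = 5 + 1 from rfl, pow_add, hx5, one_mul, pow_one]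
  have hx7 : x ^ 7 = x ^ 2 := by rw [show 7 = 5 + 2 from rfl, pow_add, hx5, one_mul]
  have hx8 : x ^ 8 = x ^ 3 := by rw [show 8 = 5 + 3 from rfl, pow_add, hx5, one_mul]
  have hx12 : x ^ 12 = x ^ 2 := by
    rw [show 12 = 5 + 7 from rfl, pow_add, hx5, one_mul, hx7]
  have hx16 : x ^ 16 = x := by
    rw [show 16 = 5 + 5 + 6 from rfl, pow_add, pow_add, hx5, one_mul, one_mul, hx6]
  obtain ⟨Y, hY⟩ : ∃ Y, Y = y0 * q := ⟨_, rfl⟩
  obtain ⟨W, hW⟩ : ∃ W, W = y1 * z1 := ⟨_, rfl⟩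
  obtain ⟨e1, he1⟩ : ∃ e1, e1 = x - x ^ 4 := ⟨_, rfl⟩
  obtain ⟨e2, he2⟩ : ∃ e2, e2 = x ^ 2 - x ^ 3 := ⟨_, rfl⟩
  -- moving `x` through `Y`, `W`
  have hxpow : ∀ u : R, u * x = x ^ 4 * u → ∀ k : ℕ, u * x ^ k = x ^ (4 * k) * u := by
    intro u hu k
    induction k with
    | zero => simp
    | succ k ih =>
      rw [pow_succ, ← mul_assoc, ih, mul_assoc, hu, ← mul_assoc, ← pow_add]
      congr 2
  have hYx : Y * x = x ^ 4 * Y := by
    have h1 : ∀ k : ℕ, y0 * x ^ k = x ^ k * y0 := fun k => (Commute.pow_right hy0 k).eq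
    rw [hY, mul_assoc, hq, ← mul_assoc, h1, mul_assoc]
  have hWx : W * x = x ^ 4 * W := by
    rw [hW, mul_assoc, hz1, ← mul_assoc]
    have h1 : y1 * x ^ 2 = x ^ 4 * y1 := by
      rw [pow_two, ← mul_assoc, hy1, mul_assoc, hy1, ← mul_assoc, ← pow_add]
    rw [h1, mul_assoc]
  have hde1 : ∀ u : R, u * x = x ^ 4 * u → u * e1 = -(e1 * u) := by
    intro u hu
    have h4 := hxpow u hu 4
    rw [show 4 * 4 = 16 from rfl, hx16] at h4
    rw [he1, mul_sub, hu, h4]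
    noncomm_ring
  have hde2 : ∀ u : R, u * x = x ^ 4 * u → u * e2 = -(e2 * u) := by
    intro u hu
    have h2 := hxpow u hu 2
    have h3' := hxpow u hu 3
    rw [show 4 * 2 = 8 from rfl, hx8] at h2
    rw [show 4 * 3 = 12 from rfl, hx12] at h3'
    rw [he2, mul_sub, h2, h3']
    noncomm_ring
  have he12 : e1 * e2 = e2 * e1 := by
    rw [he1, he2]
    noncomm_ring
  have hb1 := hb 1 (Or.inl rfl)
  have hb2 := hb 2 (Or.inr rfl)
  rw [pow_one, show 4 * 1 = 4 from rfl, show 2 * 1 = 2 from rfl, show 3 * 1 = 3 from rfl,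
    ← he1, ← he2, ← hY, ← hW] at hb1
  rw [show 4 * 2 = 8 from rfl, show 2 * 2 = 4 from rfl, show 3 * 2 = 6 from rfl, hx8, hx6,
    ← he2, ← neg_sub x (x ^ 4), ← he1, ← hY, ← hW] at hb2
  have hYe1 := hde1 Y hYx
  have hYe2 := hde2 Y hYx
  have hWe1 := hde1 W hWx
  have hWe2 := hde2 W hWx
  have k1 : -(e1 * e1 * (Y * Y)) + e1 * e2 * (Y * W + W * Y) - e2 * e2 * (W * W) = 1 := by
    rw [← hb1]
    have h1 : (-(e1 * Y) + e2 * W) * (-(e1 * Y) + e2 * W) =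
        e1 * (Y * e1) * Y - e1 * (Y * e2) * W - e2 * (W * e1) * Y + e2 * (W * e2) * W := by
      noncomm_ring
    rw [h1, hYe1, hYe2, hWe1, hWe2]
    have h2 : e1 * -(e1 * Y) * Y - e1 * -(e2 * Y) * W - e2 * -(e1 * W) * Y + e2 * -(e2 * W) * W =
        -(e1 * e1 * (Y * Y)) + e1 * e2 * (Y * W) + e2 * e1 * (W * Y) - e2 * e2 * (W * W) := by
      noncomm_ring
    rw [h2, ← he12]
    noncomm_ring
  have k2 : -(e2 * e2 * (Y * Y)) - e1 * e2 * (Y * W + W * Y) - e1 * e1 * (W * W) = 1 := by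
    rw [← hb2]
    have h1 : (-(e2 * Y) + -e1 * W) * (-(e2 * Y) + -e1 * W) =
        e2 * (Y * e2) * Y + e2 * (Y * e1) * W + e1 * (W * e2) * Y + e1 * (W * e1) * W := by
      noncomm_ring
    rw [h1, hYe1, hYe2, hWe1, hWe2]
    have h2 : e2 * -(e2 * Y) * Y + e2 * -(e1 * Y) * W + e1 * -(e2 * W) * Y + e1 * -(e1 * W) * W =
        -(e2 * e2 * (Y * Y)) - e2 * e1 * (Y * W) - e1 * e2 * (W * Y) - e1 * e1 * (W * W) := by
      noncomm_ring
    rw [h2, ← he12]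
    noncomm_ring
  have hs4 : x + x ^ 2 + x ^ 3 + x ^ 4 = -1 := by
    have h1 : 1 + (x + x ^ 2 + x ^ 3 + x ^ 4) = 0 := by
      rw [← hsum]
      abel
    exact (neg_eq_of_add_eq_zero_right h1).symm
  have hsq : e1 * e1 + e2 * e2 = -5 := by
    have h1 : e1 * e1 + e2 * e2 = x ^ 2 + x ^ 8 + x ^ 4 + x ^ 6 - 4 * x ^ 5 := by
      rw [he1, he2]
      noncomm_ring
    rw [h1, hx8, hx6, hx5]
    have h2 : x ^ 2 + x ^ 3 + x ^ 4 + x - 4 * 1 = (x + x ^ 2 + x ^ 3 + x ^ 4) - 4 := by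
      rw [mul_one]
      abel
    rw [h2, hs4]
    norm_num
  have h5 : (5 : R) = -1 := by
    have : (5 : R) = 2 * 3 - 1 := by norm_num
    rw [this, h3, mul_zero, zero_sub]
  have h2' : (2 : R) = -1 := by
    have : (2 : R) = 3 - 1 := by norm_num
    rw [this, h3, zero_sub]
  -- (i)
  have hYW : Y * Y + W * W = 1 := by
    have h1 : -((e1 * e1 + e2 * e2) * (Y * Y + W * W)) = 1 + 1 := by
      have hk := congrArg₂ (· + ·) k1 k2
      rw [← hk]
      noncomm_ring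
    rw [hsq, h5, neg_neg, one_mul, one_add_one_eq_two, h2'] at h1
    exact neg_inj.1 h1
  -- (ii)
  obtain ⟨e, he⟩ : ∃ e, e = y0 * z0 := ⟨_, rfl⟩
  have hz0q : z0 = q * y0 * q := by
    rw [s0, mul_assoc, hqq, mul_one]
  have hqz0 : q * z0 = y0 * q := by
    rw [hz0q, ← mul_assoc, ← mul_assoc, hqq, one_mul]
  have hYY : Y * Y = e := by
    rw [hY, he, hz0q]
    simp only [mul_assoc]
  have hy0z0y0 : y0 * z0 * y0 = y0 := by
    have h1 : y0 * z0 * y0 = -((y0 * y3) * (y1 * y0)) := by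
      rw [r4]
      noncomm_ring
    have h2 : y0 * y3 = -z3 := by rw [r3, neg_neg]
    have h3' : y1 * y0 = -z1 := by rw [r1, neg_neg]
    rw [h1, h2, h3', neg_mul_neg]
    exact r0.symm
  have heY : e * Y = Y := by
    rw [he, hY, ← mul_assoc, hy0z0y0]
  have hYe : Y * e = Y := by
    have h1 : Y * e = y0 * (q * y0) * z0 := by
      rw [hY, he]
      simp only [mul_assoc]
    rw [h1, s0, ← mul_assoc y0 z0 q, mul_assoc (y0 * z0) q z0, hqz0, ← mul_assoc, hy0z0y0, hY]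
  have hee : e * e = e := by
    rw [he]
    calc y0 * z0 * (y0 * z0) = (y0 * z0 * y0) * z0 := by simp only [mul_assoc]
      _ = y0 * z0 := by rw [hy0z0y0]
  have hWW : W * W = 1 - e := by
    rw [← hYW, ← hYY]
    abel
  have hWe : W * e = e * W := by
    have h1 : e = 1 - W * W := by rw [hWW]; abel
    rw [h1]
    noncomm_ring
  -- (iii)
  obtain ⟨D, hD⟩ : ∃ D, D = e1 * e1 - e2 * e2 := ⟨_, rfl⟩
  have h11 : D * (1 - e) = 0 := by
    have h1 : -(D * (Y * Y)) + 2 * (e1 * e2 * (Y * W + W * Y)) + D * (W * W) = 0 := by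
      have hk := congrArg₂ (· - ·) k1 k2
      simp only [sub_self] at hk
      rw [← hk, hD]
      noncomm_ring
    have h2 := congrArg (· * (1 - e)) h1
    simp only [zero_mul] at h2
    have g1 : Y * (1 - e) = 0 := by rw [mul_sub, mul_one, hYe, sub_self]
    have g2 : W * (1 - e) = (1 - e) * W := by
      rw [mul_sub, sub_mul, mul_one, one_mul, hWe]
    have g3 : (1 - e) * (1 - e) = 1 - e := by
      rw [mul_sub, sub_mul, sub_mul, one_mul, mul_one, one_mul, hee]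
      abel
    have h4 : (-(D * (Y * Y)) + 2 * (e1 * e2 * (Y * W + W * Y)) + D * (W * W)) * (1 - e) =
        -(D * (Y * (Y * (1 - e)))) + 2 * (e1 * e2 * (Y * (W * (1 - e)) + W * (Y * (1 - e)))) +
          D * (W * W * (1 - e)) := by
      simp only [add_mul, mul_add, neg_mul, mul_assoc]
    have g4 : Y * ((1 - e) * W) = 0 := by rw [← mul_assoc, g1, zero_mul]
    rw [h4, g2, g4, g1, hWW, g3] at h2
    simpa using h2
  have hDD : D * D = 5 := by
    have h1 : D = -(x + x ^ 4) + (x ^ 2 + x ^ 3) := by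
      have h2 : D = x ^ 2 - 2 * x ^ 5 + x ^ 8 - (x ^ 4 - 2 * x ^ 5 + x ^ 6) := by
        rw [hD, he1, he2]
        noncomm_ring
      rw [h2, hx8, hx6, hx5]
      noncomm_ring
    have h2 : D * D = (x ^ 2 + x ^ 8) + (x ^ 4 + x ^ 6) + 4 * x ^ 5 -
        2 * (x ^ 3 + x ^ 4 + x ^ 6 + x ^ 7) := by
      rw [h1]
      noncomm_ring
    have h4 : (x ^ 2 + x ^ 8) + (x ^ 4 + x ^ 6) + 4 * x ^ 5 -
        2 * (x ^ 3 + x ^ 4 + x ^ 6 + x ^ 7) = 4 - (x + x ^ 2 + x ^ 3 + x ^ 4) := by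
      rw [hx8, hx6, hx5, hx7, mul_one, two_mul]
      abel
    rw [h2, h4, hs4]
    norm_num
  have he1' : e = 1 := by
    have h1 := congrArg (D * ·) h11
    simp only [mul_zero] at h1
    rw [← mul_assoc, hDD, h5, neg_mul, one_mul, neg_eq_zero, sub_eq_zero] at h1
    exact h1.symm
  have hyz : y0 * z0 = 1 := by rw [← he, he1']
  -- (iv)
  have hzy : z0 * y0 = 1 := by
    have h1 : z0 * y0 = q * (Y * Y) * q := by
      rw [hz0q, hY]
      calc q * y0 * q * y0 = q * y0 * q * y0 * 1 := by rw [mul_one]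
        _ = q * y0 * q * y0 * (q * q) := by rw [hqq]
        _ = q * (y0 * q * (y0 * q)) * q := by simp only [mul_assoc]
    rw [h1, hYY, he1', mul_one, hqq]
  -- (v)
  have hy3z1 : y3 * z1 = 1 := by
    rw [r1, mul_neg, ← mul_assoc]
    have h1 : y3 * y1 = -z0 := by rw [r4, neg_neg]
    rw [h1, neg_mul, neg_neg, hzy]
  have hy1z3 : y1 * z3 = 0 := by
    rw [hyz, hqq, hy3z1] at d0
    have h1 : 1 + y1 * z3 - 1 + 1 = y1 * z3 + 1 := by abel
    rw [h1] at d0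
    simpa using d0
  have hz00 : z0 * y0 * z0 = 0 := by
    have h1 : z0 * y0 * z0 = -(y3 * (y1 * z3) * y1) := by
      have g1 : y3 * y1 = -z0 := by rw [r4, neg_neg]
      have g2 : y3 * (y1 * z3) * y1 = -((y3 * y1) * y0 * (y3 * y1)) := by
        rw [r3]
        noncomm_ring
      rw [g2, g1]
      noncomm_ring
    rw [h1, hy1z3, mul_zero, zero_mul, neg_zero]
  rw [hzy, one_mul] at hz00
  rw [hz00, mul_zero] at hyz
  exact zero_ne_one hyz

end H446.EY
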