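import Mathlib

set_option autoImplicit false

namespace H446.EY

/-- FIN: the theorem, with the other statements as hypotheses -/
theorem main53_of {G : Type*} [Group G]
    (hG : ∀ a b : G, a ^ 5 = 1 → b ^ 5 = 1 → (a * b) ^ 3 = 1 ∨ (a * b) ^ 5 = 1)
    (clo : ∀ g ∈ Subgroup.closure {x : G | x ^ 5 = 1},
      ∃ a b : G, a ^ 5 = 1 ∧ b ^ 5 = 1 ∧ g = a * b)
    (st1 : (∀ g : Subgroup.closure {x : G | x ^ 5 = 1}, g ^ 3 = 1 ∨ g ^ 5 = 1) →
      (∀ g : Subgroup.closure {x : G | x ^ 5 = 1}, ∃ a b : Subgroup.closure {x : G | x ^ 5 = 1},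
        a ^ 5 = 1 ∧ b ^ 5 = 1 ∧ g = a * b) →
      ∀ s t : Subgroup.closure {x : G | x ^ 5 = 1}, s ^ 3 = 1 → t ^ 3 = 1 → (s * t) ^ 3 = 1)
    (st : (∀ g : Subgroup.closure {x : G | x ^ 5 = 1}, g ^ 3 = 1 ∨ g ^ 5 = 1) →
      (∀ s t : Subgroup.closure {x : G | x ^ 5 = 1}, s ^ 3 = 1 → t ^ 3 = 1 → (s * t) ^ 3 = 1) →
      ∀ s0 : Subgroup.closure {x : G | x ^ 5 = 1}, s0 ≠ 1 → s0 ^ 3 = 1 →
      ∃ F : Subgroup (Subgroup.closure {x : G | x ^ 5 = 1}), F.Normal ∧
        (∀ s : Subgroup.closure {x : G | x ^ 5 = 1}, s ∈ F ↔ s ^ 3 = 1) ∧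
        (F.index = 1 ∨ F.index = 5))
    (lf : ∀ F : Subgroup (Subgroup.closure {x : G | x ^ 5 = 1}), (∀ s ∈ F, s ^ 3 = 1) →
      F.index ≠ 0 → ∀ K : Subgroup (Subgroup.closure {x : G | x ^ 5 = 1}), K.FG → Finite K)
    (ex : (∀ K : Subgroup G, K.FG → K ≤ Subgroup.closure {x : G | x ^ 5 = 1} → Finite K) →
      ∀ K : Subgroup G, K.FG → (∀ g ∈ K, g ^ 15 = 1) → Finite K) :
    (∀ g ∈ Subgroup.closure {x : G | x ^ 5 = 1}, g ^ 3 = 1 ∨ g ^ 5 = 1) ∧
    ((∀ a b : G, a ^ 5 = 1 → b ^ 5 = 1 → (a * b) ^ 5 = 1) ∨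
      ((∃ F : Subgroup G, F.Normal ∧ F ≤ Subgroup.closure {x : G | x ^ 5 = 1} ∧
          F.relIndex (Subgroup.closure {x : G | x ^ 5 = 1}) = 5 ∧ ∀ s ∈ F, s ^ 3 = 1) ∧
        (∀ K : Subgroup G, K.FG → K ≤ Subgroup.closure {x : G | x ^ 5 = 1} → Finite K) ∧
        ∀ K : Subgroup G, K.FG → (∀ g ∈ K, g ^ 15 = 1) → Finite K)) := by
  set T : Subgroup G := Subgroup.closure {x : G | x ^ 5 = 1} with hTdef
  have hPT : ∀ x : G, x ^ 5 = 1 → x ∈ T := fun x hx => Subgroup.subset_closure hx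
  have h1 : ∀ g ∈ T, g ^ 3 = 1 ∨ g ^ 5 = 1 := by
    intro g hg
    obtain ⟨a, b, ha, hb, rfl⟩ := clo g hg
    exact hG a b ha hb
  refine ⟨h1, ?_⟩
  have hT : ∀ g : T, g ^ 3 = 1 ∨ g ^ 5 = 1 := by
    intro g
    rcases h1 g.1 g.2 with h | h
    · left
      exact Subtype.ext h
    · right
      exact Subtype.ext h
  have hgen : ∀ g : T, ∃ a b : T, a ^ 5 = 1 ∧ b ^ 5 = 1 ∧ g = a * b := by
    intro g
    obtain ⟨a, b, ha, hb, hab⟩ := clo g.1 g.2
    exact ⟨⟨a, hPT a ha⟩, ⟨b, hPT b hb⟩, Subtype.ext ha, Subtype.ext hb, Subtype.ext hab⟩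
  have hF := st1 hT hgen
  by_cases hall : ∀ s : T, s ^ 3 = 1 → s = 1
  · left
    intro a b ha hb
    have hm : a * b ∈ T := mul_mem (hPT a ha) (hPT b hb)
    rcases h1 _ hm with h | h
    · have h2 := hall ⟨a * b, hm⟩ (Subtype.ext h)
      have h3 : a * b = 1 := congrArg Subtype.val h2
      rw [h3, one_pow]
    · exact h
  · right
    push Not at hall
    obtain ⟨s0, h03, h0⟩ := hall
    obtain ⟨F, hFn, hFm, hidx⟩ := st hT hF s0 h0 h03
    have hidx5 : F.index = 5 := by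
      rcases hidx with h | h
      · exfalso
        rw [Subgroup.index_eq_one] at h
        have h3 : ∀ s : T, s ^ 3 = 1 := by
          intro s
          rw [← hFm s, h]
          exact Subgroup.mem_top s
        have h5 : ∀ a : T, a ^ 5 = 1 → a = 1 := by
          intro a ha
          have h6 : a ^ 6 = 1 := by
            rw [show 6 = 3 * 2 by norm_num, pow_mul, h3 a, one_pow]
          rwa [pow_succ, ha, one_mul] at h6
        obtain ⟨a, b, ha, hb, hab⟩ := hgen s0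
        rw [h5 a ha, h5 b hb, one_mul] at hab
        exact h0 hab
      · exact h
    have hTn : T.Normal := by
      refine ⟨fun n hn g => ?_⟩
      refine Subgroup.closure_induction (p := fun x _ => g * x * g⁻¹ ∈ T) ?_ ?_ ?_ ?_ hn
      · intro x hx
        refine hPT _ ?_
        rw [conj_pow, (show x ^ 5 = 1 from hx), mul_one, mul_inv_cancel]
      · rw [mul_one, mul_inv_cancel]
        exact T.one_mem
      · intro x y _ _ hx hy
        have : g * (x * y) * g⁻¹ = (g * x * g⁻¹) * (g * y * g⁻¹) := by group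
        rw [this]
        exact T.mul_mem hx hy
      · intro x _ hx
        have : g * x⁻¹ * g⁻¹ = (g * x * g⁻¹)⁻¹ := by group
        rw [this]
        exact T.inv_mem hx
    have hfin : ∀ K : Subgroup G, K.FG → K ≤ T → Finite K := by
      intro K hK hKT
      have e : K.subgroupOf T ≃* K := Subgroup.subgroupOfEquivOfLe hKT
      have hFG : (K.subgroupOf T).FG := by
        have : Group.FG K := (Group.fg_iff_subgroup_fg K).mpr hK
        have h4 : Group.FG (K.subgroupOf T) :=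
          Group.fg_of_surjective (f := e.symm.toMonoidHom) e.symm.surjective
        exact (Group.fg_iff_subgroup_fg _).mp h4
      have : Finite (K.subgroupOf T) := lf F (fun s hs => (hFm s).1 hs) (by rw [hidx5]; norm_num) _ hFG
      exact Finite.of_equiv _ e.toEquiv
    refine ⟨⟨F.map T.subtype, ?_, Subgroup.map_subtype_le F, ?_, ?_⟩, hfin, ex hfin⟩
    · refine ⟨fun n hn g => ?_⟩
      obtain ⟨s, hs, rfl⟩ := Subgroup.mem_map.1 hn
      have h2 : g * (T.subtype s) * g⁻¹ ∈ T := hTn.conj_mem _ s.2 g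
      refine Subgroup.mem_map.2 ⟨⟨_, h2⟩, ?_, rfl⟩
      rw [hFm]
      refine Subtype.ext ?_
      have h3 : (T.subtype s) ^ 3 = 1 := congrArg Subtype.val ((hFm s).1 hs)
      show (g * (T.subtype s) * g⁻¹) ^ 3 = 1
      rw [conj_pow, h3, mul_one, mul_inv_cancel]
    · have e : (F.map T.subtype).subgroupOf T = F :=
        Subgroup.comap_map_eq_self_of_injective T.subtype_injective F
      rw [Subgroup.relIndex, e]
      exact hidx5
    · intro s hs
      obtain ⟨t, ht, rfl⟩ := Subgroup.mem_map.1 hs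
      exact congrArg Subtype.val ((hFm t).1 ht)

end H446.EY
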