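import Mathlib
import Pool.Agent.H15R2.Main

set_option autoImplicit false

namespace H446.EY

open Subgroup Finset

/-- LF -/
theorem locFin53 {T : Type*} [Group T] (F : Subgroup T) (hF : ∀ s ∈ F, s ^ 3 = 1)
    (hi : F.index ≠ 0) : ∀ K : Subgroup T, K.FG → Finite K := by
  intro K hK
  have hKFG : Group.FG K := (Group.fg_iff_subgroup_fg K).2 hK
  have h5 : (F.subgroupOf K).index ≠ 0 := by
    intro h0
    exact hi (relIndex_eq_zero_of_le_right (H := F) (K := K) (L := ⊤) le_top h0 ▸
      (relIndex_top_right F).symm)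
  have h6 : (F.subgroupOf K).FiniteIndex := ⟨h5⟩
  have h7 : Group.FG (F.subgroupOf K) := inferInstance
  have h8 : Finite (F.subgroupOf K) := by
    refine H15.Struct.finite_exp3 h7 ?_
    rintro ⟨g, hg⟩
    have h9 : ((g : T)) ^ 3 = 1 := hF g hg
    apply Subtype.ext
    apply Subtype.ext
    simpa using h9
  exact H15.Struct.finite_of_index _ h5 h8

theorem Lf_normal {G : Type*} [Group G] (m : ℕ) :
    (Subgroup.closure {x : G | x ^ m = 1}).Normal := by
  constructor
  intro n hn g
  induction hn using Subgroup.closure_induction with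
  | mem x hx =>
    apply Subgroup.subset_closure
    show (g * x * g⁻¹) ^ m = 1
    have hx' : x ^ m = 1 := hx
    rw [conj_pow, hx']
    simp
  | one => simp
  | mul x y _ _ hx hy =>
    have : g * (x * y) * g⁻¹ = (g * x * g⁻¹) * (g * y * g⁻¹) := by group
    rw [this]
    exact mul_mem hx hy
  | inv x _ hx =>
    have : g * x⁻¹ * g⁻¹ = (g * x * g⁻¹)⁻¹ := by group
    rw [this]
    exact inv_mem hx

/-- EXT15 -/
theorem ext15 {G : Type*} [Group G]
    (h : ∀ K : Subgroup G, K.FG → K ≤ Subgroup.closure {x : G | x ^ 5 = 1} → Finite K) :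
    ∀ K : Subgroup G, K.FG → (∀ g ∈ K, g ^ 15 = 1) → Finite K := by
  intro F hF hexp
  have hT : (Subgroup.closure {x : G | x ^ 5 = 1}).Normal := Lf_normal 5
  set N : Subgroup F := (Subgroup.closure {x : G | x ^ 5 = 1}).subgroupOf F with hN
  have hNn : N.Normal := inferInstance
  have hFfg : Group.FG F := (Group.fg_iff_subgroup_fg F).mpr hF
  have hQfg : Group.FG (F ⧸ N) := inferInstance
  have hQ : Finite (F ⧸ N) := by
    apply H15.Struct.finite_exp3 hQfg
    intro q
    obtain ⟨f, rfl⟩ := QuotientGroup.mk_surjective q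
    rw [← QuotientGroup.mk_pow, QuotientGroup.eq_one_iff, hN, Subgroup.mem_subgroupOf]
    apply Subgroup.subset_closure
    show ((f ^ 3 : F) : G) ^ 5 = 1
    rw [Subgroup.coe_pow, ← pow_mul]
    exact hexp f f.2
  have hidx : N.FiniteIndex := Subgroup.finiteIndex_of_finite_quotient
  have hNfg : N.FG := (Group.fg_iff_subgroup_fg N).mp (Subgroup.fg_of_index_ne_zero N)
  have hmapfg : (N.map F.subtype).FG := by
    classical
    obtain ⟨S, hS⟩ := hNfg
    refine ⟨S.image F.subtype, ?_⟩
    rw [Finset.coe_image, ← MonoidHom.map_closure, hS]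
  have hmaple : N.map F.subtype ≤ Subgroup.closure {x : G | x ^ 5 = 1} := by
    rintro _ ⟨x, hx, rfl⟩
    exact hx
  have hmapfin : Finite (N.map F.subtype) := h _ hmapfg hmaple
  have hNfin : Finite N :=
    Finite.of_equiv _ (N.equivMapOfInjective F.subtype F.subtype_injective).toEquiv.symm
  exact H15.Struct.finite_of_index N hidx.index_ne_zero hNfin

end H446.EY
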