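import Pool.Agent.H446R9.EY.Pairs
import Pool.Agent.H446R9.EY.Cent

set_option autoImplicit false

namespace H446.EY.YS1

open Finset

theorem one_of_35 {T : Type*} [Group T] {s : T} (h3 : s ^ 3 = 1) (h5 : s ^ 5 = 1) : s = 1 := by
  have h6 : s ^ 6 = 1 := by
    calc s ^ 6 = s ^ 3 * s ^ 3 := by group
      _ = 1 := by rw [h3]; simp
  calc s = s ^ 6 * (s ^ 5)⁻¹ := by group
    _ = 1 := by rw [h5, h6]; simp

theorem one_of_25 {T : Type*} [Group T] {s : T} (h2 : s ^ 2 = 1) (h5 : s ^ 5 = 1) : s = 1 := by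
  calc s = s ^ 5 * (s ^ 2)⁻¹ * (s ^ 2)⁻¹ := by group
    _ = 1 := by rw [h5, h2]; simp

theorem one_of_45 {T : Type*} [Group T] {s : T} (h4 : s ^ 4 = 1) (h5 : s ^ 5 = 1) : s = 1 := by
  calc s = s ^ 5 * (s ^ 4)⁻¹ := by group
    _ = 1 := by rw [h5, h4]; simp

/-- commuting elements of orders 5 and 3 -/
theorem comm_triv {T : Type*} [Group T] (hT : ∀ g : T, g ^ 3 = 1 ∨ g ^ 5 = 1) {v s : T}
    (hv : v ^ 5 = 1) (hs : s ^ 3 = 1) (h : v * s = s * v) : v = 1 ∨ s = 1 := by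
  have hc : Commute v s := h
  rcases hT (v * s) with h3 | h5
  · left
    rw [hc.mul_pow, hs, mul_one] at h3
    exact one_of_35 h3 hv
  · right
    rw [hc.mul_pow, hv, one_mul] at h5
    exact one_of_35 hs h5

/-- Claim I -/
theorem claimI {T : Type*} [Group T] (hT : ∀ g : T, g ^ 3 = 1 ∨ g ^ 5 = 1) {s x u : T}
    (hs1 : s ≠ 1) (hs : s ^ 3 = 1) (hx1 : x ≠ 1) (hx : x ^ 5 = 1) (hxs : (x * s) ^ 3 = 1)
    (hu : u ^ 5 = 1) (hus : (u * s) ^ 5 = 1) : False := by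
  have hu1 : u ≠ 1 := by
    rintro rfl
    rw [one_mul] at hus
    exact hs1 (one_of_35 hs hus)
  obtain ⟨k, hk, h1, h2⟩ := typeB_conj hT hu hs hs1 hus
  have e : u⁻¹ ^ k * s * u ^ k = (u ^ k)⁻¹ * s * u ^ k := by rw [inv_pow]
  have hvk : (u ^ k) ^ 5 = 1 := by rw [← pow_mul, mul_comm, pow_mul, hu, one_pow]
  have ht : (u⁻¹ ^ k * s * u ^ k) ^ 3 = 1 := by
    rw [e]
    have h4 : (u ^ k)⁻¹ * s * u ^ k = (u ^ k)⁻¹ * s * ((u ^ k)⁻¹)⁻¹ := by rw [inv_inv]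
    rw [h4, conj_pow, hs]
    simp
  rcases typeA_three hT hx hx1 hs hxs ht h1 h2 with h | h | h
  · rw [e] at h
    apply hs1
    calc s = u ^ k * ((u ^ k)⁻¹ * s * u ^ k) * (u ^ k)⁻¹ := by group
      _ = 1 := by rw [h]; simp
  · rw [e] at h
    have hc : u ^ k * s = s * u ^ k := by
      calc u ^ k * s = u ^ k * ((u ^ k)⁻¹ * s * u ^ k) := by rw [h]
        _ = s * u ^ k := by group
    rcases comm_triv hT hvk hs hc with h3 | h3
    · rcases hk with rfl | rfl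
      · rw [pow_one] at h3
        exact hu1 h3
      · exact hu1 (one_of_25 h3 hu)
    · exact hs1 h3
  · rw [e] at h
    have h' : (u ^ k)⁻¹ * s⁻¹ * u ^ k = s := by
      calc (u ^ k)⁻¹ * s⁻¹ * u ^ k = ((u ^ k)⁻¹ * s * u ^ k)⁻¹ := by group
        _ = s := by rw [h, inv_inv]
    have hc : (u ^ k * u ^ k) * s = s * (u ^ k * u ^ k) := by
      have h'' : (u ^ k)⁻¹ * ((u ^ k)⁻¹ * s * u ^ k) * u ^ k = s := by rw [h, h']
      calc (u ^ k * u ^ k) * s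
          = (u ^ k * u ^ k) * ((u ^ k)⁻¹ * ((u ^ k)⁻¹ * s * u ^ k) * u ^ k) := by rw [h'']
        _ = s * (u ^ k * u ^ k) := by group
    have hv2 : (u ^ k * u ^ k) ^ 5 = 1 := by
      rw [(Commute.refl (u ^ k)).mul_pow, hvk, mul_one]
    rcases comm_triv hT hv2 hs hc with h3 | h3
    · rcases hk with rfl | rfl
      · rw [pow_one, ← pow_two] at h3
        exact hu1 (one_of_25 h3 hu)
      · rw [← pow_add] at h3
        exact hu1 (one_of_45 h3 hu)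
    · exact hs1 h3

end H446.EY.YS1

namespace H446.EY

open YS1

theorem stage1 {T : Type*} [Group T] (hT : ∀ g : T, g ^ 3 = 1 ∨ g ^ 5 = 1)
    (hgen : ∀ g : T, ∃ a b : T, a ^ 5 = 1 ∧ b ^ 5 = 1 ∧ g = a * b) :
    ∀ s t : T, s ^ 3 = 1 → t ^ 3 = 1 → (s * t) ^ 3 = 1 := by
  have star : ∀ s x : T, s ≠ 1 → s ^ 3 = 1 → x ≠ 1 → x ^ 5 = 1 → (x * s) ^ 5 = 1 := by
    intro s x hs1 hs hx1 hx
    rcases hT (x * s) with h3 | h5
    · exfalso
      obtain ⟨a, b, ha, hb, hab⟩ := hgen s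
      refine claimI hT hs1 hs hx1 hx h3 (u := a⁻¹) ?_ ?_
      · rw [inv_pow, ha, inv_one]
      · rw [hab, inv_mul_cancel_left, hb]
    · exact h5
  intro s t hs ht
  by_contra hne
  have hx5 : (s * t) ^ 5 = 1 := by
    rcases hT (s * t) with h | h
    · exact absurd h hne
    · exact h
  have hx1 : s * t ≠ 1 := by
    intro h
    apply hne
    rw [h, one_pow]
  have ht1 : t⁻¹ ≠ 1 := by
    intro h
    apply hne
    rw [inv_eq_one] at h
    rw [h, mul_one, hs]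
  have ht3 : t⁻¹ ^ 3 = 1 := by rw [inv_pow, ht, inv_one]
  have h5 := star t⁻¹ (s * t) ht1 ht3 hx1 hx5
  rw [mul_inv_cancel_right] at h5
  have hs1 := one_of_35 hs h5
  apply hne
  rw [hs1, one_mul, ht]

end H446.EY
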