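import Pool.Agent.H446R9.EY.Comp

/-! RB: relations between the components of y and its inverse (helper20). -/

set_option autoImplicit false

namespace H446.EY

open Finset

namespace Relsx

variable {R : Type*} [Ring R]

theorem comp_add (x u v : R) (l : ℕ) : comp x (u + v) l = comp x u l + comp x v l := by
  unfold comp
  rw [← neg_add, ← Finset.sum_add_distrib]
  congr 1
  apply Finset.sum_congr rfl
  intro a _
  rw [mul_add, add_mul]

theorem comp_zero (x : R) (l : ℕ) : comp x 0 l = 0 := by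
  unfold comp
  simp

/-- elements of different weights are independent -/
theorem wlem (h3 : (3 : R) = 0) {x : R} (hx : ∑ k ∈ range 5, x ^ k = 0) {a1 a2 a3 a4 : R}
    (h1 : a1 * x = x ^ 1 * a1) (h2 : a2 * x = x ^ 2 * a2) (h3' : a3 * x = x ^ 3 * a3)
    (h4 : a4 * x = x ^ 4 * a4) (hs : a1 + a2 + a3 + a4 = 0) :
    a1 = 0 ∧ a2 = 0 ∧ a3 = 0 ∧ a4 = 0 := by
  have key : ∀ l : ℕ, l < 5 → (if l = 1 then a1 else 0) + (if l = 2 then a2 else 0) +
      (if l = 3 then a3 else 0) + (if l = 4 then a4 else 0) = 0 := by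
    intro l hl
    rw [← comp_of h3 hx hl (by norm_num) h1, ← comp_of h3 hx hl (by norm_num) h2,
      ← comp_of h3 hx hl (by norm_num) h3', ← comp_of h3 hx hl (by norm_num) h4,
      ← comp_add, ← comp_add, ← comp_add, hs, comp_zero]
  refine ⟨?_, ?_, ?_, ?_⟩
  · simpa using key 1 (by norm_num)
  · simpa using key 2 (by norm_num)
  · simpa using key 3 (by norm_num)
  · simpa using key 4 (by norm_num)

theorem x5 {x : R} (hx : ∑ k ∈ range 5, x ^ k = 0) : x ^ 5 = 1 := by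
  have h1 : (x - 1) * ∑ k ∈ range 5, x ^ k = x ^ 5 - 1 := by
    simp only [Finset.sum_range_succ, Finset.sum_range_zero]
    noncomm_ring
  rw [hx, mul_zero] at h1
  exact (sub_eq_zero.1 h1.symm)

theorem wpow {x u : R} {l : ℕ} (h : u * x = x ^ l * u) (a : ℕ) : u * x ^ a = x ^ (l * a) * u := by
  induction a with
  | zero => simp
  | succ a ih =>
    rw [pow_succ, ← mul_assoc, ih, mul_assoc, h, ← mul_assoc, ← pow_add]
    congr 2

theorem wmul {x u v : R} (hx5 : x ^ 5 = 1) {l m : ℕ} (hu : u * x = x ^ l * u)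
    (hv : v * x = x ^ m * v) (n : ℕ) (hn : (l * m) % 5 = n) :
    (u * v) * x = x ^ n * (u * v) := by
  rw [mul_assoc, hv, ← mul_assoc, wpow hu, mul_assoc, pow_eq_pow_mod (l * m) hx5, hn]

theorem wadd {x u v : R} {l : ℕ} (hu : u * x = x ^ l * u) (hv : v * x = x ^ l * v) :
    (u + v) * x = x ^ l * (u + v) := by
  rw [add_mul, hu, hv, mul_add]

theorem geo {x : R} (hx : ∑ k ∈ range 5, x ^ k = 0) (c : ℕ) (hc : c % 5 ≠ 0) :
    ∑ a ∈ range 5, (x ^ a) ^ c = 0 := by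
  have hx5 := x5 hx
  have h1 : ∀ a, (x ^ a) ^ c = x ^ ((a * (c % 5)) % 5) := by
    intro a
    rw [← pow_mul, pow_eq_pow_mod (a * c) hx5]
    congr 1
    rw [Nat.mul_mod, Nat.mul_mod a (c % 5), Nat.mod_mod]
  simp only [h1]
  have h2 : c % 5 < 5 := Nat.mod_lt _ (by norm_num)
  generalize c % 5 = r at hc h2
  have h3 : x ^ 0 + x ^ 1 + x ^ 2 + x ^ 3 + x ^ 4 = 0 := by
    rw [← hx]
    simp only [Finset.sum_range_succ, Finset.sum_range_zero, zero_add]
  interval_cases r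
  · exact absurd rfl hc
  · simp only [Finset.sum_range_succ, Finset.sum_range_zero, zero_add]
    norm_num
    simpa using h3
  · simp only [Finset.sum_range_succ, Finset.sum_range_zero, zero_add]
    norm_num
    rw [← h3]; simp only [pow_zero, pow_one]; abel
  · simp only [Finset.sum_range_succ, Finset.sum_range_zero, zero_add]
    norm_num
    rw [← h3]; simp only [pow_zero, pow_one]; abel
  · simp only [Finset.sum_range_succ, Finset.sum_range_zero, zero_add]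
    norm_num
    rw [← h3]; simp only [pow_zero, pow_one]; abel

theorem geo0 {x : R} (hx5 : x ^ 5 = 1) (c : ℕ) (hc : c % 5 = 0) :
    ∑ a ∈ range 5, (x ^ a) ^ c = 5 := by
  have h1 : ∀ a ∈ range 5, (x ^ a) ^ c = 1 := by
    intro a _
    rw [← pow_mul, pow_eq_pow_mod (a * c) hx5, Nat.mul_mod, hc]
    simp
  rw [Finset.sum_congr rfl h1]
  simp

theorem six (h3 : (3 : R) = 0) (u : R) (h : 5 * u = 0) : u = 0 := by
  have h1 : u = 2 * (3 * u) - 5 * u := by
    have : (2 : R) * (3 * u) = 6 * u := by rw [← mul_assoc]; norm_num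
    rw [this, ← sub_mul]
    norm_num
  rw [h1, h3, h]
  simp

/-- Fourier inversion -/
theorem four (h3 : (3 : R) = 0) {x : R} (hx : ∑ k ∈ range 5, x ^ k = 0) (A : ℕ → R)
    (h : ∀ a < 5, ∑ d ∈ range 5, (x ^ a) ^ d * A d = 0) (j : ℕ) (hj : j < 5) : A j = 0 := by
  have hx5 := x5 hx
  apply six h3
  have h1 : ∑ a ∈ range 5, (x ^ a) ^ (5 - j) * ∑ d ∈ range 5, (x ^ a) ^ d * A d = 0 := by
    apply Finset.sum_eq_zero
    intro a ha
    rw [h a (Finset.mem_range.1 ha), mul_zero]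
  have h2 : ∑ a ∈ range 5, (x ^ a) ^ (5 - j) * ∑ d ∈ range 5, (x ^ a) ^ d * A d =
      ∑ d ∈ range 5, (∑ a ∈ range 5, (x ^ a) ^ (5 - j + d)) * A d := by
    simp only [Finset.mul_sum, Finset.sum_mul]
    rw [Finset.sum_comm]
    apply Finset.sum_congr rfl
    intro d _
    apply Finset.sum_congr rfl
    intro a _
    rw [← mul_assoc, ← pow_add]
  rw [h2, Finset.sum_eq_single j] at h1
  · rwa [geo0 hx5 _ (by omega)] at h1
  · intro d hd hdj
    have := Finset.mem_range.1 hd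
    rw [geo hx _ (by omega), zero_mul]
  · intro hj'
    exact absurd (Finset.mem_range.2 hj) hj'

end Relsx

open Relsx

/-- RB: the relations between the components of `y` and `z = y⁻¹` -/
theorem rels_of_norm {R : Type*} [Ring R] (h3 : (3 : R) = 0) {x y z : R}
    (hx : ∑ k ∈ range 5, x ^ k = 0) (hyz : y * z = 1) (hzy : z * y = 1)
    (hN : ∀ a : ℕ, a < 5 → ∑ k ∈ range 5, (x ^ a * y) ^ k = 0) :
    comp x z 4 = - comp x y 4 ∧ comp x y 4 * comp x y 4 = 1 ∧
    comp x y 1 = - (comp x z 3 * comp x z 2) ∧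
    comp x z 2 = - (comp x y 2 * comp x y 1) ∧
    comp x z 3 = - (comp x y 1 * comp x y 3) ∧
    comp x z 1 = - (comp x y 3 * comp x y 2) ∧
    comp x y 4 * comp x y 2 = comp x z 2 * comp x y 4 ∧
    comp x y 4 * comp x y 3 = comp x z 3 * comp x y 4 ∧
    comp x y 4 * comp x y 1 = comp x z 1 * comp x y 4 := by
  have hx5 := x5 hx
  have hy1 := comp_mul hx y (show 1 ≤ 5 by norm_num)
  have hy2 := comp_mul hx y (show 2 ≤ 5 by norm_num)
  have hy3 := comp_mul hx y (show 3 ≤ 5 by norm_num)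
  have hy4 := comp_mul hx y (show 4 ≤ 5 by norm_num)
  have hz1 := comp_mul hx z (show 1 ≤ 5 by norm_num)
  have hz2 := comp_mul hx z (show 2 ≤ 5 by norm_num)
  have hz3 := comp_mul hx z (show 3 ≤ 5 by norm_num)
  have hz4 := comp_mul hx z (show 4 ≤ 5 by norm_num)
  have hys := comp_sum h3 hx y
  have hzs := comp_sum h3 hx z
  set y1 := comp x y 1
  set y2 := comp x y 2
  set y3 := comp x y 3
  set y4 := comp x y 4
  set z1 := comp x z 1
  set z2 := comp x z 2
  set z3 := comp x z 3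
  set z4 := comp x z 4
  -- the five identities
  have hE : ∀ a < 5, ∑ d ∈ range 5, (x ^ a) ^ d *
      (fun d : ℕ => if d = 0 then 1 + y4 * y + z * z4 else
        if d = 1 then y + z4 + (z1 * z3 + z2 * z1 + z3 * z2) else
        if d = 2 then y1 * y + z3 + (z1 * z2 + z2 * z3 + z4 * z1) else
        if d = 3 then y2 * y + z2 + (z1 * z1 + z4 * z2 + z3 * z3) else
          y3 * y + z1 + (z3 * z1 + z2 * z2 + z4 * z3)) d = 0 := by
    intro a ha
    have hw := hN a ha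
    set X := x ^ a with hX
    have hX5 : X ^ 5 = 1 := by
      rw [hX, ← pow_mul, mul_comm, pow_mul, hx5, one_pow]
    have hyX : ∀ b, y * X ^ b = X ^ b * y1 + X ^ (2 * b) * y2 + X ^ (4 * b) * y4 +
        X ^ (3 * b) * y3 := by
      intro b
      conv_lhs => rw [← hys]
      rw [add_mul, add_mul, add_mul, hX, ← pow_mul, wpow hy1, wpow hy2, wpow hy4, wpow hy3,
        ← pow_mul, ← pow_mul, ← pow_mul, one_mul]
      congr 1
      · congr 1
        · congr 3; ring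
        · congr 2; ring
      · congr 2; ring
    have hzX : ∀ b, z * X ^ b = X ^ b * z1 + X ^ (2 * b) * z2 + X ^ (4 * b) * z4 +
        X ^ (3 * b) * z3 := by
      intro b
      conv_lhs => rw [← hzs]
      rw [add_mul, add_mul, add_mul, hX, ← pow_mul, wpow hz1, wpow hz2, wpow hz4, wpow hz3,
        ← pow_mul, ← pow_mul, ← pow_mul, one_mul]
      congr 1
      · congr 1
        · congr 3; ring
        · congr 2; ring
      · congr 2; ring
    have hw5 := x5 hw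
    -- the inverse of `w = X y`
    have hwv : (X * y) * (z * X ^ 4) = 1 := by
      calc (X * y) * (z * X ^ 4) = X * (y * z) * X ^ 4 := by noncomm_ring
        _ = X ^ 5 := by rw [hyz]; noncomm_ring
        _ = 1 := hX5
    have hw4 : (X * y) ^ 4 = z * X ^ 4 := by
      calc (X * y) ^ 4 = (X * y) ^ 4 * ((X * y) * (z * X ^ 4)) := by rw [hwv, mul_one]
        _ = (X * y) ^ 5 * (z * X ^ 4) := by rw [← mul_assoc, ← pow_succ]
        _ = z * X ^ 4 := by rw [hw5, one_mul]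
    have hw3 : (X * y) ^ 3 = (z * X ^ 4) * (z * X ^ 4) := by
      calc (X * y) ^ 3 = (X * y) ^ 3 * ((X * y) * (z * X ^ 4)) := by rw [hwv, mul_one]
        _ = (X * y) ^ 4 * (z * X ^ 4) := by rw [← mul_assoc, ← pow_succ]
        _ = _ := by rw [hw4]
    have hp : ∀ n : ℕ, X ^ n = X ^ (n % 5) := fun n => pow_eq_pow_mod n hX5
    have e4 : z * X ^ 4 = X ^ 4 * z1 + X ^ 3 * z2 + X ^ 1 * z4 + X ^ 2 * z3 := by
      rw [hzX 4, hp (2 * 4), hp (4 * 4), hp (3 * 4)]
    have e3 : z * X ^ 3 = X ^ 3 * z1 + X ^ 1 * z2 + X ^ 2 * z4 + X ^ 4 * z3 := by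
      rw [hzX 3, hp (2 * 3), hp (4 * 3), hp (3 * 3)]
    have e2 : z * X ^ 2 = X ^ 2 * z1 + X ^ 4 * z2 + X ^ 3 * z4 + X ^ 1 * z3 := by
      rw [hzX 2, hp (2 * 2), hp (4 * 2), hp (3 * 2)]
    have e1 : z * X ^ 1 = X ^ 1 * z1 + X ^ 2 * z2 + X ^ 4 * z4 + X ^ 3 * z3 := by
      rw [hzX 1]
    have f1 : y * X ^ 1 = X ^ 1 * y1 + X ^ 2 * y2 + X ^ 4 * y4 + X ^ 3 * y3 := by
      rw [hyX 1]
    -- the squares
    have g2 : (X * y) ^ 2 = X ^ 2 * (y1 * y) + X ^ 3 * (y2 * y) + y4 * y + X ^ 4 * (y3 * y) := by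
      calc (X * y) ^ 2 = X * (y * X ^ 1) * y := by noncomm_ring
        _ = X ^ 2 * (y1 * y) + X ^ 3 * (y2 * y) + X ^ 5 * (y4 * y) + X ^ 4 * (y3 * y) := by
          rw [f1]; noncomm_ring
        _ = _ := by rw [hX5, one_mul]
    have g3 : (z * X ^ 4) * (z * X ^ 4) = (z * X ^ 3) * z1 + (z * X ^ 2) * z2 + z * z4 +
        (z * X ^ 1) * z3 := by
      calc (z * X ^ 4) * (z * X ^ 4) =
          (z * X ^ 4) * (X ^ 4 * z1 + X ^ 3 * z2 + X ^ 1 * z4 + X ^ 2 * z3) := by rw [← e4]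
        _ = z * X ^ (4 + 4) * z1 + z * X ^ (4 + 3) * z2 + z * X ^ (4 + 1) * z4 +
            z * X ^ (4 + 2) * z3 := by
          rw [pow_add X 4 4, pow_add X 4 3, pow_add X 4 1, pow_add X 4 2]; noncomm_ring
        _ = _ := by
          rw [hp (4 + 4), hp (4 + 3), hp (4 + 1), hp (4 + 2)]
          norm_num
    simp only [Finset.sum_range_succ, Finset.sum_range_zero, zero_add] at hw ⊢
    rw [hw4, hw3, g3, g2, e3, e2, e1, e4] at hw
    norm_num
    rw [← hw]
    noncomm_ring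
  have hA0 := four h3 hx _ hE 0 (by norm_num)
  have hA1 := four h3 hx _ hE 1 (by norm_num)
  have hA2 := four h3 hx _ hE 2 (by norm_num)
  have hA3 := four h3 hx _ hE 3 (by norm_num)
  have hA4 := four h3 hx _ hE 4 (by norm_num)
  norm_num at hA0 hA1 hA2 hA3 hA4
  have h1x : (1 : R) * x = x ^ 1 * 1 := by simp
  -- weights
  have W0 := wlem h3 hx (a1 := 1 + y4 * y4 + z4 * z4) (a2 := y4 * y3 + z3 * z4)
    (a3 := y4 * y2 + z2 * z4) (a4 := y4 * y1 + z1 * z4)
    (wadd (wadd h1x (wmul hx5 hy4 hy4 1 (by norm_num))) (wmul hx5 hz4 hz4 1 (by norm_num)))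
    (wadd (wmul hx5 hy4 hy3 2 (by norm_num)) (wmul hx5 hz3 hz4 2 (by norm_num)))
    (wadd (wmul hx5 hy4 hy2 3 (by norm_num)) (wmul hx5 hz2 hz4 3 (by norm_num)))
    (wadd (wmul hx5 hy4 hy1 4 (by norm_num)) (wmul hx5 hz1 hz4 4 (by norm_num)))
    (by
      rw [← hA0]
      conv_rhs => rw [← hys, ← hzs]
      noncomm_ring)
  have W1 := wlem h3 hx (a1 := y1 + z3 * z2) (a2 := y2 + z2 * z1)
    (a3 := y3 + z1 * z3) (a4 := y4 + z4)
    (wadd hy1 (wmul hx5 hz3 hz2 1 (by norm_num)))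
    (wadd hy2 (wmul hx5 hz2 hz1 2 (by norm_num)))
    (wadd hy3 (wmul hx5 hz1 hz3 3 (by norm_num)))
    (wadd hy4 hz4)
    (by
      rw [← hA1]
      conv_rhs => rw [← hys]
      abel)
  have W2 := wlem h3 hx (a1 := y1 * y1 + z2 * z3) (a2 := y1 * y2 + z1 * z2)
    (a3 := y1 * y3 + z3) (a4 := y1 * y4 + z4 * z1)
    (wadd (wmul hx5 hy1 hy1 1 (by norm_num)) (wmul hx5 hz2 hz3 1 (by norm_num)))
    (wadd (wmul hx5 hy1 hy2 2 (by norm_num)) (wmul hx5 hz1 hz2 2 (by norm_num)))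
    (wadd (wmul hx5 hy1 hy3 3 (by norm_num)) hz3)
    (wadd (wmul hx5 hy1 hy4 4 (by norm_num)) (wmul hx5 hz4 hz1 4 (by norm_num)))
    (by
      rw [← hA2]
      conv_rhs => rw [← hys]
      noncomm_ring)
  have W3 := wlem h3 hx (a1 := y2 * y3 + z1 * z1) (a2 := y2 * y1 + z2)
    (a3 := y2 * y4 + z4 * z2) (a4 := y2 * y2 + z3 * z3)
    (wadd (wmul hx5 hy2 hy3 1 (by norm_num)) (wmul hx5 hz1 hz1 1 (by norm_num)))
    (wadd (wmul hx5 hy2 hy1 2 (by norm_num)) hz2)
    (wadd (wmul hx5 hy2 hy4 3 (by norm_num)) (wmul hx5 hz4 hz2 3 (by norm_num)))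
    (wadd (wmul hx5 hy2 hy2 4 (by norm_num)) (wmul hx5 hz3 hz3 4 (by norm_num)))
    (by
      rw [← hA3]
      conv_rhs => rw [← hys]
      noncomm_ring)
  have W4 := wlem h3 hx (a1 := y3 * y2 + z1) (a2 := y3 * y4 + z4 * z3)
    (a3 := y3 * y1 + z3 * z1) (a4 := y3 * y3 + z2 * z2)
    (wadd (wmul hx5 hy3 hy2 1 (by norm_num)) (by simpa using hz1))
    (wadd (wmul hx5 hy3 hy4 2 (by norm_num)) (wmul hx5 hz4 hz3 2 (by norm_num)))
    (wadd (wmul hx5 hy3 hy1 3 (by norm_num)) (wmul hx5 hz3 hz1 3 (by norm_num)))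
    (wadd (wmul hx5 hy3 hy3 4 (by norm_num)) (wmul hx5 hz2 hz2 4 (by norm_num)))
    (by
      rw [← hA4]
      conv_rhs => rw [← hys]
      noncomm_ring)
  have c4 : z4 = - y4 := eq_neg_of_add_eq_zero_right W1.2.2.2
  have hz44 : y4 * y4 = 1 := by
    have h5 := W0.1
    rw [c4, neg_mul_neg] at h5
    have h6 : y4 * y4 = 3 * (y4 * y4) - (1 + y4 * y4 + y4 * y4) + 1 := by noncomm_ring
    rw [h6, h3, h5]
    simp
  refine ⟨c4, hz44, eq_neg_of_add_eq_zero_left W1.1, eq_neg_of_add_eq_zero_right W3.2.1,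
    eq_neg_of_add_eq_zero_right W2.2.2.1, eq_neg_of_add_eq_zero_right W4.1, ?_, ?_, ?_⟩
  · have h5 := W0.2.2.1
    rw [c4, mul_neg] at h5
    exact add_neg_eq_zero.1 h5
  · have h5 := W0.2.1
    rw [c4, mul_neg] at h5
    exact add_neg_eq_zero.1 h5
  · have h5 := W0.2.2.2
    rw [c4, mul_neg] at h5
    exact add_neg_eq_zero.1 h5

end H446.EY
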