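import Mathlib
import Pool.Agent.H446R9.EY.Comp
import Pool.Agent.H446R9.EY.Rels
import Pool.Agent.H446R9.EY.Contra

set_option autoImplicit false

namespace H446.EY

open Finset

theorem rj_comp_add {R : Type*} [Ring R] (x u v : R) (l : ℕ) :
    comp x (u + v) l = comp x u l + comp x v l := by
  unfold comp
  rw [← neg_add, ← Finset.sum_add_distrib]
  congr 1
  refine Finset.sum_congr rfl fun a _ => ?_
  rw [mul_add, add_mul]

theorem rj_pow5 {R : Type*} [Ring R] {x : R} (hx : ∑ k ∈ range 5, x ^ k = 0) : x ^ 5 = 1 := by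
  have h := mul_geom_sum x 5
  rw [hx, mul_zero] at h
  exact (sub_eq_zero.mp h.symm)

theorem rj_pow_mod {R : Type*} [Ring R] {x : R} (hx : ∑ k ∈ range 5, x ^ k = 0) (n m : ℕ)
    (h : n % 5 = m % 5) : x ^ n = x ^ m := by
  have h5 := rj_pow5 hx
  rw [← Nat.div_add_mod n 5, ← Nat.div_add_mod m 5, pow_add, pow_add, pow_mul, pow_mul, h5,
    one_pow, one_pow, h]

theorem rj_wt_pow {R : Type*} [Ring R] {x u : R} {i : ℕ} (hu : u * x = x ^ i * u) (n : ℕ) :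
    u * x ^ n = x ^ (i * n) * u := by
  induction n with
  | zero => simp
  | succ n ih => rw [pow_succ, ← mul_assoc, ih, mul_assoc, hu, ← mul_assoc, ← pow_add, mul_add,
      mul_one]

theorem rj_wt_mul {R : Type*} [Ring R] {x : R} (hx : ∑ k ∈ range 5, x ^ k = 0) {u v : R}
    {i j l : ℕ} (hu : u * x = x ^ i * u) (hv : v * x = x ^ j * v) (h : (i * j) % 5 = l % 5) :
    (u * v) * x = x ^ l * (u * v) := by
  rw [mul_assoc, hv, ← mul_assoc, rj_wt_pow hu, mul_assoc, rj_pow_mod hx _ _ h]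

theorem rj_wt_add {R : Type*} [Ring R] {x u v : R} {l : ℕ} (hu : u * x = x ^ l * u)
    (hv : v * x = x ^ l * v) : (u + v) * x = x ^ l * (u + v) := by
  rw [add_mul, hu, hv, mul_add]

/-- uniqueness of the components -/
theorem rj_comp_eq {R : Type*} [Ring R] (h3 : (3 : R) = 0) {x : R}
    (hx : ∑ k ∈ range 5, x ^ k = 0) {A1 A2 A4 A3 : R} (h1 : A1 * x = x ^ 1 * A1)
    (h2 : A2 * x = x ^ 2 * A2) (h4 : A4 * x = x ^ 4 * A4) (h3' : A3 * x = x ^ 3 * A3) :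
    comp x (A1 + A2 + A4 + A3) 1 = A1 ∧ comp x (A1 + A2 + A4 + A3) 2 = A2 ∧
    comp x (A1 + A2 + A4 + A3) 4 = A4 ∧ comp x (A1 + A2 + A4 + A3) 3 = A3 := by
  have e1 : ∀ l, l < 5 → comp x A1 l = if l = 1 then A1 else 0 := fun l hl =>
    comp_of h3 hx hl (by norm_num) h1
  have e2 : ∀ l, l < 5 → comp x A2 l = if l = 2 then A2 else 0 := fun l hl =>
    comp_of h3 hx hl (by norm_num) h2
  have e4 : ∀ l, l < 5 → comp x A4 l = if l = 4 then A4 else 0 := fun l hl =>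
    comp_of h3 hx hl (by norm_num) h4
  have e3 : ∀ l, l < 5 → comp x A3 l = if l = 3 then A3 else 0 := fun l hl =>
    comp_of h3 hx hl (by norm_num) h3'
  simp only [rj_comp_add]
  refine ⟨?_, ?_, ?_, ?_⟩
  · rw [e1 1 (by norm_num), e2 1 (by norm_num), e4 1 (by norm_num), e3 1 (by norm_num)]
    norm_num
  · rw [e1 2 (by norm_num), e2 2 (by norm_num), e4 2 (by norm_num), e3 2 (by norm_num)]
    norm_num
  · rw [e1 4 (by norm_num), e2 4 (by norm_num), e4 4 (by norm_num), e3 4 (by norm_num)]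
    norm_num
  · rw [e1 3 (by norm_num), e2 3 (by norm_num), e4 3 (by norm_num), e3 3 (by norm_num)]
    norm_num

/-- components of a product -/
theorem rj_comp_mul {R : Type*} [Ring R] (h3 : (3 : R) = 0) {x : R}
    (hx : ∑ k ∈ range 5, x ^ k = 0) {u1 u2 u4 u3 v1 v2 v4 v3 : R} (a1 : u1 * x = x ^ 1 * u1)
    (a2 : u2 * x = x ^ 2 * u2) (a4 : u4 * x = x ^ 4 * u4) (a3 : u3 * x = x ^ 3 * u3)
    (b1 : v1 * x = x ^ 1 * v1)
    (b2 : v2 * x = x ^ 2 * v2) (b4 : v4 * x = x ^ 4 * v4) (b3 : v3 * x = x ^ 3 * v3) :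
    comp x ((u1 + u2 + u4 + u3) * (v1 + v2 + v4 + v3)) 1 =
      u1 * v1 + u2 * v3 + u4 * v4 + u3 * v2 ∧
    comp x ((u1 + u2 + u4 + u3) * (v1 + v2 + v4 + v3)) 4 =
      u1 * v4 + u4 * v1 + u2 * v2 + u3 * v3 := by
  have key := rj_comp_eq h3 hx (A1 := u1 * v1 + u2 * v3 + u4 * v4 + u3 * v2)
    (A2 := u1 * v2 + u2 * v1 + u4 * v3 + u3 * v4) (A4 := u1 * v4 + u4 * v1 + u2 * v2 + u3 * v3)
    (A3 := u1 * v3 + u3 * v1 + u2 * v4 + u4 * v2)
    (rj_wt_add (rj_wt_add (rj_wt_add (rj_wt_mul hx a1 b1 rfl) (rj_wt_mul hx a2 b3 rfl))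
      (rj_wt_mul hx a4 b4 rfl)) (rj_wt_mul hx a3 b2 rfl))
    (rj_wt_add (rj_wt_add (rj_wt_add (rj_wt_mul hx a1 b2 rfl) (rj_wt_mul hx a2 b1 rfl))
      (rj_wt_mul hx a4 b3 rfl)) (rj_wt_mul hx a3 b4 rfl))
    (rj_wt_add (rj_wt_add (rj_wt_add (rj_wt_mul hx a1 b4 rfl) (rj_wt_mul hx a4 b1 rfl))
      (rj_wt_mul hx a2 b2 rfl)) (rj_wt_mul hx a3 b3 rfl))
    (rj_wt_add (rj_wt_add (rj_wt_add (rj_wt_mul hx a1 b3 rfl) (rj_wt_mul hx a3 b1 rfl))
      (rj_wt_mul hx a2 b4 rfl)) (rj_wt_mul hx a4 b2 rfl))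
  have hsum : (u1 + u2 + u4 + u3) * (v1 + v2 + v4 + v3) =
      (u1 * v1 + u2 * v3 + u4 * v4 + u3 * v2) + (u1 * v2 + u2 * v1 + u4 * v3 + u3 * v4) +
      (u1 * v4 + u4 * v1 + u2 * v2 + u3 * v3) + (u1 * v3 + u3 * v1 + u2 * v4 + u4 * v2) := by
    noncomm_ring
  rw [hsum]
  exact ⟨key.1, key.2.2.1⟩

/-- `x ^ d - 1` is injective for `d` prime to `5` -/
theorem rj_zero {R : Type*} [Ring R] (h3 : (3 : R) = 0) {x : R}
    (hx : ∑ k ∈ range 5, x ^ k = 0) {v : R} {d : ℕ} (hd : d % 5 ≠ 0) (hv : x ^ d * v = v) :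
    v = 0 := by
  have hk : ∀ k : ℕ, x ^ (d * k) * v = v := by
    intro k
    induction k with
    | zero => simp
    | succ k ih => rw [mul_add, mul_one, pow_add, mul_assoc, hv, ih]
  obtain ⟨k, hk1⟩ : ∃ k, (d * k) % 5 = 1 % 5 := by
    have : d % 5 = 1 ∨ d % 5 = 2 ∨ d % 5 = 3 ∨ d % 5 = 4 := by omega
    rcases this with h | h | h | h
    · exact ⟨1, by omega⟩
    · exact ⟨3, by omega⟩
    · exact ⟨2, by omega⟩
    · exact ⟨4, by omega⟩
  have h1 : x * v = v := by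
    have := hk k
    rwa [rj_pow_mod hx _ _ hk1, pow_one] at this
  have h2 : ∀ j : ℕ, x ^ j * v = v := by
    intro j
    induction j with
    | zero => simp
    | succ j ih => rw [pow_succ, mul_assoc, h1, ih]
  have h5 : (5 : R) * v = 0 := by
    have : (∑ k ∈ range 5, x ^ k) * v = ∑ k ∈ range 5, v := by
      rw [Finset.sum_mul]
      exact Finset.sum_congr rfl fun j _ => h2 j
    rw [hx, zero_mul] at this
    simp only [sum_const, card_range] at this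
    rw [this, nsmul_eq_mul]
    norm_num
  have h6 : (3 : R) * v = 0 := by rw [h3, zero_mul]
  have h7 : v = (3 : R) * v + (3 : R) * v - (5 : R) * v := by noncomm_ring
  rw [h7, h6, h5]
  simp

/-- RJ: Jabara's theorem in characteristic 3 -/
theorem ringJ {H R : Type*} [Group H] [Ring R] [Nontrivial R] (h3 : (3 : R) = 0) (φ : H →* R)
    (hφ : ∀ h : H, φ h = 1 ∨ ∑ k ∈ range 5, φ h ^ k = 0) {x : H} (hx : φ x ≠ 1) (y : H) :
    ∃ a : ℕ, a < 5 ∧ φ (x ^ a * y) = 1 := by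
  by_contra hcon
  push Not at hcon
  have hX : ∑ k ∈ range 5, φ x ^ k = 0 := (hφ x).resolve_left hx
  have hYZ : φ y * φ y⁻¹ = 1 := by rw [← map_mul, mul_inv_cancel, map_one]
  have hZY : φ y⁻¹ * φ y = 1 := by rw [← map_mul, inv_mul_cancel, map_one]
  have hN : ∀ a : ℕ, a < 5 → ∑ k ∈ range 5, (φ x ^ a * φ y) ^ k = 0 := by
    intro a ha
    rw [← map_pow, ← map_mul]
    exact (hφ _).resolve_left (hcon a ha)
  obtain ⟨q4, hqq, r0, r1, r3, r4, s1, s3, s0⟩ := rels_of_norm h3 hX hYZ hZY hN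
  have hY := comp_sum h3 hX (φ y)
  have hZ := comp_sum h3 hX (φ y⁻¹)
  have wy1 := comp_mul hX (φ y) (show 1 ≤ 5 by norm_num)
  have wy2 := comp_mul hX (φ y) (show 2 ≤ 5 by norm_num)
  have wy4 := comp_mul hX (φ y) (show 4 ≤ 5 by norm_num)
  have wy3 := comp_mul hX (φ y) (show 3 ≤ 5 by norm_num)
  have wz1 := comp_mul hX (φ y⁻¹) (show 1 ≤ 5 by norm_num)
  have wz2 := comp_mul hX (φ y⁻¹) (show 2 ≤ 5 by norm_num)
  have wz4 := comp_mul hX (φ y⁻¹) (show 4 ≤ 5 by norm_num)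
  have wz3 := comp_mul hX (φ y⁻¹) (show 3 ≤ 5 by norm_num)
  generalize hX0 : φ x = X at *
  generalize hY0 : φ y = Y at *
  generalize hZ0 : φ y⁻¹ = Z at *
  generalize hy1 : comp X Y 1 = y1 at *
  generalize hy2 : comp X Y 2 = y2 at *
  generalize hy4 : comp X Y 4 = q at *
  generalize hy3 : comp X Y 3 = y3 at *
  generalize hz1 : comp X Z 1 = z1 at *
  generalize hz2 : comp X Z 2 = z2 at *
  generalize hz4 : comp X Z 4 = z4 at *
  generalize hz3 : comp X Z 3 = z3 at *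
  have hqz : q * z1 = y1 * q := by
    have h1 : q * (q * y1) * q = q * (z1 * q) * q := by rw [s0]
    calc q * z1 = q * z1 * (q * q) := by rw [hqq, mul_one]
      _ = q * (z1 * q) * q := by noncomm_ring
      _ = q * (q * y1) * q := h1.symm
      _ = (q * q) * y1 * q := by noncomm_ring
      _ = y1 * q := by rw [hqq, one_mul]
  have hone := rj_comp_eq h3 hX (A1 := 1) (A2 := 0) (A4 := 0) (A3 := 0) (by simp) (by simp)
    (by simp) (by simp)
  simp only [add_zero] at hone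
  have hprod := rj_comp_mul h3 hX wy1 wy2 wy4 wy3 wz1 wz2 wz4 wz3
  rw [hY, hZ, hYZ, hone.1, hone.2.2.1] at hprod
  obtain ⟨p1, p4⟩ := hprod
  have d2 : y2 * z2 + y3 * z3 = 0 := by
    rw [q4, hqz] at p4
    rw [p4]
    noncomm_ring
  have d0 : y1 * z1 + y2 * z3 - q * q + y3 * z2 = 1 := by
    rw [q4] at p1
    rw [p1]
    noncomm_ring
  refine final_contra h3 hX (y0 := y1) (y1 := y2) (q := q) (y3 := y3) (z0 := z1) (z1 := z2)
    (z3 := z3) (by rwa [pow_one] at wy1) wy2 wy4 wy3 (by rwa [pow_one] at wz1) wz2 wz3 hqq r0 r1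
    r3 r4 s1 s3 s0 d2 d0 ?_
  intro b hb
  -- the element `w = y x ^ b y⁻¹`
  have hW0 : φ (y * x ^ b * y⁻¹) = Y * X ^ b * Z := by
    rw [map_mul, map_mul, map_pow, hX0, hY0, hZ0]
  have hW1 : φ (y * x ^ b * y⁻¹) * φ (y * x ^ b * y⁻¹)⁻¹ = 1 := by
    rw [← map_mul, mul_inv_cancel, map_one]
  have hW2 : φ (y * x ^ b * y⁻¹)⁻¹ * φ (y * x ^ b * y⁻¹) = 1 := by
    rw [← map_mul, inv_mul_cancel, map_one]
  have hNW : ∀ a : ℕ, a < 5 → ∑ k ∈ range 5, (X ^ a * φ (y * x ^ b * y⁻¹)) ^ k = 0 := by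
    intro a ha
    have hpow : φ (x ^ a * (y * x ^ b * y⁻¹)) = X ^ a * φ (y * x ^ b * y⁻¹) := by
      rw [map_mul, map_pow, hX0]
    rw [← hpow]
    refine (hφ _).resolve_left fun h1 => ?_
    rw [hpow, hW0] at h1
    have h2 : X ^ a * Y * X ^ b = Y := by
      calc X ^ a * Y * X ^ b = X ^ a * (Y * X ^ b * Z) * Y := by
            calc X ^ a * Y * X ^ b = X ^ a * Y * X ^ b * (Z * Y) := by rw [hZY, mul_one]
              _ = X ^ a * (Y * X ^ b * Z) * Y := by noncomm_ring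
        _ = Y := by rw [h1, one_mul]
    -- the components
    have hXc : ∀ n : ℕ, Commute X (X ^ n) := fun n => Commute.self_pow X n
    have hwt : ∀ (l : ℕ) (v : R), v * X = X ^ l * v →
        (X ^ a * v * X ^ b) * X = X ^ l * (X ^ a * v * X ^ b) ∧
        X ^ a * v * X ^ b = X ^ (a + l * b) * v := by
      intro l v hv
      have e1 : X ^ a * v * X ^ b = X ^ (a + l * b) * v := by
        rw [mul_assoc, rj_wt_pow hv, ← mul_assoc, ← pow_add]
      refine ⟨?_, e1⟩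
      rw [e1, mul_assoc, hv, ← mul_assoc, ← mul_assoc, ← pow_add, ← pow_add, add_comm]
    have h3c := rj_comp_eq h3 hX (hwt 1 y1 wy1).1 (hwt 2 y2 wy2).1 (hwt 4 q wy4).1
      (hwt 3 y3 wy3).1
    have hs : X ^ a * y1 * X ^ b + X ^ a * y2 * X ^ b + X ^ a * q * X ^ b + X ^ a * y3 * X ^ b =
        Y := by
      rw [← h2, ← hY]
      noncomm_ring
    rw [hs, hy1, hy2, hy4, hy3, (hwt 1 y1 wy1).2, (hwt 2 y2 wy2).2, (hwt 4 q wy4).2,
      (hwt 3 y3 wy3).2] at h3c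
    obtain ⟨c1, c2, c4, c3⟩ := h3c
    have h10 : (1 : R) ≠ 0 := one_ne_zero
    by_cases hab : a = b
    · have z1' : y1 = 0 := rj_zero h3 hX (d := a + 1 * b) (by omega) c1.symm
      have z2' : y2 = 0 := rj_zero h3 hX (d := a + 2 * b) (by omega) c2.symm
      have z3' : y3 = 0 := rj_zero h3 hX (d := a + 3 * b) (by omega) c3.symm
      rw [z1', z2', z3'] at hY
      have hz1' : z1 = 0 := by rw [r4, z3', zero_mul, neg_zero]
      have hz2' : z2 = 0 := by rw [r1, z2', zero_mul, neg_zero]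
      have hz3' : z3 = 0 := by rw [r3, z1', zero_mul, neg_zero]
      rw [hz1', hz2', hz3', q4] at hZ
      rw [← hY, ← hZ] at hYZ
      simp only [zero_add, add_zero, mul_neg, hqq] at hYZ
      apply h10
      calc (1 : R) = 3 - (1 + 1) := by norm_num
        _ = 3 - (-1 + 1) := by rw [hYZ]
        _ = 0 := by rw [h3]; simp
    · have z4' : q = 0 := rj_zero h3 hX (d := a + 4 * b) (by omega) c4.symm
      rw [z4', zero_mul] at hqq
      exact h10 hqq.symm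
  obtain ⟨-, hqq', -⟩ := rels_of_norm h3 hX hW1 hW2 hNW
  have hwt : ∀ (l : ℕ) (v : R), v * X = X ^ l * v → (X ^ b * v) * X = X ^ l * (X ^ b * v) := by
    intro l v hv
    rw [mul_assoc, hv, ← mul_assoc, ← mul_assoc, ← pow_add, ← pow_add, add_comm]
  have hprod := (rj_comp_mul h3 hX wy1 wy2 wy4 wy3 (hwt 1 z1 wz1) (hwt 2 z2 wz2) (hwt 4 z4 wz4)
    (hwt 3 z3 wz3)).2
  have hs : (y1 + y2 + q + y3) * (X ^ b * z1 + X ^ b * z2 + X ^ b * z4 + X ^ b * z3) =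
      φ (y * x ^ b * y⁻¹) := by
    rw [hW0, hY, ← hZ]
    noncomm_ring
  rw [hs] at hprod
  have e : comp X (φ (y * x ^ b * y⁻¹)) 4 =
      (-((X ^ b - X ^ (4 * b)) * (y1 * q)) + (X ^ (2 * b) - X ^ (3 * b)) * (y2 * z2)) := by
    have d2' : y3 * z3 = -(y2 * z2) := eq_neg_of_add_eq_zero_right d2
    rw [hprod, q4, ← mul_assoc y1, ← mul_assoc q, ← mul_assoc y2, ← mul_assoc y3,
      rj_wt_pow wy1, rj_wt_pow wy2, rj_wt_pow wy4, rj_wt_pow wy3, one_mul,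
      mul_assoc (X ^ (4 * b)), hqz, mul_assoc (X ^ (3 * b)), d2']
    noncomm_ring
  rw [← e]
  exact hqq'

end H446.EY
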