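import Pool.Agent.H446R9.EY.Cen
import Pool.Agent.H446R9.EY.Act3
import Pool.Agent.H446R9.EY.RingJ

set_option autoImplicit false

namespace H446.EY

open Finset

universe u

/-- the subgroup of the elements of order dividing 3 -/
private def FF {T : Type*} [Group T]
    (hF : ∀ s t : T, s ^ 3 = 1 → t ^ 3 = 1 → (s * t) ^ 3 = 1) : Subgroup T where
  carrier := {s | s ^ 3 = 1}
  mul_mem' := fun {a b} ha hb => hF a b ha hb
  one_mem' := one_pow 3
  inv_mem' := fun {a} ha => by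
    show a⁻¹ ^ 3 = 1
    rw [inv_pow, show a ^ 3 = 1 from ha, inv_one]

private theorem conj3 {T : Type*} [Group T] {s : T} (h : s ^ 3 = 1) (g : T) :
    (g * s * g⁻¹) ^ 3 = 1 := by
  rw [conj_pow, h, mul_one, mul_inv_cancel]

/-- the centre of the subgroup of the elements of order dividing 3 -/
private def VV {T : Type*} [Group T]
    (hF : ∀ s t : T, s ^ 3 = 1 → t ^ 3 = 1 → (s * t) ^ 3 = 1) : Subgroup T where
  carrier := {v | v ^ 3 = 1 ∧ ∀ f : T, f ^ 3 = 1 → v * f = f * v}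
  mul_mem' := fun {a b} ha hb => ⟨hF a b ha.1 hb.1, fun f hf => by
    rw [mul_assoc, hb.2 f hf, ← mul_assoc, ha.2 f hf, mul_assoc]⟩
  one_mem' := ⟨one_pow 3, fun f _ => by rw [one_mul, mul_one]⟩
  inv_mem' := fun {a} ha => ⟨by rw [inv_pow, ha.1, inv_one], fun f hf => by
    have h := ha.2 f hf
    rw [inv_mul_eq_iff_eq_mul, ← mul_assoc, h, mul_assoc, mul_inv_cancel, mul_one]⟩

private theorem VV_normal {T : Type*} [Group T]
    (hF : ∀ s t : T, s ^ 3 = 1 → t ^ 3 = 1 → (s * t) ^ 3 = 1) : (VV hF).Normal := by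
  refine ⟨fun v hv g => ⟨conj3 hv.1 g, fun f hf => ?_⟩⟩
  have h1 : (g⁻¹ * f * g) ^ 3 = 1 := by
    have := conj3 hf g⁻¹
    rwa [inv_inv] at this
  have h2 := hv.2 _ h1
  calc g * v * g⁻¹ * f = g * (v * (g⁻¹ * f * g)) * g⁻¹ := by group
    _ = g * ((g⁻¹ * f * g) * v) * g⁻¹ := by rw [h2]
    _ = f * (g * v * g⁻¹) := by group

/-- ST: structure, from `stage1`, `center3`, `exists_ring3`, `ringJ` -/
theorem struct53 {T : Type*} [Group T] (hT : ∀ g : T, g ^ 3 = 1 ∨ g ^ 5 = 1)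
    (hF : ∀ s t : T, s ^ 3 = 1 → t ^ 3 = 1 → (s * t) ^ 3 = 1) {s0 : T} (h0 : s0 ≠ 1)
    (h0' : s0 ^ 3 = 1) :
    ∃ F : Subgroup T, F.Normal ∧ (∀ s : T, s ∈ F ↔ s ^ 3 = 1) ∧ (F.index = 1 ∨ F.index = 5) := by
  have hFm : ∀ s : T, s ∈ FF hF ↔ s ^ 3 = 1 := fun s => Iff.rfl
  have hFn : (FF hF).Normal := ⟨fun s hs g => conj3 hs g⟩
  refine ⟨FF hF, hFn, hFm, ?_⟩
  have := VV_normal hF
  have hVm : ∀ v : T, v ∈ VV hF ↔ (v ^ 3 = 1 ∧ ∀ f : T, f ^ 3 = 1 → v * f = f * v) :=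
    fun v => Iff.rfl
  have hne : VV hF ≠ ⊥ := by
    obtain ⟨z, hz, hzc⟩ := center3 (F := FF hF) (fun x => Subtype.ext x.2)
      (x0 := ⟨s0, h0'⟩) (fun h => h0 (congrArg Subtype.val h))
    intro hb
    have h1 : (z : T) ∈ VV hF := ⟨z.2, fun f hf => congrArg Subtype.val (hzc ⟨f, hf⟩)⟩
    rw [hb, Subgroup.mem_bot] at h1
    exact hz (Subtype.ext h1)
  obtain ⟨R, _, _, φ, h3, hφ1, hφ2⟩ := exists_ring3 (VV hF) (fun v hv => hv.1)
    (fun v hv w hw => hv.2 w hw.1) hne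
  have hin : ∀ w : T, w ∈ FF hF → φ w = 1 := fun w hw =>
    hφ1 w (fun v hv => (hv.2 w hw).symm)
  have hout : ∀ w : T, w ∉ FF hF → ∑ k ∈ range 5, φ w ^ k = 0 := by
    intro w hw
    refine hφ2 w 5 fun v hv => ?_
    rcases hT (v * w) with h | h
    · exfalso
      apply hw
      have h1 : v⁻¹ * (v * w) ∈ FF hF :=
        (FF hF).mul_mem ((FF hF).inv_mem hv.1) h
      rwa [inv_mul_cancel_left] at h1
    · exact h
  have hone : ∀ w : T, φ w = 1 → w ∈ FF hF := by
    intro w hw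
    by_contra hn
    have h1 := hout w hn
    rw [hw] at h1
    simp only [one_pow, Finset.sum_const, Finset.card_range, nsmul_eq_mul, mul_one] at h1
    have h5 : (5 : R) = 0 := by exact_mod_cast h1
    have h2 : (1 : R) = 2 * 3 - 5 := by norm_num
    rw [h3, h5] at h2
    simp at h2
  by_cases htop : FF hF = ⊤
  · left
    rw [htop, Subgroup.index_top]
  · right
    obtain ⟨x, hx⟩ : ∃ x : T, x ∉ FF hF := by
      by_contra hc
      push Not at hc
      exact htop (eq_top_iff.2 fun y _ => hc y)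
    have hφx : φ x ≠ 1 := fun h => hx (hone x h)
    have hJ := fun y : T => ringJ h3 φ (fun h => by
      by_cases hh : h ∈ FF hF
      · exact Or.inl (hin h hh)
      · exact Or.inr (hout h hh)) hφx y
    have hx5 : x ^ 5 = 1 := by
      rcases hT x with h | h
      · exact absurd h hx
      · exact h
    have := hFn
    have : Fact (Nat.Prime 5) := ⟨by norm_num⟩
    have hord : orderOf (QuotientGroup.mk x : T ⧸ FF hF) = 5 := by
      apply orderOf_eq_prime
      · rw [← QuotientGroup.mk_pow, hx5, QuotientGroup.mk_one]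
      · intro h
        exact hx ((QuotientGroup.eq_one_iff x).1 h)
    have hall : ∀ y : T ⧸ FF hF, y ∈ Subgroup.zpowers (QuotientGroup.mk x : T ⧸ FF hF) := by
      intro y
      obtain ⟨y, rfl⟩ := QuotientGroup.mk_surjective y
      obtain ⟨a, -, ha⟩ := hJ y
      have h1 := hone _ ha
      have h2 : (QuotientGroup.mk (x ^ a * y) : T ⧸ FF hF) = 1 := (QuotientGroup.eq_one_iff _).2 h1
      rw [QuotientGroup.mk_mul, QuotientGroup.mk_pow] at h2
      have h3 : (QuotientGroup.mk y : T ⧸ FF hF) = ((QuotientGroup.mk x : T ⧸ FF hF) ^ a)⁻¹ :=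
        (inv_eq_of_mul_eq_one_right h2).symm
      rw [h3]
      exact Subgroup.inv_mem _ (Subgroup.pow_mem _ (Subgroup.mem_zpowers _) a)
    rw [Subgroup.index, ← orderOf_eq_card_of_forall_mem_zpowers hall, hord]

end H446.EY
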