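import Mathlib
import Pool.Agent.H446R9.EY.FinCore
import Pool.Agent.H446R9.EY.Clo
import Pool.Agent.H446R9.EY.Stage1
import Pool.Agent.H446R9.EY.Str
import Pool.Agent.H446R9.EY.Lf

namespace H446.EY

theorem main53 {G : Type*} [Group G]
    (hG : ∀ a b : G, a ^ 5 = 1 → b ^ 5 = 1 → (a * b) ^ 3 = 1 ∨ (a * b) ^ 5 = 1) :
    (∀ g ∈ Subgroup.closure {x : G | x ^ 5 = 1}, g ^ 3 = 1 ∨ g ^ 5 = 1) ∧
    ((∀ a b : G, a ^ 5 = 1 → b ^ 5 = 1 → (a * b) ^ 5 = 1) ∨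
      ((∃ F : Subgroup G, F.Normal ∧ F ≤ Subgroup.closure {x : G | x ^ 5 = 1} ∧
          F.relIndex (Subgroup.closure {x : G | x ^ 5 = 1}) = 5 ∧ ∀ s ∈ F, s ^ 3 = 1) ∧
        (∀ K : Subgroup G, K.FG → K ≤ Subgroup.closure {x : G | x ^ 5 = 1} → Finite K) ∧
        ∀ K : Subgroup G, K.FG → (∀ g ∈ K, g ^ 15 = 1) → Finite K)) :=
  main53_of hG (closure53 hG) (fun hT hgen => stage1 hT hgen)
    (fun hT hF _ h0 h0' => struct53 hT hF h0 h0') (fun F hF hi => locFin53 F hF hi) ext15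

end H446.EY
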