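import Mathlib
import Pool.Agent.H15R2.TC3

/-!
Coset enumeration over a subgroup: the Todd-Coxeter machine of `Pool.Agent.H15R2.TC3`, with the scans of
words of a subgroup `H` at the first coset, and its soundness (the table describes the action on the
right translates of `H`).
-/

set_option autoImplicit false

namespace H446.TCS

open H15.TC

/-- right translation of sets -/
def act {G : Type*} [Group G] (S : Set G) (g : G) : Set G := (fun x => x * g) '' S

theorem act_one {G : Type*} [Group G] (S : Set G) : act S 1 = S := by
  unfold act; simp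

theorem act_mul {G : Type*} [Group G] (S : Set G) (g h : G) :
    act S (g * h) = act (act S g) h := by
  unfold act
  rw [Set.image_image]
  congr 1
  funext x
  exact (mul_assoc x g h).symm

theorem act_inv_cancel {G : Type*} [Group G] (S : Set G) (g : G) :
    act (act S g) g⁻¹ = S := by
  rw [← act_mul, mul_inv_cancel, act_one]

/-- the checker -/
noncomputable def checkS (rels subs : List (List ℕ)) (defs scs : List ℕ) (goal : List ℕ) : Bool :=
  forceT (build (unpack defs) 1 .nil) fun T0 =>
    forceT (scans subs (List.range subs.length) T0) fun T1 =>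
      forceT (scans rels (unpack scs) T1) fun T =>
        match fwd T goal 0 with
        | (0, []) => true
        | _ => false

section sound

set_option linter.unusedSectionVars false

variable {G : Type*} [Group G]

variable (gen : ℕ → G) (val : ℕ → Set G)

/-- the table is correct -/
def Inv (T : Tr) : Prop :=
  (∀ c g d, nx T c g = d + 1 → act (val c) (lv gen g) = val d) ∧
    (∀ c u, pa T c = u + 1 → val c = val u)

variable {gen val}

theorem Inv.setE {T : Tr} (h : Inv gen val T) {c g v : ℕ} (hv : act (val c) (lv gen g) = val v) :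
    Inv gen val (setE T c g (v + 1)) := by
  refine ⟨?_, ?_⟩
  · intro c' g' d hd
    rcases nx_setE T c g (v + 1) c' g' with h1 | ⟨rfl, rfl, h3⟩
    · exact h.1 c' g' d (by rw [← h1]; exact hd)
    · have : d = v := by rw [h3] at hd; omega
      rw [this]; exact hv
  · intro c' u hu
    rw [pa_setE] at hu
    exact h.2 c' u hu

theorem Inv.setP {T : Tr} (h : Inv gen val T) {c v : ℕ} (hv : val c = val v) :
    Inv gen val (setP T c (v + 1)) := by
  refine ⟨?_, ?_⟩
  · intro c' g' d hd
    rw [nx_setP] at hd
    exact h.1 c' g' d hd
  · intro c' d hd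
    rcases pa_setP T c (v + 1) c' with h1 | ⟨rfl, h3⟩
    · exact h.2 c' d (by rw [← h1]; exact hd)
    · have : d = v := by rw [h3] at hd; omega
      rw [this]; exact hv

theorem rep_val {T : Tr} (h : Inv gen val T) (f : ℕ) : ∀ c, val (rep T f c) = val c := by
  induction f with
  | zero => intro c; rfl
  | succ f ih =>
    intro c
    show val (Nat.rec (motive := fun _ => ℕ) c (fun u _ => rep T f u) (pa T c)) = val c
    cases hc : pa T c with
    | zero => rfl
    | succ u =>
      show val (rep T f u) = val c
      rw [ih u]; exact (h.2 c u hc).symm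

theorem fwd_val {T : Tr} (h : Inv gen val T) (w : List ℕ) :
    ∀ c, act (val c) (ev gen w) = act (val (fwd T w c).1) (ev gen (fwd T w c).2) := by
  induction w with
  | nil => intro c; rfl
  | cons g w ih =>
    intro c
    show act (val c) (ev gen (g :: w)) = act (val (Nat.rec (motive := fun _ => ℕ × List ℕ)
      (c, g :: w)
      (fun d _ => force (rep T (nat_lit 4096) d) (fwd T w)) (nx T c g)).1) (ev gen (Nat.rec
      (motive := fun _ => ℕ × List ℕ) (c, g :: w)
      (fun d _ => force (rep T (nat_lit 4096) d) (fwd T w)) (nx T c g)).2)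
    cases hc : nx T c g with
    | zero => rfl
    | succ d =>
      show act (val c) (ev gen (g :: w)) =
        act (val (force (rep T (nat_lit 4096) d) (fwd T w)).1)
        (ev gen (force (rep T (nat_lit 4096) d) (fwd T w)).2)
      rw [force_eq, ← ih, rep_val h, ev_cons, act_mul, h.1 c g d hc]

/-- the queue is correct -/
def InvQ (val : ℕ → Set G) (q : List (ℕ × ℕ)) : Prop := ∀ p ∈ q, val p.1 = val p.2

theorem rows_inv {u v : ℕ} (huv : val u = val v) (gs : List ℕ) :
    ∀ (T : Tr) (q : List (ℕ × ℕ)), Inv gen val T → InvQ val q →
      Inv gen val (rows u v gs T q).1 ∧ InvQ val (rows u v gs T q).2 := by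
  induction gs with
  | nil => intro T q hT hq; exact ⟨hT, hq⟩
  | cons g gs ih =>
    intro T q hT hq
    rcases hv : nx T v g with _ | w
    · rw [rows_cons0 hv]; exact ih T q hT hq
    · rcases hu : nx T u g with _ | z
      · rw [rows_cons1 hv hu]
        refine ih _ q (hT.setE ?_) hq
        rw [huv]; exact hT.1 v g w hv
      · rw [rows_cons2 hv hu]
        refine ih T _ hT ?_
        intro p hp
        rcases List.mem_cons.mp hp with rfl | hp
        · show val z = val w
          rw [← hT.1 v g w hv, ← hT.1 u g z hu, huv]
        · exact hq p hp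

theorem mergeq_inv (f : ℕ) : ∀ (q : List (ℕ × ℕ)) (T : Tr), Inv gen val T →
    InvQ val q → Inv gen val (mergeq f q T) := by
  induction f with
  | zero => intro q T hT _; cases q <;> exact hT
  | succ f ih =>
    intro q T hT hq
    cases q with
    | nil => exact hT
    | cons p q =>
      simp only [mergeq, force_eq, setPK_eq]
      have hq' : InvQ val q := fun p hp => hq p (List.mem_cons_of_mem _ hp)
      have hab : val (rep T (nat_lit 4096) p.1) = val (rep T (nat_lit 4096) p.2) := by
        rw [rep_val hT, rep_val hT]; exact hq p List.mem_cons_self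
      cases Nat.beq (rep T (nat_lit 4096) p.1) (rep T (nat_lit 4096) p.2) with
      | true => exact ih q T hT hq'
      | false =>
        cases Nat.ble (Nat.succ (rep T (nat_lit 4096) p.1)) (rep T (nat_lit 4096) p.2) with
        | true =>
          have h := rows_inv (gen := gen) hab [0, 1, 2, 3, 4, 5] T q hT hq'
          exact ih _ _ (h.1.setP hab.symm) h.2
        | false =>
          have h := rows_inv (gen := gen) hab.symm [0, 1, 2, 3, 4, 5] T q hT hq'
          exact ih _ _ (h.1.setP hab) h.2

theorem InvQ.single {a b : ℕ} (h : val a = val b) : InvQ val [(a, b)] := by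
  intro p hp
  rw [List.mem_singleton.mp hp]; exact h

theorem scan1_inv {r : List ℕ} (c : ℕ) (hr : act (val c) (ev gen r) = val c) {T : Tr}
    (hT : Inv gen val T) : Inv gen val (scan1 r c T) := by
  unfold scan1
  rw [resK_eq]
  simp only [fwdF_eq]
  have h1 := fwd_val hT r (rep T (nat_lit 4096) c)
  have h1' : val (rep T (nat_lit 4096) c) =
      act (val (fwd T r (rep T (nat_lit 4096) c)).1) (ev gen (fwd T r (rep T (nat_lit 4096) c)).2) := by
    rw [← h1, rep_val hT, hr]
  rcases h : fwd T r (rep T (nat_lit 4096) c) with ⟨a, w⟩
  rw [h] at h1'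
  cases w with
  | nil =>
    simp only [ev_nil, act_one] at h1'
    exact mergeq_inv _ _ _ hT (InvQ.single h1'.symm)
  | cons g w =>
    have h2 := fwd_val hT (irev (g :: w)) (rep T (nat_lit 4096) c)
    rw [ev_irev, h1'] at h2
    simp only [act_inv_cancel] at h2
    rcases h' : fwd T (irev (g :: w)) (rep T (nat_lit 4096) c) with ⟨b, v⟩
    rw [h'] at h2
    simp only at h2 ⊢
    rw [h']
    match v, h2 with
    | [], h2 =>
      simp only [ev_nil, act_one] at h2
      exact mergeq_inv _ _ _ hT (InvQ.single h2)
    | [k], h2 =>
      simp only [ev_cons, ev_nil, mul_one] at h2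
      simp only [setEK_eq]
      refine Inv.setE (hT.setE h2.symm) ?_
      rw [lv_inv, h2, act_inv_cancel]
    | _ :: _ :: _, _ => exact hT

theorem scans_inv {rels : List (List ℕ)} (hr : ∀ r ∈ rels, ev gen r = 1) (ss : List ℕ) :
    ∀ (T : Tr), Inv gen val T → Inv gen val (scans rels ss T) := by
  induction ss with
  | nil => intro T hT; exact hT
  | cons s ss ih =>
    intro T hT
    have h0 : ev gen (rels.getD (Nat.mod s (nat_lit 64)) []) = 1 := by
      by_cases hs : Nat.mod s (nat_lit 64) < rels.length
      · rw [List.getD_eq_getElem _ _ hs]; exact hr _ (List.getElem_mem hs)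
      · rw [List.getD_eq_default _ _ (by omega)]; rfl
    show Inv gen val (forceT _ _)
    rw [forceT_eq]
    exact ih _ (scan1_inv _ (by rw [h0, act_one]) hT)

theorem scans_inv0 {subs : List (List ℕ)} (hr : ∀ r ∈ subs, act (val 0) (ev gen r) = val 0)
    (ss : List ℕ) (hs : ∀ s ∈ ss, s < 64) :
    ∀ (T : Tr), Inv gen val T → Inv gen val (scans subs ss T) := by
  induction ss with
  | nil => intro T hT; exact hT
  | cons s ss ih =>
    intro T hT
    have h0 : act (val 0) (ev gen (subs.getD (Nat.mod s (nat_lit 64)) [])) = val 0 := by
      by_cases hs : Nat.mod s (nat_lit 64) < subs.length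
      · rw [List.getD_eq_getElem _ _ hs]; exact hr _ (List.getElem_mem hs)
      · rw [List.getD_eq_default _ _ (by omega)]; exact act_one _
    have h64 : Nat.div s (nat_lit 64) = 0 := Nat.div_eq_of_lt (hs s List.mem_cons_self)
    show Inv gen val (forceT _ _)
    rw [forceT_eq]
    refine ih (fun t ht => hs t (List.mem_cons_of_mem _ ht)) _ (scan1_inv _ ?_ hT)
    rw [h64]; exact h0

theorem build_inv (H : Set G) (ds : List ℕ) : ∀ (n : ℕ) (T : Tr), 0 < n →
    (∃ val : ℕ → Set G, val 0 = H ∧ Inv gen val T) →
    (∀ c g d, nx T c g = d + 1 → c < n ∧ d < n) → (∀ c, pa T c = 0) →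
    ∃ val : ℕ → Set G, val 0 = H ∧ Inv gen val (build ds n T) := by
  induction ds with
  | nil => intro n T _ h _ _; exact h
  | cons d ds ih =>
    intro n T hn ⟨val, h0, hT⟩ hf hp
    simp only [build, setEK_eq, force_eq]
    cases hd : Nat.ble (Nat.succ (Nat.div d (nat_lit 8))) n with
    | false =>
      refine ih (n + 1) T (by omega) ⟨val, h0, hT⟩ ?_ hp
      intro c g e he
      have := hf c g e he
      omega
    | true =>
      have hd' : Nat.div d (nat_lit 8) < n := Nat.le_of_ble_eq_true hd
      refine ih (n + 1) _ (by omega) ⟨Function.update val n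
        (act (val (Nat.div d (nat_lit 8))) (lv gen (Nat.mod d (nat_lit 8)))), ?_, ?_⟩ ?_ ?_
      · rw [Function.update_of_ne (by omega)]; exact h0
      · have hT' : Inv gen (Function.update val n
            (act (val (Nat.div d (nat_lit 8))) (lv gen (Nat.mod d (nat_lit 8))))) T := by
          refine ⟨?_, ?_⟩
          · intro c g e he
            have := hf c g e he
            rw [Function.update_of_ne (by omega), Function.update_of_ne (by omega)]
            exact hT.1 c g e he
          · intro c u hu
            rw [hp c] at hu; omega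
        refine Inv.setE (hT'.setE ?_) ?_
        · rw [Function.update_of_ne (Nat.ne_of_lt hd'), Function.update_self]
        · rw [Function.update_self, Function.update_of_ne (Nat.ne_of_lt hd'), lv_inv,
            act_inv_cancel]
      · intro c g e he
        rcases nx_setE (setE T (Nat.div d (nat_lit 8)) (Nat.mod d (nat_lit 8)) (Nat.succ n)) n
          (inv (Nat.mod d (nat_lit 8))) (Nat.succ (Nat.div d (nat_lit 8))) c g with
          h1 | ⟨rfl, rfl, h3⟩
        · rw [h1] at he
          rcases nx_setE T (Nat.div d (nat_lit 8)) (Nat.mod d (nat_lit 8)) (Nat.succ n) c g with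
            h1 | ⟨rfl, rfl, h3⟩
          · rw [h1] at he
            have := hf c g e he
            omega
          · rw [h3] at he; omega
        · rw [h3] at he; omega
      · intro c
        rw [pa_setE, pa_setE]; exact hp c

/-- **Soundness of the checker** -/
theorem checkS_sound {rels subs : List (List ℕ)} {defs scs goal : List ℕ}
    (h : checkS rels subs defs scs goal = true) (hl : subs.length ≤ 64)
    (hr : ∀ r ∈ rels, ev gen r = 1) (H : Subgroup G) (hs : ∀ r ∈ subs, ev gen r ∈ H) :
    ev gen goal ∈ H := by
  obtain ⟨val, h0, hT⟩ := build_inv (gen := gen) (H : Set G) (unpack defs) 1 .nil one_pos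
    ⟨fun _ => H, rfl, fun c g d hd => by rw [nx_nil] at hd; omega,
      fun _ _ _ => rfl⟩
    (by intro c g d hd; rw [nx_nil] at hd; omega) pa_nil
  unfold checkS at h
  rw [forceT_eq, forceT_eq, forceT_eq] at h
  have hact : ∀ g ∈ H, act (H : Set G) g = H := by
    intro g hg
    unfold act
    ext x
    constructor
    · rintro ⟨y, hy, rfl⟩
      exact H.mul_mem hy hg
    · intro hx
      exact ⟨x * g⁻¹, H.mul_mem hx (H.inv_mem hg), by simp⟩
  have hi := scans_inv0 (val := val) (subs := subs)
    (by intro r hr'; rw [h0]; exact hact _ (hs r hr')) (List.range subs.length)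
    (by intro s hs'; have := List.mem_range.mp hs'; omega) _ hT
  have hi := scans_inv (val := val) hr (unpack scs) _ hi
  have hw := fwd_val hi goal 0
  rcases hf : fwd (scans rels (unpack scs) (scans subs (List.range subs.length)
    (build (unpack defs) 1 Tr.nil))) goal 0 with ⟨a, w⟩
  rw [hf] at h hw
  match a, w, h, hw with
  | 0, [], _, hw =>
    simp only [ev_nil, act_one] at hw
    rw [h0] at hw
    have : (1 : G) * ev gen goal ∈ act (H : Set G) (ev gen goal) := ⟨1, H.one_mem, rfl⟩
    rw [hw, one_mul] at this
    exact this
  | 0, _ :: _, h, _ => exact absurd h (by simp)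
  | _ + 1, [], h, _ => exact absurd h (by simp)
  | _ + 1, _ :: _, h, _ => exact absurd h (by simp)

end sound

end H446.TCS
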