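import Mathlib
import Pool.Agent.H446R9.EY.TCS

/-!
Case trees on top of the checker for coset enumerations over subgroups: at a node, the cube or the
fifth power of a word of the list `ws` is added to the relators.
-/

set_option autoImplicit false

namespace H446.TCS

open H15.TC

/-- power of a word -/
def pw (w : List ℕ) : ℕ → List ℕ
  | 0 => []
  | n + 1 => w ++ pw w n

/-- case trees -/
inductive OKW (lf : List (List (List ℕ) × List ℕ)) (ws : List (List ℕ)) :
    List (List ℕ) → Prop where
  | leaf (rels subs : List (List ℕ)) (goal d s : List ℕ)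
      (hm : lf.contains (subs, goal) = true) (h : checkS rels subs d s goal = true) :
      OKW lf ws rels
  | node (rels ra rb : List (List ℕ)) (w : List ℕ) (hw : ws.contains w = true)
      (ha : rels ++ [pw w 3] = ra) (hb : rels ++ [pw w 5] = rb)
      (ta : OKW lf ws ra) (tb : OKW lf ws rb) : OKW lf ws rels

variable {G : Type*} [Group G] {gen : ℕ → G}

theorem ev_pw (w : List ℕ) (n : ℕ) : ev gen (pw w n) = ev gen w ^ n := by
  induction n with
  | zero => simp [pw]
  | succ n ih => rw [pw, ev_append, ih, pow_succ']

theorem okw_sound {lf : List (List (List ℕ) × List ℕ)} {ws : List (List ℕ)}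
    (hlf : ∀ p ∈ lf, p.1.length ≤ 64)
    (hws : ∀ w ∈ ws, ev gen w ^ 3 = 1 ∨ ev gen w ^ 5 = 1) {rels : List (List ℕ)}
    (t : OKW lf ws rels) (hr : ∀ r ∈ rels, ev gen r = 1) :
    ∃ p ∈ lf, ∀ H : Subgroup G, (∀ r ∈ p.1, ev gen r ∈ H) → ev gen p.2 ∈ H := by
  induction t with
  | leaf rels subs goal d s hm h =>
    have hm' : (subs, goal) ∈ lf := by simpa using hm
    exact ⟨(subs, goal), hm', fun H hs => checkS_sound h (hlf _ hm') hr H hs⟩
  | node rels ra rb w hw ha hb _ _ iha ihb =>
    have hw' : w ∈ ws := by simpa using hw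
    rcases hws w hw' with h5 | h5
    · refine iha ?_
      rw [← ha]
      intro r hr'
      rcases List.mem_append.mp hr' with h6 | h6
      · exact hr r h6
      · rw [List.mem_singleton.mp h6, ev_pw]; exact h5
    · refine ihb ?_
      rw [← hb]
      intro r hr'
      rcases List.mem_append.mp hr' with h6 | h6
      · exact hr r h6
      · rw [List.mem_singleton.mp h6, ev_pw]; exact h5

end H446.TCS
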