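import Mathlib

set_option autoImplicit false

/-!
Project EY (MP_544bd1_al, exponent 15).  `G` a group in which the product of any two elements of order dividing
5 has order dividing 3 or 5.
-/

namespace H446.EY

open Finset

universe u

/-! ### the grading by the powers of `x` (char 3, `∑_{k<5} x^k = 0`) -/

/-- the component of weight `l` of `u` (`comp x u l * x = x ^ l * comp x u l`) -/
def comp {R : Type*} [Ring R] (x u : R) (l : ℕ) : R :=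
  -∑ a ∈ range 5, x ^ ((5 - l) * a) * u * x ^ a

/-- RA1 -/
theorem comp_mul {R : Type*} [Ring R] {x : R} (hx : ∑ k ∈ range 5, x ^ k = 0) (u : R) {l : ℕ}
    (hl : l ≤ 5) : comp x u l * x = x ^ l * comp x u l := by
  sorry

/-- RA2 -/
theorem comp_sum {R : Type*} [Ring R] (h3 : (3 : R) = 0) {x : R}
    (hx : ∑ k ∈ range 5, x ^ k = 0) (u : R) :
    comp x u 1 + comp x u 2 + comp x u 4 + comp x u 3 = u := by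
  sorry

/-- RA3 -/
theorem comp_of {R : Type*} [Ring R] (h3 : (3 : R) = 0) {x : R}
    (hx : ∑ k ∈ range 5, x ^ k = 0) {v : R} {l m : ℕ} (hl : l < 5) (hm : m < 5)
    (hv : v * x = x ^ m * v) : comp x v l = if l = m then v else 0 := by
  sorry

/-- RB: the relations between the components of `y` and `z = y⁻¹` -/
theorem rels_of_norm {R : Type*} [Ring R] (h3 : (3 : R) = 0) {x y z : R}
    (hx : ∑ k ∈ range 5, x ^ k = 0) (hyz : y * z = 1) (hzy : z * y = 1)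
    (hN : ∀ a : ℕ, a < 5 → ∑ k ∈ range 5, (x ^ a * y) ^ k = 0) :
    comp x z 4 = - comp x y 4 ∧ comp x y 4 * comp x y 4 = 1 ∧
    comp x y 1 = - (comp x z 3 * comp x z 2) ∧
    comp x z 2 = - (comp x y 2 * comp x y 1) ∧
    comp x z 3 = - (comp x y 1 * comp x y 3) ∧
    comp x z 1 = - (comp x y 3 * comp x y 2) ∧
    comp x y 4 * comp x y 2 = comp x z 2 * comp x y 4 ∧
    comp x y 4 * comp x y 3 = comp x z 3 * comp x y 4 ∧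
    comp x y 4 * comp x y 1 = comp x z 1 * comp x y 4 := by
  sorry

/-- RC: the final contradiction (the weight 1, 2, 4, 3 components of `y` are `y0 y1 q y3`) -/
theorem final_contra {R : Type*} [Ring R] [Nontrivial R] (h3 : (3 : R) = 0)
    {x y0 y1 q y3 z0 z1 z3 : R} (hx : ∑ k ∈ range 5, x ^ k = 0)
    (hy0 : y0 * x = x * y0) (hy1 : y1 * x = x ^ 2 * y1) (hq : q * x = x ^ 4 * q)
    (hy3 : y3 * x = x ^ 3 * y3)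
    (hz0 : z0 * x = x * z0) (hz1 : z1 * x = x ^ 2 * z1) (hz3 : z3 * x = x ^ 3 * z3)
    (hqq : q * q = 1) (r0 : y0 = -(z3 * z1)) (r1 : z1 = -(y1 * y0)) (r3 : z3 = -(y0 * y3))
    (r4 : z0 = -(y3 * y1)) (s1 : q * y1 = z1 * q) (s3 : q * y3 = z3 * q) (s0 : q * y0 = z0 * q)
    (d2 : y1 * z1 + y3 * z3 = 0) (d0 : y0 * z0 + y1 * z3 - q * q + y3 * z1 = 1)
    (hb : ∀ b : ℕ, b = 1 ∨ b = 2 →
      (-((x ^ b - x ^ (4 * b)) * (y0 * q)) + (x ^ (2 * b) - x ^ (3 * b)) * (y1 * z1)) *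
      (-((x ^ b - x ^ (4 * b)) * (y0 * q)) + (x ^ (2 * b) - x ^ (3 * b)) * (y1 * z1)) = 1) :
    False := by
  sorry

/-- RJ: Jabara's theorem in characteristic 3 -/
theorem ringJ {H R : Type*} [Group H] [Ring R] [Nontrivial R] (h3 : (3 : R) = 0) (φ : H →* R)
    (hφ : ∀ h : H, φ h = 1 ∨ ∑ k ∈ range 5, φ h ^ k = 0) {x : H} (hx : φ x ≠ 1) (y : H) :
    ∃ a : ℕ, a < 5 ∧ φ (x ^ a * y) = 1 := by
  sorry

/-! ### groups -/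

/-- AC: the ring of the conjugation action on an abelian normal subgroup of exponent 3 -/
theorem exists_ring3 {T : Type u} [Group T] (V : Subgroup T) [V.Normal]
    (hV : ∀ v ∈ V, v ^ 3 = 1) (hc : ∀ v ∈ V, ∀ w ∈ V, v * w = w * v) (hne : V ≠ ⊥) :
    ∃ (R : Type u) (_ : Ring R) (_ : Nontrivial R) (φ : T →* R), (3 : R) = 0 ∧
      (∀ w : T, (∀ v ∈ V, w * v = v * w) → φ w = 1) ∧
      ∀ (w : T) (p : ℕ), (∀ v ∈ V, (v * w) ^ p = 1) → ∑ k ∈ range p, φ w ^ k = 0 := by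
  sorry

/-- CE: groups of exponent 3 have nontrivial centre -/
theorem center3 {F : Type*} [Group F] (h : ∀ x : F, x ^ 3 = 1) {x0 : F} (hx0 : x0 ≠ 1) :
    ∃ z : F, z ≠ 1 ∧ ∀ y : F, z * y = y * z := by
  sorry

/-- ST: structure, from `stage1`, `center3`, `exists_ring3`, `ringJ` -/
theorem struct53 {T : Type*} [Group T] (hT : ∀ g : T, g ^ 3 = 1 ∨ g ^ 5 = 1)
    (hF : ∀ s t : T, s ^ 3 = 1 → t ^ 3 = 1 → (s * t) ^ 3 = 1) {s0 : T} (h0 : s0 ≠ 1)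
    (h0' : s0 ^ 3 = 1) :
    ∃ F : Subgroup T, F.Normal ∧ (∀ s : T, s ∈ F ↔ s ^ 3 = 1) ∧ (F.index = 1 ∨ F.index = 5) := by
  sorry

/-! ### certificates (proved by coset enumeration; helper446 does these) -/

theorem certI {G : Type*} [Group G]
    (hG : ∀ a b : G, a ^ 5 = 1 → b ^ 5 = 1 → (a * b) ^ 3 = 1 ∨ (a * b) ^ 5 = 1)
    {y s : G} (hy : y ^ 5 = 1) (hs : s ^ 3 = 1) (hys : (y * s) ^ 5 = 1) :
    (y ^ 2 * s) ^ 5 = 1 := by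
  sorry

theorem certII {G : Type*} [Group G] {a b : G} (ha : a ^ 5 = 1) (hb : b ^ 5 = 1)
    (h1 : (a * b) ^ 3 = 1) (h2 : (a * b ^ 2) ^ 3 = 1) (h3 : (a * b ^ 3) ^ 3 = 1)
    (h4 : (a * b ^ 4) ^ 3 = 1) : a = 1 ∧ b = 1 := by
  sorry

theorem certA {T : Type*} [Group T] (hT : ∀ g : T, g ^ 3 = 1 ∨ g ^ 5 = 1) {a b : T}
    (ha : a ^ 5 = 1) (hb : b ^ 3 = 1) (hab : (a * b) ^ 3 = 1) : (a ^ 2 * b) ^ 3 = 1 := by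
  sorry

theorem certD {T : Type*} [Group T] (hT : ∀ g : T, g ^ 3 = 1 ∨ g ^ 5 = 1) {a b : T}
    (ha : a ^ 3 = 1) (hb : b ^ 3 = 1) (h1 : (a * b) ^ 5 = 1) (h2 : (a⁻¹ * b) ^ 5 = 1) :
    a = 1 ∧ b = 1 := by
  sorry

theorem certH {T : Type*} [Group T] (hT : ∀ g : T, g ^ 3 = 1 ∨ g ^ 5 = 1) {a b : T}
    (ha : a ^ 5 = 1) (hb : b ^ 3 = 1) (h1 : (a * b) ^ 5 = 1) (h2 : (a ^ 2 * b) ^ 5 = 1)
    (h3 : (a⁻¹ * b) ^ 5 = 1) (h4 : (a⁻¹ ^ 2 * b) ^ 5 = 1)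
    (hk1 : ((b * (a⁻¹ * b * a)) ^ 3 = 1 ∧ (b⁻¹ * (a⁻¹ * b * a)) ^ 5 = 1) ∨
      ((b * (a⁻¹ * b * a)) ^ 5 = 1 ∧ (b⁻¹ * (a⁻¹ * b * a)) ^ 3 = 1))
    (hk2 : ((b * (a⁻¹ ^ 2 * b * a ^ 2)) ^ 3 = 1 ∧ (b⁻¹ * (a⁻¹ ^ 2 * b * a ^ 2)) ^ 5 = 1) ∨
      ((b * (a⁻¹ ^ 2 * b * a ^ 2)) ^ 5 = 1 ∧ (b⁻¹ * (a⁻¹ ^ 2 * b * a ^ 2)) ^ 3 = 1)) :
    b = 1 := by
  sorry

theorem certG1 {T : Type*} [Group T] (hT : ∀ g : T, g ^ 3 = 1 ∨ g ^ 5 = 1) {a b c : T}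
    (ha : a ^ 5 = 1) (hb : b ^ 3 = 1) (hc : c ^ 3 = 1) (hbc : b * c = c * b)
    (h1 : (a * b) ^ 3 = 1) (h2 : (a ^ 2 * b) ^ 3 = 1) (h3 : (a * c) ^ 3 = 1)
    (h4 : (a ^ 2 * c) ^ 3 = 1) : a = 1 ∨ c = 1 ∨ c = b ∨ c = b⁻¹ := by
  sorry

theorem certG3 {T : Type*} [Group T] {a b c : T}
    (ha : a ^ 5 = 1) (hb : b ^ 3 = 1) (hc : c ^ 3 = 1) (hbc : b * c = c * b)
    (h1 : (a * b) ^ 3 = 1) (h2 : (a ^ 2 * b) ^ 3 = 1)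
    (h3 : (a * c) ^ 5 = 1) (h4 : (a ^ 2 * c) ^ 5 = 1) (h5 : (a⁻¹ * c) ^ 5 = 1)
    (h6 : (a⁻¹ ^ 2 * c) ^ 5 = 1)
    (h7 : (c⁻¹ * (a⁻¹ * c * a)) ^ 3 = 1) (h8 : (c * (a⁻¹ * c * a)) ^ 3 = 1)
    (k1 : (a * (b * c)) ^ 5 = 1) (k2 : (a ^ 2 * (b * c)) ^ 5 = 1)
    (k3 : (a⁻¹ * (b * c)) ^ 5 = 1) (k4 : (a⁻¹ ^ 2 * (b * c)) ^ 5 = 1)
    (l1 : (a * (b * c⁻¹)) ^ 5 = 1) (l2 : (a ^ 2 * (b * c⁻¹)) ^ 5 = 1)
    (l3 : (a⁻¹ * (b * c⁻¹)) ^ 5 = 1) (l4 : (a⁻¹ ^ 2 * (b * c⁻¹)) ^ 5 = 1) : a = 1 := by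
  sorry

/-- the commutator is central in a 2-generator group of exponent 3 -/
theorem certK {T : Type*} [Group T] {a b : T} (ha : a ^ 3 = 1) (hb : b ^ 3 = 1)
    (h1 : (a * b) ^ 3 = 1) (h2 : (a⁻¹ * b) ^ 3 = 1) :
    a * (a⁻¹ * b⁻¹ * a * b) = (a⁻¹ * b⁻¹ * a * b) * a ∧ (a⁻¹ * b⁻¹ * a * b) ^ 3 = 1 := by
  sorry

/-! ### group theory from the certificates -/

/-- CL: closure, from `certI`, `certII` -/
theorem closure53 {G : Type*} [Group G]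
    (hG : ∀ a b : G, a ^ 5 = 1 → b ^ 5 = 1 → (a * b) ^ 3 = 1 ∨ (a * b) ^ 5 = 1) :
    ∀ g ∈ Subgroup.closure {x : G | x ^ 5 = 1}, ∃ a b : G, a ^ 5 = 1 ∧ b ^ 5 = 1 ∧ g = a * b := by
  sorry

/-- PW: type A pairs -/
theorem typeA_pow {T : Type*} [Group T] (hT : ∀ g : T, g ^ 3 = 1 ∨ g ^ 5 = 1) {a b : T}
    (ha : a ^ 5 = 1) (hb : b ^ 3 = 1) (hab : (a * b) ^ 3 = 1) (k : ℤ) : (a ^ k * b) ^ 3 = 1 := by
  sorry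

/-- PW: type B pairs -/
theorem typeB_pow {T : Type*} [Group T] (hT : ∀ g : T, g ^ 3 = 1 ∨ g ^ 5 = 1) {a b : T}
    (ha : a ^ 5 = 1) (hb : b ^ 3 = 1) (hab : (a * b) ^ 5 = 1) (k : ℤ) (hk : ¬ (5 : ℤ) ∣ k) :
    (a ^ k * b) ^ 5 = 1 := by
  sorry

/-- HD -/
theorem typeB_conj {T : Type*} [Group T] (hT : ∀ g : T, g ^ 3 = 1 ∨ g ^ 5 = 1) {u s : T}
    (hu : u ^ 5 = 1) (hs : s ^ 3 = 1) (hs1 : s ≠ 1) (hus : (u * s) ^ 5 = 1) :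
    ∃ k : ℕ, (k = 1 ∨ k = 2) ∧ (s * (u⁻¹ ^ k * s * u ^ k)) ^ 3 = 1 ∧
      (s⁻¹ * (u⁻¹ ^ k * s * u ^ k)) ^ 3 = 1 := by
  sorry

/-- GP -/
theorem typeA_comm {T : Type*} [Group T] (hT : ∀ g : T, g ^ 3 = 1 ∨ g ^ 5 = 1) {x s t : T}
    (hx : x ^ 5 = 1) (hx1 : x ≠ 1) (hs : s ^ 3 = 1) (hxs : (x * s) ^ 3 = 1) (ht : t ^ 3 = 1)
    (hst : t * s = s * t) : t = 1 ∨ t = s ∨ t = s⁻¹ := by
  sorry

/-- GG -/
theorem typeA_three {T : Type*} [Group T] (hT : ∀ g : T, g ^ 3 = 1 ∨ g ^ 5 = 1) {x s t : T}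
    (hx : x ^ 5 = 1) (hx1 : x ≠ 1) (hs : s ^ 3 = 1) (hxs : (x * s) ^ 3 = 1) (ht : t ^ 3 = 1)
    (h1 : (s * t) ^ 3 = 1) (h2 : (s⁻¹ * t) ^ 3 = 1) : t = 1 ∨ t = s ∨ t = s⁻¹ := by
  sorry

/-- S1 -/
theorem stage1 {T : Type*} [Group T] (hT : ∀ g : T, g ^ 3 = 1 ∨ g ^ 5 = 1)
    (hgen : ∀ g : T, ∃ a b : T, a ^ 5 = 1 ∧ b ^ 5 = 1 ∧ g = a * b) :
    ∀ s t : T, s ^ 3 = 1 → t ^ 3 = 1 → (s * t) ^ 3 = 1 := by
  sorry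

/-- LF -/
theorem locFin53 {T : Type*} [Group T] (F : Subgroup T) (hF : ∀ s ∈ F, s ^ 3 = 1)
    (hi : F.index ≠ 0) : ∀ K : Subgroup T, K.FG → Finite K := by
  sorry

/-- EXT15 -/
theorem ext15 {G : Type*} [Group G]
    (h : ∀ K : Subgroup G, K.FG → K ≤ Subgroup.closure {x : G | x ^ 5 = 1} → Finite K) :
    ∀ K : Subgroup G, K.FG → (∀ g ∈ K, g ^ 15 = 1) → Finite K := by
  sorry

/-- FIN: the theorem, from all of the above -/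
theorem main53 {G : Type*} [Group G]
    (hG : ∀ a b : G, a ^ 5 = 1 → b ^ 5 = 1 → (a * b) ^ 3 = 1 ∨ (a * b) ^ 5 = 1) :
    (∀ g ∈ Subgroup.closure {x : G | x ^ 5 = 1}, g ^ 3 = 1 ∨ g ^ 5 = 1) ∧
    ((∀ a b : G, a ^ 5 = 1 → b ^ 5 = 1 → (a * b) ^ 5 = 1) ∨
      ((∃ F : Subgroup G, F.Normal ∧ F ≤ Subgroup.closure {x : G | x ^ 5 = 1} ∧
          F.relIndex (Subgroup.closure {x : G | x ^ 5 = 1}) = 5 ∧ ∀ s ∈ F, s ^ 3 = 1) ∧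
        (∀ K : Subgroup G, K.FG → K ≤ Subgroup.closure {x : G | x ^ 5 = 1} → Finite K) ∧
        ∀ K : Subgroup G, K.FG → (∀ g ∈ K, g ^ 15 = 1) → Finite K)) := by
  sorry

end H446.EY
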